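import Pool.Agent.H38R2.CG3.Fin

/-!
# A larger set of exceptional discriminants: also those with too few ideals in the family
-/

set_option autoImplicit false

namespace Pool.Agent.Q299.TPC

open Finset Filter NumberField Pool.Agent.H38R2.CG Pool.Agent.H38R2.CG2 Pool.Agent.H38R2.CG3
open scoped Classical

/-- exceptional discriminants: the Cauchy-Schwarz inequality is far from equality, or there are
few ideals in the family -/
def Bx (a t0 : ℝ) (X D : ℕ) : Prop :=
  Bd a t0 X D ∨ MD D (SA a X) (fun _ => 1) < 1 / 2 * NA a X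

/-- few exceptional discriminants -/
def P_AS : Prop := ∀ a : ℝ, 2 < a → ∀ t0 : ℝ, 0 < t0 → ∀ C0 : ℕ, 1 ≤ C0 → ∀ ε : ℝ, 0 < ε →
  ∃ z0 : ℕ, ∀ z ≥ z0,
  ∃ η1 : ℝ, 0 < η1 ∧ ∀ η : ℝ, 0 < η → η ≤ η1 → ∀ r : ℕ, FundRes z r → ∃ X0 : ℕ, ∀ X ≥ X0,
  ∀ ρ : ℕ → ℝ, SWt z X (PA a X) (cc a) C0 ρ →
    ∑ D ∈ (FD z r X η).filter (fun D => Bx a t0 X D), wt ρ D ≤ ε * WW z X η ρ

theorem P_AS_of (hAS : P3_AS0) (hM : P2_MLOW) (hWT : P2_WT) : P_AS := by
  intro a ha t0 ht0 C0 hC0 ε hε
  obtain ⟨z0, hz0⟩ := hAS a ha t0 ht0 C0 hC0 (ε / 2) (by positivity)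
  refine ⟨z0, fun z hz => ?_⟩
  obtain ⟨η1, hη1, H⟩ := hz0 z hz
  refine ⟨min η1 1, lt_min hη1 one_pos, fun η hη0 hη r hr => ?_⟩
  obtain ⟨X1, hX1⟩ := H η hη0 (hη.trans (min_le_left _ _)) r hr
  have hε' : 0 < min (ε / 2) (1 / 2) := lt_min (by positivity) (by norm_num)
  obtain ⟨X2, hX2⟩ := hM a ha z r hr η hη0 (hη.trans (min_le_right _ _)) C0 hC0 _ hε'
  refine ⟨max (max X1 X2) 1, fun X hX ρ hρ => ?_⟩
  have hX1' := hX1 X ((le_max_left _ _).trans ((le_max_left _ _).trans hX)) ρ hρ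
  have hX2' := hX2 X ((le_max_right _ _).trans ((le_max_left _ _).trans hX)) ρ hρ
  have hX0 : 1 ≤ X := (le_max_right _ _).trans hX
  have hX0r : (1 : ℝ) ≤ X := by exact_mod_cast hX0
  have hcc : cc a ≤ 1 := by
    unfold cc
    rw [div_le_one (by linarith)]
    linarith
  have hcc0 : 0 ≤ Real.log X := Real.log_nonneg hX0r
  have hw : ∀ D ∈ DD z r X η, 0 ≤ wt ρ D := by
    intro D hD
    simp only [DD, mem_filter, mem_Ioc] at hD
    exact (hWT z X (PA a X) (cc a) C0 ρ hX0 hcc hρ D (by omega)).1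
  have hWpos : 0 ≤ WW z X η ρ := by
    unfold WW
    have h1 : 0 ≤ GG X ρ := le_trans (by positivity) hρ.low
    positivity
  have hNA : 0 ≤ NA a X := by
    unfold NA CA
    positivity
  have hsub : (FD z r X η).filter (fun D => Bx a t0 X D) ⊆
      (FD z r X η).filter (fun D => Bd a t0 X D) ∪
        (DD z r X η).filter (fun D => MD D (SA a X) (fun _ => 1) <
          (1 - min (ε / 2) (1 / 2)) * NA a X) := by
    intro D hD
    rw [mem_filter] at hD
    rw [mem_union, mem_filter, mem_filter]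
    rcases hD.2 with h | h
    · exact Or.inl ⟨hD.1, h⟩
    · right
      refine ⟨(mem_filter.1 hD.1).1, h.trans_le ?_⟩
      apply mul_le_mul_of_nonneg_right _ hNA
      have := min_le_right (ε / 2) (1 / 2 : ℝ)
      linarith
  have hsum : ∑ D ∈ (FD z r X η).filter (fun D => Bx a t0 X D), wt ρ D ≤
      ∑ D ∈ (FD z r X η).filter (fun D => Bd a t0 X D), wt ρ D +
      ∑ D ∈ (DD z r X η).filter (fun D => MD D (SA a X) (fun _ => 1) <
          (1 - min (ε / 2) (1 / 2)) * NA a X), wt ρ D := by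
    refine (sum_le_sum_of_subset_of_nonneg hsub ?_).trans ?_
    · intro D hD _
      rw [mem_union, mem_filter, mem_filter] at hD
      rcases hD with h | h
      · exact hw D (mem_filter.1 h.1).1
      · exact hw D h.1
    · rw [← sum_union_inter]
      have : 0 ≤ ∑ D ∈ (FD z r X η).filter (fun D => Bd a t0 X D) ∩
          (DD z r X η).filter (fun D => MD D (SA a X) (fun _ => 1) <
            (1 - min (ε / 2) (1 / 2)) * NA a X), wt ρ D := by
        apply sum_nonneg
        intro D hD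
        exact hw D (mem_filter.1 (mem_inter.1 hD).2).1
      linarith
  refine hsum.trans ?_
  have h3 : min (ε / 2) (1 / 2) * WW z X η ρ ≤ ε / 2 * WW z X η ρ :=
    mul_le_mul_of_nonneg_right (min_le_left _ _) hWpos
  linarith

end Pool.Agent.Q299.TPC
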