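import Pool.Agent.Q299.TPC.Sub

/-!
# The inequality for the small primes lying in a subgroup, and robust generation: proofs
-/

set_option autoImplicit false

namespace Pool.Agent.Q299.TPC

open Finset Filter NumberField Pool.Agent.H38R2.CG Pool.Agent.H38R2.CG2 Pool.Agent.H38R2.CG3
open scoped Classical

section

variable (K : Type) [Field K] [NumberField K]

/-- what is known about the field: a total count and the bounds for the weights -/
structure Base (y k : ℕ) : Prop where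
  equi : Equi K y k (1 / 4)
  tot : ∀ A : Finset ℕ, A ⊆ PP y → ∑ C : ClassGroup (𝓞 K), MA K k A C = es (wK K) A k
  bd : ∀ p ∈ PP y, 0 ≤ wK K p ∧ wK K p ≤ 2
  conj : ∀ p ∈ PP y, ∀ P Q : nonZeroDivisors (Ideal (𝓞 K)),
    Ideal.absNorm (P : Ideal (𝓞 K)) = p → Ideal.absNorm (Q : Ideal (𝓞 K)) = p →
    ClassGroup.mk0 Q = ClassGroup.mk0 P ∨ ClassGroup.mk0 P * ClassGroup.mk0 Q = 1

variable {K}

lemma PP_pos {y p : ℕ} (hp : p ∈ PP y) : 0 < p := by
  unfold PP at hp
  exact (mem_filter.1 hp).2.pos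

lemma Base.es_pos {y k : ℕ} (hB : Base K y k) : 0 < es (wK K) (PP y) k := by
  rw [← hB.tot (PP y) subset_rfl]
  have h0 := hB.equi.1
  have h1 : (0 : ℝ) < ((∑ C : ClassGroup (𝓞 K), cnt K y k C : ℕ) : ℝ) := by exact_mod_cast h0
  push_cast at h1
  refine lt_of_lt_of_le h1 (le_of_eq (sum_congr rfl fun C _ => ?_))
  exact cnt_eq K y k C

/-- products of primes from `A` have their class in any subgroup containing the primes -/
lemma MA_eq_zero {y : ℕ} (k : ℕ) {A : Finset ℕ} (hA : A ⊆ PP y) (H : Subgroup (ClassGroup (𝓞 K)))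
    (hH : ∀ p ∈ A, ∀ P : nonZeroDivisors (Ideal (𝓞 K)), Ideal.absNorm (P : Ideal (𝓞 K)) = p →
      ClassGroup.mk0 P ∈ H) (C : ClassGroup (𝓞 K)) (hC : C ∉ H) : MA K k A C = 0 := by
  unfold MA MC
  apply sum_eq_zero
  intro s hs
  rw [mem_powersetCard] at hs
  have hsprime : ∀ p ∈ s, p.Prime := fun p hp => (mem_filter.1 (hA (hs.1 hp))).2
  have : Nat.card {I : nonZeroDivisors (Ideal (𝓞 K)) //
      Ideal.absNorm (I : Ideal (𝓞 K)) = prodS s ∧ ClassGroup.mk0 I = C} = 0 := by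
    rw [Nat.card_eq_zero]
    left
    constructor
    rintro ⟨I, hI1, hI2⟩
    obtain ⟨L, hL1, _, hL3⟩ := factor K s hsprime I hI1
    apply hC
    rw [← hI2, ← hL3]
    apply Subgroup.multiset_prod_mem
    intro c hc
    obtain ⟨P, hP, rfl⟩ := Multiset.mem_map.1 hc
    exact hH _ (hs.1 (hL1 P hP).2) P rfl
  rw [this]
  simp

/-- **The small primes in a subgroup.** -/
theorem sub_ineq {y k : ℕ} (hB : Base K y k) (H : Subgroup (ClassGroup (𝓞 K)))
    (hk : 2 * (k : ℝ) ≤ ({P ∈ PI K y | ClassGroup.mk0 P ∈ H}.ncard : ℝ)) :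
    (H.index : ℝ) * ((({P ∈ PI K y | ClassGroup.mk0 P ∈ H}.ncard : ℝ) - 2 * k) ^ k) ^ 2 ≤
      5 / 4 * (((PI K y).ncard : ℝ) ^ k) ^ 2 := by
  set A : Finset ℕ := (PP y).filter (fun p => ∀ P : nonZeroDivisors (Ideal (𝓞 K)),
    Ideal.absNorm (P : Ideal (𝓞 K)) = p → ClassGroup.mk0 P ∈ H) with hA
  have hAsub : A ⊆ PP y := filter_subset _ _
  have hW : ((PI K y).ncard : ℝ) = ∑ p ∈ PP y, wK K p := ncard_PIA K (PP y) fun p hp => PP_pos hp
  have hWA : ((PIA K A).ncard : ℝ) = ∑ p ∈ A, wK K p :=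
    ncard_PIA K A fun p hp => PP_pos (hAsub hp)
  have hsub : {P ∈ PI K y | ClassGroup.mk0 P ∈ H} ⊆ PIA K A := by
    rintro P ⟨hP1, hP2⟩
    show Ideal.absNorm (P : Ideal (𝓞 K)) ∈ A
    rw [hA, mem_filter]
    refine ⟨hP1, fun Q hQ => ?_⟩
    rcases hB.conj _ hP1 P Q rfl hQ with h | h
    · rw [h]; exact hP2
    · rw [eq_inv_of_mul_eq_one_right h]
      exact H.inv_mem hP2
  have hle : ({P ∈ PI K y | ClassGroup.mk0 P ∈ H}.ncard : ℝ) ≤ ∑ p ∈ A, wK K p := by
    rw [← hWA]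
    exact_mod_cast Set.ncard_le_ncard hsub (finite_PIA K A)
  have hratio := es_ratio hAsub hB.bd k (hk.trans hle)
  have hspread := spread K (by norm_num : (0 : ℝ) ≤ 1 / 4) hB.equi hAsub
    (Finset.univ.filter (fun C : ClassGroup (𝓞 K) => C ∈ H)) (by
      intro C hC
      refine MA_eq_zero k hAsub H ?_ C ?_
      · intro p hp
        exact (mem_filter.1 hp).2
      · intro h
        exact hC (mem_filter.2 ⟨mem_univ _, h⟩))
  rw [hB.tot A hAsub, hB.tot (PP y) subset_rfl] at hspread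
  have hcard : (((Finset.univ.filter (fun C : ClassGroup (𝓞 K) => C ∈ H)).card : ℕ) : ℝ) =
      Nat.card H := by
    congr 1
    symm
    apply Nat.subtype_card
    intro C
    simp
  rw [hcard] at hspread
  have hidx : (Nat.card (ClassGroup (𝓞 K)) : ℝ) = H.index * Nat.card H := by
    rw [mul_comm]
    exact_mod_cast H.card_mul_index.symm
  rw [hidx] at hspread
  have hHpos : (0 : ℝ) < Nat.card H := by exact_mod_cast Nat.card_pos
  have hU := hB.es_pos
  set U := es (wK K) (PP y) k with hUdef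
  set V := es (wK K) A k with hV
  set w := ({P ∈ PI K y | ClassGroup.mk0 P ∈ H}.ncard : ℝ) with hw
  have hV0 : 0 ≤ V := es_nonneg (fun p hp => (hB.bd p (hAsub hp)).1) k
  have h1 : (H.index : ℝ) * V ^ 2 ≤ 5 / 4 * U ^ 2 := by
    have h2 : (Nat.card H : ℝ) * ((H.index : ℝ) * V ^ 2) ≤ (Nat.card H : ℝ) * (5 / 4 * U ^ 2) := by
      have h3 : (1 + 1 / 4 : ℝ) * (Nat.card H : ℝ) * U ^ 2 = (Nat.card H : ℝ) * (5 / 4 * U ^ 2) := by
        ring
      have h4 : (H.index : ℝ) * (Nat.card H : ℝ) * V ^ 2 =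
          (Nat.card H : ℝ) * ((H.index : ℝ) * V ^ 2) := by ring
      rw [h3, h4] at hspread
      exact hspread
    exact le_of_mul_le_mul_left h2 hHpos
  rw [hW]
  set Wt := ∑ p ∈ PP y, wK K p with hWt
  have hWt0 : 0 ≤ Wt := sum_nonneg fun p hp => (hB.bd p hp).1
  have h5 : (w - 2 * k) ^ k * U ≤ Wt ^ k * V := by
    refine le_trans ?_ hratio
    apply mul_le_mul_of_nonneg_right _ hU.le
    apply pow_le_pow_left₀ (by linarith)
    linarith
  have h6 : ((w - 2 * k) ^ k * U) ^ 2 ≤ (Wt ^ k * V) ^ 2 := by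
    apply pow_le_pow_left₀ _ h5
    have : 0 ≤ (w - 2 * k) ^ k := pow_nonneg (by linarith) _
    positivity
  have hU2 : 0 < U ^ 2 := by positivity
  refine le_of_mul_le_mul_right ?_ hU2
  calc (H.index : ℝ) * ((w - 2 * k) ^ k) ^ 2 * U ^ 2
      = (H.index : ℝ) * ((w - 2 * k) ^ k * U) ^ 2 := by ring
    _ ≤ (H.index : ℝ) * (Wt ^ k * V) ^ 2 := by gcongr
    _ = (Wt ^ k) ^ 2 * ((H.index : ℝ) * V ^ 2) := by ring
    _ ≤ (Wt ^ k) ^ 2 * (5 / 4 * U ^ 2) := by gcongr
    _ = 5 / 4 * (Wt ^ k) ^ 2 * U ^ 2 := by ring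

/-- **Robust generation.** Every class is a product of `2 k` small prime ideals outside a given
small set. -/
theorem robust {y k : ℕ} (hB : Base K y k) (S : Finset (nonZeroDivisors (Ideal (𝓞 K))))
    (hS : 10 * (k : ℝ) * (S.card + k) ≤ ((PI K y).ncard : ℝ)) (C : ClassGroup (𝓞 K)) :
    ∃ L : Multiset (nonZeroDivisors (Ideal (𝓞 K))), (∀ P ∈ L, P ∈ PI K y ∧ P ∉ S) ∧
      L.card = 2 * k ∧ (L.map (fun P => ClassGroup.mk0 P)).prod = C := by
  set Q : Finset ℕ := Finset.image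
    (fun P : nonZeroDivisors (Ideal (𝓞 K)) => Ideal.absNorm (P : Ideal (𝓞 K))) S with hQ
  set A : Finset ℕ := (PP y) \ Q with hA
  have hAsub : A ⊆ PP y := sdiff_subset
  have hW : ((PI K y).ncard : ℝ) = ∑ p ∈ PP y, wK K p := ncard_PIA K (PP y) fun p hp => PP_pos hp
  set Wt := ∑ p ∈ PP y, wK K p with hWt
  have hWA : Wt - 2 * S.card ≤ ∑ p ∈ A, wK K p := by
    have h1 : ∑ p ∈ A, wK K p + ∑ p ∈ PP y ∩ Q, wK K p = Wt := by
      rw [hA, ← Finset.sdiff_inter_self_left (PP y) Q]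
      exact sum_sdiff inter_subset_left
    have h2 : ∑ p ∈ PP y ∩ Q, wK K p ≤ 2 * S.card := by
      calc ∑ p ∈ PP y ∩ Q, wK K p ≤ ∑ _p ∈ PP y ∩ Q, (2 : ℝ) :=
            sum_le_sum fun p hp => (hB.bd p (mem_of_mem_inter_left hp)).2
        _ = 2 * (PP y ∩ Q).card := by rw [sum_const, nsmul_eq_mul]; ring
        _ ≤ 2 * S.card := by
            have h30 : Q.card ≤ S.card := by rw [hQ]; exact Finset.card_image_le
            have h3 : (PP y ∩ Q).card ≤ S.card :=
              (card_le_card inter_subset_right).trans h30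
            have h4 : ((PP y ∩ Q).card : ℝ) ≤ S.card := by exact_mod_cast h3
            linarith
    linarith
  have hU := hB.es_pos
  have hes : 4 / 5 * es (wK K) (PP y) k ≤ es (wK K) A k := by
    rcases Nat.eq_zero_or_pos k with hk0 | hk0
    · subst hk0
      rw [es_zero, es_zero]
      norm_num
    · have hk1 : (1 : ℝ) ≤ k := by exact_mod_cast hk0
      have hs0 : (0 : ℝ) ≤ S.card := Nat.cast_nonneg _
      rw [hW] at hS
      have hWt0 : 0 < Wt := by nlinarith
      have h2k : 2 * (k : ℝ) ≤ ∑ p ∈ A, wK K p := by nlinarith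
      have hratio := es_ratio hAsub hB.bd k h2k
      have hu : (0 : ℝ) ≤ 2 * (S.card + k) / Wt := by positivity
      have hu2 : k * (2 * ((S.card : ℝ) + k) / Wt) ≤ 1 / 5 := by
        rw [mul_div_assoc', div_le_iff₀ hWt0]
        nlinarith
      have hu3 : 2 * ((S.card : ℝ) + k) / Wt ≤ 1 / 5 := by nlinarith
      have hbern := one_add_mul_le_pow (a := -(2 * ((S.card : ℝ) + k) / Wt)) (by linarith) k
      have h3 : 4 / 5 ≤ (1 + -(2 * ((S.card : ℝ) + k) / Wt)) ^ k := by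
        refine le_trans ?_ hbern
        linarith
      have h4 : Wt * (1 + -(2 * ((S.card : ℝ) + k) / Wt)) = Wt - 2 * (S.card + k) := by
        field_simp
        ring
      have h5 : (Wt - 2 * (S.card + k)) ^ k ≤ ((∑ p ∈ A, wK K p) - 2 * k) ^ k := by
        apply pow_le_pow_left₀
        · rw [← h4]
          apply mul_nonneg hWt0.le
          linarith
        · linarith
      have h6 : Wt ^ k * (4 / 5 * es (wK K) (PP y) k) ≤ Wt ^ k * es (wK K) A k := by
        refine le_trans ?_ hratio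
        calc Wt ^ k * (4 / 5 * es (wK K) (PP y) k)
            ≤ Wt ^ k * ((1 + -(2 * ((S.card : ℝ) + k) / Wt)) ^ k * es (wK K) (PP y) k) := by
              gcongr
          _ = (Wt - 2 * (S.card + k)) ^ k * es (wK K) (PP y) k := by
              rw [← h4, mul_pow]; ring
          _ ≤ _ := mul_le_mul_of_nonneg_right h5 hU.le
      exact le_of_mul_le_mul_left h6 (by positivity)
  set Cs : Finset (ClassGroup (𝓞 K)) := Finset.univ.filter (fun C => MA K k A C ≠ 0) with hCs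
  have hspread := spread K (by norm_num : (0 : ℝ) ≤ 1 / 4) hB.equi hAsub Cs (by
    intro C hC
    by_contra hcon
    exact hC (mem_filter.2 ⟨mem_univ _, hcon⟩))
  rw [hB.tot A hAsub, hB.tot (PP y) subset_rfl] at hspread
  set h : ℝ := (Nat.card (ClassGroup (𝓞 K)) : ℝ) with hh
  have hpos : 0 < h := by rw [hh]; exact_mod_cast Nat.card_pos
  have hbig : h < 2 * (Cs.card : ℝ) := by
    have h1 : h * (4 / 5 * es (wK K) (PP y) k) ^ 2 ≤ h * es (wK K) A k ^ 2 := by
      apply mul_le_mul_of_nonneg_left _ hpos.le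
      apply pow_le_pow_left₀ (by positivity) hes
    have h2 := h1.trans hspread
    have hU2 : 0 < es (wK K) (PP y) k ^ 2 := by positivity
    have h3 : (16 / 25 * h) * es (wK K) (PP y) k ^ 2 ≤
        (5 / 4 * Cs.card) * es (wK K) (PP y) k ^ 2 := by
      calc (16 / 25 * h) * es (wK K) (PP y) k ^ 2 = h * (4 / 5 * es (wK K) (PP y) k) ^ 2 := by ring
        _ ≤ _ := h2
        _ = _ := by ring
    have h4 := le_of_mul_le_mul_right h3 hU2
    linarith
  have hcardH : ((Finset.univ : Finset (ClassGroup (𝓞 K))).card : ℝ) = h := by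
    rw [Finset.card_univ, hh, Nat.card_eq_fintype_card]
  -- pigeonhole
  have hex : ∃ C1 ∈ Cs, C * C1⁻¹ ∈ Cs := by
    by_contra hcon
    push Not at hcon
    have hdisj : Disjoint Cs (Cs.image (fun C1 => C * C1⁻¹)) := by
      rw [Finset.disjoint_right]
      intro C2 hC2 hC2'
      obtain ⟨C1, hC1, rfl⟩ := Finset.mem_image.1 hC2
      exact hcon C1 hC1 hC2'
    have hinj : (Cs.image (fun C1 => C * C1⁻¹)).card = Cs.card := by
      apply Finset.card_image_of_injective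
      intro x y hxy
      simpa using hxy
    have h3 : (Cs ∪ Cs.image (fun C1 => C * C1⁻¹)).card ≤
        (Finset.univ : Finset (ClassGroup (𝓞 K))).card := Finset.card_le_card (Finset.subset_univ _)
    rw [Finset.card_union_of_disjoint hdisj, hinj] at h3
    have h4 : (Cs.card : ℝ) + Cs.card ≤ h := by
      rw [← hcardH]
      exact_mod_cast h3
    linarith
  obtain ⟨C1, hC1, hC2⟩ := hex
  have hex2 : ∀ C' ∈ Cs, ∃ L : Multiset (nonZeroDivisors (Ideal (𝓞 K))),
      (∀ P ∈ L, P ∈ PI K y ∧ P ∉ S) ∧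
      L.card = k ∧ (L.map (fun P => ClassGroup.mk0 P)).prod = C' := by
    intro C' hC'
    have h5 := (Finset.mem_filter.1 hC').2
    unfold MA MC at h5
    obtain ⟨s, hs, hs'⟩ := Finset.exists_ne_zero_of_sum_ne_zero h5
    have hne : Nonempty {I : nonZeroDivisors (Ideal (𝓞 K)) //
        Ideal.absNorm (I : Ideal (𝓞 K)) = prodS s ∧ ClassGroup.mk0 I = C'} := by
      by_contra hemp
      rw [not_nonempty_iff] at hemp
      apply hs'
      rw [Nat.card_of_isEmpty]
      simp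
    obtain ⟨I, hI1, hI2⟩ := hne
    have hsP := Finset.mem_powersetCard.1 hs
    have hsprime : ∀ p ∈ s, p.Prime := fun p hp => (Finset.mem_filter.1 (hAsub (hsP.1 hp))).2
    obtain ⟨L, hL1, hL2, hL3⟩ := factor K s hsprime I hI1
    refine ⟨L, ?_, ?_, ?_⟩
    · intro P hP
      have h6 := hsP.1 (hL1 P hP).2
      rw [hA, Finset.mem_sdiff] at h6
      refine ⟨h6.1, fun hPS => h6.2 ?_⟩
      rw [hQ]
      exact Finset.mem_image_of_mem
        (fun P : nonZeroDivisors (Ideal (𝓞 K)) => Ideal.absNorm (P : Ideal (𝓞 K))) hPS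
    · rw [hL2, hsP.2]
    · rw [hL3, hI2]
  obtain ⟨L1, a1, a2, a3⟩ := hex2 C1 hC1
  obtain ⟨L2, b1, b2, b3⟩ := hex2 _ hC2
  refine ⟨L1 + L2, ?_, ?_, ?_⟩
  · intro P hP
    rcases Multiset.mem_add.1 hP with h | h
    · exact a1 P h
    · exact b1 P h
  · rw [Multiset.card_add, a2, b2]
    omega
  · rw [Multiset.map_add, Multiset.prod_add, a3, b3]
    exact mul_inv_cancel_comm_assoc C1 C

/-- many small primes of degree one -/
theorem many {y k : ℕ} (hB : Base K y k) (hk : 1 ≤ k)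
    (hM : 1 / 2 * ((PP y).card.choose k : ℝ) ≤ es (wK K) (PP y) k) (hkn : k ≤ (PP y).card + 1) :
    (((PP y).card : ℝ) + 1 - k) / 2 ≤ ((PI K y).ncard : ℝ) := by
  have hW : ((PI K y).ncard : ℝ) = ∑ p ∈ PP y, wK K p := ncard_PIA K (PP y) fun p hp => PP_pos hp
  rw [hW]
  set Wt := ∑ p ∈ PP y, wK K p with hWt
  have hWt0 : 0 ≤ Wt := sum_nonneg fun p hp => (hB.bd p hp).1
  have h1 : ∀ j : ℕ, (j.factorial : ℝ) * es (wK K) (PP y) j ≤ Wt ^ j := by
    intro j
    induction j with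
    | zero => simp [es_zero]
    | succ j ih =>
      have h2 := es_succ_le (fun p hp => (hB.bd p hp).1) j
      rw [Nat.factorial_succ]
      push_cast
      calc ((j : ℝ) + 1) * (j.factorial : ℝ) * es (wK K) (PP y) (j + 1)
          = (j.factorial : ℝ) * (((j : ℝ) + 1) * es (wK K) (PP y) (j + 1)) := by ring
        _ ≤ (j.factorial : ℝ) * (Wt * es (wK K) (PP y) j) := by gcongr
        _ = Wt * ((j.factorial : ℝ) * es (wK K) (PP y) j) := by ring
        _ ≤ Wt * Wt ^ j := by gcongr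
        _ = Wt ^ (j + 1) := by ring
  set n := (PP y).card with hn
  have h3 : (((n + 1 - k : ℕ) : ℝ)) ^ k ≤ (k.factorial : ℝ) * (n.choose k : ℝ) := by
    have h4 := Nat.pow_sub_le_descFactorial n k
    rw [Nat.descFactorial_eq_factorial_mul_choose] at h4
    exact_mod_cast h4
  have h5 : (((n + 1 - k : ℕ) : ℝ)) ^ k ≤ 2 * Wt ^ k := by
    have h6 := h1 k
    have h7 : (k.factorial : ℝ) * (1 / 2 * (n.choose k : ℝ)) ≤
        (k.factorial : ℝ) * es (wK K) (PP y) k := by gcongr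
    linarith
  have h8 : (((n + 1 - k : ℕ) : ℝ)) ^ k ≤ (2 * Wt) ^ k := by
    refine h5.trans ?_
    rw [mul_pow]
    have h9 : (2 : ℝ) ≤ 2 ^ k := by
      calc (2 : ℝ) = 2 ^ 1 := by norm_num
        _ ≤ 2 ^ k := pow_le_pow_right₀ (by norm_num) hk
    gcongr
  have h10 : ((n + 1 - k : ℕ) : ℝ) ≤ 2 * Wt :=
    le_of_pow_le_pow_left₀ (by omega) (by positivity) h8
  rw [Nat.cast_sub hkn] at h10
  push_cast at h10
  linarith

end

end Pool.Agent.Q299.TPC
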