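import Pool.Agent.Q299.TPC.ES2
import Pool.Agent.Q299.TPC.Rob
import Pool.Agent.H38R2.CG.N1

/-!
# Ideals of given norm in the group algebra of the class group
-/

set_option autoImplicit false

namespace Pool.Agent.Q299.TPC

open Finset Filter NumberField Pool.Agent.H38R2.CG Pool.Agent.H38R2.CG2 Pool.Agent.H38R2.CG3
open MonoidAlgebra
open scoped Classical

section

variable (K : Type) [Field K] [NumberField K]

/-- ideals of norm `n` in the group algebra of the class group -/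
noncomputable def Ag (n : ℕ) : MonoidAlgebra ℝ (ClassGroup (𝓞 K)) :=
  ∑ C : ClassGroup (𝓞 K), single C
    ((Nat.card {I : nonZeroDivisors (Ideal (𝓞 K)) //
      Ideal.absNorm (I : Ideal (𝓞 K)) = n ∧ ClassGroup.mk0 I = C} : ℕ) : ℝ)

lemma Ag_coeff (n : ℕ) (C : ClassGroup (𝓞 K)) : (Ag K n).coeff C =
    ((Nat.card {I : nonZeroDivisors (Ideal (𝓞 K)) //
      Ideal.absNorm (I : Ideal (𝓞 K)) = n ∧ ClassGroup.mk0 I = C} : ℕ) : ℝ) := by
  unfold Ag
  rw [coeff_sum, Finsupp.finsetSum_apply]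
  simp only [coeff_single, Finsupp.single_apply]
  rw [sum_ite_eq' univ C]
  simp

lemma Ag_nonneg (n : ℕ) (C : ClassGroup (𝓞 K)) : 0 ≤ (Ag K n).coeff C := by
  rw [Ag_coeff]
  exact Nat.cast_nonneg _

lemma finite_norm' (n : ℕ) (Q : nonZeroDivisors (Ideal (𝓞 K)) → Prop) :
    Finite {I : nonZeroDivisors (Ideal (𝓞 K)) //
      Ideal.absNorm (I : Ideal (𝓞 K)) = n ∧ Q I} := by
  refine Set.Finite.to_subtype ?_
  exact (Ideal.finite_setOfPred_absNorm_le₀ (S := 𝓞 K) n).subset fun I hI => hI.1.le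

/-- the equivalence behind the multiplicativity -/
noncomputable def agEquiv {m n : ℕ} (hm : 0 < m) (hn : 0 < n) (h : m.Coprime n)
    (C : ClassGroup (𝓞 K)) :
    (Σ a : ClassGroup (𝓞 K), {I : nonZeroDivisors (Ideal (𝓞 K)) //
        Ideal.absNorm (I : Ideal (𝓞 K)) = m ∧ ClassGroup.mk0 I = a} ×
      {I : nonZeroDivisors (Ideal (𝓞 K)) //
        Ideal.absNorm (I : Ideal (𝓞 K)) = n ∧ ClassGroup.mk0 I = a⁻¹ * C}) ≃
    {I : nonZeroDivisors (Ideal (𝓞 K)) //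
      Ideal.absNorm (I : Ideal (𝓞 K)) = m * n ∧ ClassGroup.mk0 I = C} := by
  refine Equiv.ofBijective (fun x => ⟨x.2.1.1 * x.2.2.1, ?_, ?_⟩) ⟨?_, ?_⟩
  · show Ideal.absNorm ((x.2.1.1 : Ideal (𝓞 K)) * (x.2.2.1 : Ideal (𝓞 K))) = m * n
    rw [map_mul, x.2.1.2.1, x.2.2.2.1]
  · rw [map_mul, x.2.1.2.2, x.2.2.2.2]
    group
  · rintro ⟨a, ⟨I, hI⟩, ⟨J, hJ⟩⟩ ⟨b, ⟨I', hI'⟩, ⟨J', hJ'⟩⟩ hx
    have e : I * J = I' * J' := congrArg Subtype.val hx
    have e' : (I : Ideal (𝓞 K)) * (J : Ideal (𝓞 K)) = (I' : Ideal (𝓞 K)) * (J' : Ideal (𝓞 K)) :=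
      congrArg Subtype.val e
    have h1 : (I : Ideal (𝓞 K)) = I' := by
      rw [← Pool.Agent.H38R2.CG.N1h.mul_sup h hI.1 hJ.1,
        ← Pool.Agent.H38R2.CG.N1h.mul_sup h hI'.1 hJ'.1, e']
    have h2 : (J : Ideal (𝓞 K)) = J' := by
      rw [← Pool.Agent.H38R2.CG.N1h.mul_sup h.symm hJ.1 hI.1,
        ← Pool.Agent.H38R2.CG.N1h.mul_sup h.symm hJ'.1 hI'.1, mul_comm (J : Ideal (𝓞 K)), e',
        mul_comm (J' : Ideal (𝓞 K))]
    have h3 : I = I' := Subtype.ext h1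
    have h4 : J = J' := Subtype.ext h2
    subst h3
    subst h4
    have h5 : a = b := by rw [← hI.2, hI'.2]
    subst h5
    rfl
  · rintro ⟨I, hI1, hI2⟩
    obtain ⟨n1, n2⟩ := Pool.Agent.H38R2.CG.N1h.norm_sup hm hn h hI1
    have hJ : (I : Ideal (𝓞 K)) ⊔ Ideal.span {(m : 𝓞 K)} ∈ nonZeroDivisors (Ideal (𝓞 K)) := by
      rw [← Ideal.absNorm_ne_zero_iff_mem_nonZeroDivisors, n1]
      exact hm.ne'
    have hL : (I : Ideal (𝓞 K)) ⊔ Ideal.span {(n : 𝓞 K)} ∈ nonZeroDivisors (Ideal (𝓞 K)) := by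
      rw [← Ideal.absNorm_ne_zero_iff_mem_nonZeroDivisors, n2]
      exact hn.ne'
    have hprod : (⟨_, hJ⟩ * ⟨_, hL⟩ : nonZeroDivisors (Ideal (𝓞 K))) = I := by
      apply Subtype.ext
      exact Pool.Agent.H38R2.CG.N1h.sup_mul h hI1
    refine ⟨⟨ClassGroup.mk0 ⟨_, hJ⟩, ⟨⟨_, hJ⟩, n1, rfl⟩, ⟨⟨_, hL⟩, n2, ?_⟩⟩, ?_⟩
    · rw [eq_inv_mul_iff_mul_eq, ← map_mul, hprod, hI2]
    · apply Subtype.ext
      exact hprod

lemma Ag_mul {m n : ℕ} (hm : 0 < m) (hn : 0 < n) (h : m.Coprime n) :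
    Ag K (m * n) = Ag K m * Ag K n := by
  apply ext'
  intro C
  rw [Ag_coeff, cm', ← Nat.card_congr (agEquiv K hm hn h C)]
  have : ∀ a : ClassGroup (𝓞 K), Finite ({I : nonZeroDivisors (Ideal (𝓞 K)) //
        Ideal.absNorm (I : Ideal (𝓞 K)) = m ∧ ClassGroup.mk0 I = a} ×
      {I : nonZeroDivisors (Ideal (𝓞 K)) //
        Ideal.absNorm (I : Ideal (𝓞 K)) = n ∧ ClassGroup.mk0 I = a⁻¹ * C}) := by
    intro a
    have := finite_norm' K m (fun I => ClassGroup.mk0 I = a)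
    have := finite_norm' K n (fun I => ClassGroup.mk0 I = a⁻¹ * C)
    infer_instance
  rw [Nat.card_sigma]
  push_cast
  refine sum_congr rfl fun a _ => ?_
  rw [Nat.card_prod, Ag_coeff, Ag_coeff]
  push_cast
  rfl

lemma Ag_one : Ag K 1 = 1 := by
  apply ext'
  intro C
  rw [Ag_coeff, one_def, coeff_single, Finsupp.single_apply]
  split_ifs with h
  · have : Nat.card {I : nonZeroDivisors (Ideal (𝓞 K)) //
      Ideal.absNorm (I : Ideal (𝓞 K)) = 1 ∧ ClassGroup.mk0 I = C} = 1 := by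
      rw [Nat.card_eq_one_iff_unique]
      constructor
      · constructor
        rintro ⟨I, hI⟩ ⟨J, hJ⟩
        have h1 := Ideal.absNorm_eq_one_iff.1 hI.1
        have h2 := Ideal.absNorm_eq_one_iff.1 hJ.1
        apply Subtype.ext
        apply Subtype.ext
        rw [h1, h2]
      · refine ⟨⟨1, ?_, ?_⟩⟩
        · show Ideal.absNorm (1 : Ideal (𝓞 K)) = 1
          exact map_one _
        · rw [map_one]
          exact h
    rw [this]
    norm_num
  · have : Nat.card {I : nonZeroDivisors (Ideal (𝓞 K)) //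
      Ideal.absNorm (I : Ideal (𝓞 K)) = 1 ∧ ClassGroup.mk0 I = C} = 0 := by
      rw [Nat.card_eq_zero]
      left
      constructor
      rintro ⟨I, hI⟩
      apply h
      have h1 := Ideal.absNorm_eq_one_iff.1 hI.1
      have h2 : I = 1 := Subtype.ext (h1.trans Ideal.one_eq_top.symm)
      rw [← hI.2, h2, map_one]
    rw [this]
    norm_num

lemma Ag_prod (s : Finset ℕ) (hs : ∀ p ∈ s, p.Prime) : Ag K (prodS s) = ∏ p ∈ s, Ag K p := by
  induction s using Finset.induction_on with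
  | empty =>
    unfold prodS
    rw [prod_empty, prod_empty]
    exact Ag_one K
  | insert p s hp ih =>
    have hs' : ∀ q ∈ s, q.Prime := fun q hq => hs q (mem_insert_of_mem hq)
    have hpp : p.Prime := hs p (mem_insert_self _ _)
    rw [prod_insert hp, ← ih hs']
    have e : prodS (insert p s) = p * prodS s := by
      unfold prodS
      rw [prod_insert hp]
    rw [e]
    apply Ag_mul K hpp.pos
    · unfold prodS
      exact prod_pos fun q hq => (hs' q hq).pos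
    · unfold prodS
      apply Nat.Coprime.prod_right
      intro q hq
      rw [Nat.coprime_primes hpp (hs' q hq)]
      rintro rfl
      exact hp hq

lemma er_coeff (k : ℕ) (A : Finset ℕ) (hA : ∀ p ∈ A, p.Prime) (C : ClassGroup (𝓞 K)) :
    (er (Ag K) A k).coeff C = MA K k A C := by
  unfold er MA MC
  rw [coeff_sum, Finsupp.finsetSum_apply]
  refine sum_congr rfl fun s hs => ?_
  rw [← Ag_prod K s fun p hp => hA p ((mem_powersetCard.1 hs).1 hp), Ag_coeff, one_mul]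

lemma tot_Ag {p : ℕ} (hp : 0 < p) : tot (Ag K p) = wK K p := by
  unfold tot wK
  rw [Nat.card_congr (normEquiv K hp)]
  have e : {I : nonZeroDivisors (Ideal (𝓞 K)) // Ideal.absNorm (I : Ideal (𝓞 K)) = p} ≃
      Σ C : ClassGroup (𝓞 K), {I : nonZeroDivisors (Ideal (𝓞 K)) //
        Ideal.absNorm (I : Ideal (𝓞 K)) = p ∧ ClassGroup.mk0 I = C} :=
    { toFun := fun I => ⟨ClassGroup.mk0 I.1, I.1, I.2, rfl⟩
      invFun := fun x => ⟨x.2.1, x.2.2.1⟩
      left_inv := fun I => rfl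
      right_inv := by
        rintro ⟨C, I, h1, h2⟩
        subst h2
        rfl }
  rw [Nat.card_congr e]
  have : ∀ C : ClassGroup (𝓞 K), Finite {I : nonZeroDivisors (Ideal (𝓞 K)) //
        Ideal.absNorm (I : Ideal (𝓞 K)) = p ∧ ClassGroup.mk0 I = C} :=
    fun C => finite_norm' K p (fun I => ClassGroup.mk0 I = C)
  rw [Nat.card_sigma]
  push_cast
  exact sum_congr rfl fun C _ => Ag_coeff K p C

lemma l1_Ag {p : ℕ} (hp : 0 < p) : l1 (Ag K p) = wK K p := by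
  rw [l1_of_nonneg (Ag_nonneg K p), tot_Ag K hp]

/-- Cauchy-Schwarz: from the mean square to the `l1` norm -/
lemma l1_of_equi {y k : ℕ} {t : ℝ} (hE : Equi K y k t)
    (M : MonoidAlgebra ℝ (ClassGroup (𝓞 K)))
    (hM : ∀ C, M.coeff C = MA K k (PP y) C) :
    l1 (M - tot M • uu (ClassGroup (𝓞 K))) ≤ √t * tot M := by
  obtain ⟨h0, h1⟩ := hE
  set h : ℝ := (Fintype.card (ClassGroup (𝓞 K)) : ℝ) with hh
  have hnat : (Nat.card (ClassGroup (𝓞 K)) : ℝ) = h := by rw [Nat.card_eq_fintype_card]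
  rw [hnat] at h1
  have hpos : 0 < h := by rw [hh]; exact_mod_cast Fintype.card_pos
  set T : ℕ := ∑ C : ClassGroup (𝓞 K), cnt K y k C with hT
  have hTr : (0 : ℝ) < T := by exact_mod_cast h0
  have hcnt : ∀ C : ClassGroup (𝓞 K), MA K k (PP y) C = (cnt K y k C : ℝ) := fun C =>
    (cnt_eq K y k C).symm
  have htot : tot M = T := by
    unfold tot
    rw [hT]
    push_cast
    exact sum_congr rfl fun C _ => by rw [hM, hcnt]
  rw [htot]
  rw [div_le_iff₀ hpos] at h1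
  have h2 : t * (1 / h) ^ 2 * h = t / h := by field_simp
  rw [h2] at h1
  have h3 : (∑ C : ClassGroup (𝓞 K), |(cnt K y k C : ℝ) / (T : ℝ) - 1 / h|) ^ 2 ≤ t := by
    calc (∑ C : ClassGroup (𝓞 K), |(cnt K y k C : ℝ) / (T : ℝ) - 1 / h|) ^ 2
        ≤ (Finset.univ : Finset (ClassGroup (𝓞 K))).card *
          ∑ C : ClassGroup (𝓞 K), |(cnt K y k C : ℝ) / (T : ℝ) - 1 / h| ^ 2 :=
          sq_sum_le_card_mul_sum_sq
      _ = h * ∑ C : ClassGroup (𝓞 K), ((cnt K y k C : ℝ) / (T : ℝ) - 1 / h) ^ 2 := by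
          rw [Finset.card_univ, ← hh]
          congr 1
          exact sum_congr rfl fun C _ => sq_abs _
      _ ≤ h * (t / h) := by gcongr
      _ = t := by field_simp
  have h4 : ∑ C : ClassGroup (𝓞 K), |(cnt K y k C : ℝ) / (T : ℝ) - 1 / h| ≤ √t :=
    Real.le_sqrt_of_sq_le h3
  have h5 : l1 (M - (T : ℝ) • uu (ClassGroup (𝓞 K))) =
      (∑ C : ClassGroup (𝓞 K), |(cnt K y k C : ℝ) / (T : ℝ) - 1 / h|) * T := by
    unfold l1
    rw [sum_mul]
    refine sum_congr rfl fun C _ => ?_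
    rw [coeff_sub, Finsupp.sub_apply, coeff_smul, Finsupp.smul_apply, smul_eq_mul, uu_coeff, hM,
      hcnt, ← hh]
    have e : (cnt K y k C : ℝ) - (T : ℝ) * (1 / h) = ((cnt K y k C : ℝ) / (T : ℝ) - 1 / h) * T := by
      field_simp
    rw [e, abs_mul, abs_of_pos hTr]
  rw [h5]
  exact mul_le_mul_of_nonneg_right h4 hTr.le

end

end Pool.Agent.Q299.TPC
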