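import Mathlib

/-!
# A function on a finite abelian group which is uniform in mean square: its convolution square is
uniform at every point
-/

set_option autoImplicit false

namespace Pool.Agent.Q299.TPC

open Finset

variable {G : Type*} [CommGroup G] [Fintype G]

/-- reindexing by `g ↦ g⁻¹ * c` -/
lemma sum_inv_mul (c : G) (F : G → ℝ) : ∑ g : G, F (g⁻¹ * c) = ∑ g : G, F g := by
  refine Fintype.sum_equiv ((Equiv.inv G).trans (Equiv.mulRight c)) _ _ ?_
  intro g
  rfl

/-- the convolution square of a function of mean square deviation `δ` is uniform up to `δ` -/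
theorem conv_uniform (f : G → ℝ) (δ : ℝ) (h1 : ∑ g : G, f g = 1)
    (h2 : ∑ g : G, (f g - 1 / (Fintype.card G : ℝ)) ^ 2 ≤ δ) (c : G) :
    |∑ g : G, f g * f (g⁻¹ * c) - 1 / (Fintype.card G : ℝ)| ≤ δ := by
  set u : ℝ := 1 / (Fintype.card G : ℝ) with hu
  have hG : (0 : ℝ) < Fintype.card G := by exact_mod_cast Fintype.card_pos
  have hGu : (Fintype.card G : ℝ) * u = 1 := by rw [hu]; field_simp
  have e : ∑ g : G, (f g - u) * (f (g⁻¹ * c) - u) = ∑ g : G, f g * f (g⁻¹ * c) - u := by
    have e1 : ∀ g : G, (f g - u) * (f (g⁻¹ * c) - u) =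
        f g * f (g⁻¹ * c) - u * f g - u * f (g⁻¹ * c) + u * u := by
      intro g; ring
    rw [Finset.sum_congr rfl fun g _ => e1 g, Finset.sum_add_distrib, Finset.sum_sub_distrib,
      Finset.sum_sub_distrib, ← Finset.mul_sum, ← Finset.mul_sum, sum_inv_mul c f, h1,
      Finset.sum_const, Finset.card_univ, nsmul_eq_mul, ← mul_assoc, hGu]
    ring
  rw [← e]
  have h3 : |∑ g : G, (f g - u) * (f (g⁻¹ * c) - u)| ≤
      ∑ g : G, ((f g - u) ^ 2 + (f (g⁻¹ * c) - u) ^ 2) / 2 := by
    refine (Finset.abs_sum_le_sum_abs _ _).trans (Finset.sum_le_sum fun g _ => ?_)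
    rw [abs_le]
    constructor <;> nlinarith [sq_nonneg (f g - u + (f (g⁻¹ * c) - u)),
      sq_nonneg (f g - u - (f (g⁻¹ * c) - u))]
  refine h3.trans ?_
  rw [← Finset.sum_div, Finset.sum_add_distrib, sum_inv_mul c fun g => (f g - u) ^ 2]
  linarith

end Pool.Agent.Q299.TPC
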