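import Mathlib

/-!
# Elementary symmetric sums of weights between 0 and 2
-/

set_option autoImplicit false

namespace Pool.Agent.Q299.TPC

open Finset
open scoped Classical

/-- elementary symmetric sum -/
noncomputable def es (w : ℕ → ℝ) (U : Finset ℕ) (k : ℕ) : ℝ :=
  ∑ s ∈ U.powersetCard k, ∏ p ∈ s, w p

lemma es_zero (w : ℕ → ℝ) (U : Finset ℕ) : es w U 0 = 1 := by
  unfold es
  rw [powersetCard_zero, sum_singleton, prod_empty]

lemma es_nonneg {w : ℕ → ℝ} {U : Finset ℕ} (hw : ∀ p ∈ U, 0 ≤ w p) (k : ℕ) : 0 ≤ es w U k := by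
  unfold es
  refine sum_nonneg fun s hs => prod_nonneg fun p hp => hw p ?_
  exact (mem_powersetCard.1 hs).1 hp

/-- double counting -/
lemma sum_erase (w : ℕ → ℝ) (U : Finset ℕ) (k : ℕ) :
    ∑ p ∈ U, w p * es w (U.erase p) k = (k + 1 : ℝ) * es w U (k + 1) := by
  have h1 : (k + 1 : ℝ) * es w U (k + 1) =
      ∑ s ∈ U.powersetCard (k + 1), ∑ _p ∈ s, ∏ q ∈ s, w q := by
    unfold es
    rw [mul_sum]
    refine sum_congr rfl fun s hs => ?_
    rw [sum_const, (mem_powersetCard.1 hs).2, nsmul_eq_mul]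
    push_cast
    ring
  rw [h1]
  have h2 : ∑ s ∈ U.powersetCard (k + 1), ∑ _p ∈ s, ∏ q ∈ s, w q =
      ∑ p ∈ U, ∑ s ∈ (U.powersetCard (k + 1)).filter (fun s => p ∈ s), ∏ q ∈ s, w q := by
    refine sum_comm' ?_
    intro s p
    rw [mem_filter, mem_powersetCard]
    constructor
    · rintro ⟨⟨h1, h2⟩, h3⟩
      exact ⟨⟨⟨h1, h2⟩, h3⟩, h1 h3⟩
    · rintro ⟨⟨⟨h1, h2⟩, h3⟩, h4⟩
      exact ⟨⟨h1, h2⟩, h3⟩
  rw [h2]
  refine sum_congr rfl fun p hp => ?_
  unfold es
  rw [mul_sum]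
  refine sum_bij (fun s _ => insert p s) ?_ ?_ ?_ ?_
  · intro s hs
    rw [mem_powersetCard] at hs
    rw [mem_filter, mem_powersetCard]
    have hps : p ∉ s := fun h => (notMem_erase p U) (hs.1 h)
    refine ⟨⟨?_, ?_⟩, mem_insert_self _ _⟩
    · intro q hq
      rcases mem_insert.1 hq with rfl | hq
      · exact hp
      · exact mem_of_mem_erase (hs.1 hq)
    · rw [card_insert_of_notMem hps, hs.2]
  · intro s hs t ht hst
    rw [mem_powersetCard] at hs ht
    have hps : p ∉ s := fun h => (notMem_erase p U) (hs.1 h)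
    have hpt : p ∉ t := fun h => (notMem_erase p U) (ht.1 h)
    rw [← erase_insert hps, ← erase_insert hpt, hst]
  · intro s hs
    rw [mem_filter, mem_powersetCard] at hs
    refine ⟨s.erase p, ?_, insert_erase hs.2⟩
    rw [mem_powersetCard]
    refine ⟨erase_subset_erase p hs.1.1, ?_⟩
    rw [card_erase_of_mem hs.2, hs.1.2]
    omega
  · intro s hs
    rw [mem_powersetCard] at hs
    have hps : p ∉ s := fun h => (notMem_erase p U) (hs.1 h)
    rw [prod_insert hps]

/-- splitting off one element -/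
lemma es_erase (w : ℕ → ℝ) (U : Finset ℕ) {p : ℕ} (hp : p ∈ U) (k : ℕ) :
    es w U (k + 1) = es w (U.erase p) (k + 1) + w p * es w (U.erase p) k := by
  unfold es
  have hU : U = insert p (U.erase p) := (insert_erase hp).symm
  conv_lhs => rw [hU]
  rw [powersetCard_succ_insert (notMem_erase p U), sum_union]
  · congr 1
    rw [sum_image, mul_sum]
    · refine sum_congr rfl fun s hs => ?_
      rw [mem_powersetCard] at hs
      have hps : p ∉ s := fun h => (notMem_erase p U) (hs.1 h)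
      rw [prod_insert hps]
    · intro s hs t ht hst
      rw [mem_coe, mem_powersetCard] at hs ht
      have hps : p ∉ s := fun h => (notMem_erase p U) (hs.1 h)
      have hpt : p ∉ t := fun h => (notMem_erase p U) (ht.1 h)
      rw [← erase_insert hps, ← erase_insert hpt]
      exact congrArg (fun u => u.erase p) hst
  · rw [disjoint_left]
    intro s hs hs'
    rw [mem_powersetCard] at hs
    obtain ⟨t, _, rfl⟩ := mem_image.1 hs'
    exact (notMem_erase p U) (hs.1 (mem_insert_self _ _))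

/-- upper bound for the step -/
lemma es_succ_le {w : ℕ → ℝ} {U : Finset ℕ} (hw : ∀ p ∈ U, 0 ≤ w p) (k : ℕ) :
    (k + 1 : ℝ) * es w U (k + 1) ≤ (∑ p ∈ U, w p) * es w U k := by
  rw [← sum_erase, sum_mul]
  refine sum_le_sum fun p hp => mul_le_mul_of_nonneg_left ?_ (hw p hp)
  unfold es
  refine sum_le_sum_of_subset_of_nonneg (powersetCard_mono (erase_subset _ _)) ?_
  intro s hs _
  exact prod_nonneg fun q hq => hw q ((mem_powersetCard.1 hs).1 hq)

/-- lower bound for the step -/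
lemma le_es_succ {w : ℕ → ℝ} {U : Finset ℕ} (hw : ∀ p ∈ U, 0 ≤ w p ∧ w p ≤ 2) (k : ℕ) :
    ((∑ p ∈ U, w p) - 2 * k) * es w U k ≤ (k + 1 : ℝ) * es w U (k + 1) := by
  rcases k with _ | k
  · rw [← sum_erase]
    simp only [es_zero]
    rw [sum_congr rfl fun p _ => mul_one (w p)]
    simp
  · rw [← sum_erase w U (k + 1)]
    have h1 : ∀ p ∈ U, w p * es w (U.erase p) (k + 1) =
        w p * es w U (k + 1) - w p * (w p * es w (U.erase p) k) := by
      intro p hp
      rw [es_erase w U hp k]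
      ring
    rw [sum_congr rfl h1, sum_sub_distrib, ← sum_mul]
    have h2 : ∑ p ∈ U, w p * (w p * es w (U.erase p) k) ≤
        2 * ((k + 1 : ℝ) * es w U (k + 1)) := by
      rw [← sum_erase, mul_sum]
      refine sum_le_sum fun p hp => ?_
      have h3 : 0 ≤ w p * es w (U.erase p) k :=
        mul_nonneg (hw p hp).1 (es_nonneg (fun q hq => (hw q (mem_of_mem_erase hq)).1) k)
      exact mul_le_mul_of_nonneg_right (hw p hp).2 h3
    push_cast
    nlinarith

/-- **comparison of the sums over a subset and over the whole set** -/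
theorem es_ratio {w : ℕ → ℝ} {A U : Finset ℕ} (hAU : A ⊆ U) (hw : ∀ p ∈ U, 0 ≤ w p ∧ w p ≤ 2)
    (k : ℕ) (hA : 2 * (k : ℝ) ≤ ∑ p ∈ A, w p) :
    ((∑ p ∈ A, w p) - 2 * k) ^ k * es w U k ≤ (∑ p ∈ U, w p) ^ k * es w A k := by
  have hwA : ∀ p ∈ A, 0 ≤ w p ∧ w p ≤ 2 := fun p hp => hw p (hAU hp)
  have hWU : 0 ≤ ∑ p ∈ U, w p := sum_nonneg fun p hp => (hw p hp).1
  have key : ∀ j : ℕ, j ≤ k →
      ((∑ p ∈ A, w p) - 2 * k) ^ j * es w U j ≤ (∑ p ∈ U, w p) ^ j * es w A j := by
    intro j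
    induction j with
    | zero => intro _; simp [es_zero]
    | succ j ih =>
      intro hj
      have ihj := ih (by omega)
      have h0 : 0 ≤ (∑ p ∈ A, w p) - 2 * k := by linarith
      have h1 := es_succ_le (fun p hp => (hw p hp).1) j
      have h2 := le_es_succ hwA j
      have hjk : (j : ℝ) ≤ k := by exact_mod_cast (by omega : j ≤ k)
      have hesA := es_nonneg (fun p hp => (hwA p hp).1) j
      have hesU := es_nonneg (fun p hp => (hw p hp).1) j
      have h3 : ((∑ p ∈ A, w p) - 2 * k) * es w A j ≤ (j + 1 : ℝ) * es w A (j + 1) := by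
        refine le_trans ?_ h2
        apply mul_le_mul_of_nonneg_right _ hesA
        linarith
      have hj1 : (0 : ℝ) < j + 1 := by positivity
      refine le_of_mul_le_mul_left ?_ hj1
      calc (j + 1 : ℝ) * (((∑ p ∈ A, w p) - 2 * k) ^ (j + 1) * es w U (j + 1))
          = ((∑ p ∈ A, w p) - 2 * k) ^ (j + 1) * ((j + 1 : ℝ) * es w U (j + 1)) := by ring
        _ ≤ ((∑ p ∈ A, w p) - 2 * k) ^ (j + 1) * ((∑ p ∈ U, w p) * es w U j) :=
            mul_le_mul_of_nonneg_left h1 (by positivity)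
        _ = ((∑ p ∈ A, w p) - 2 * k) * (∑ p ∈ U, w p) *
              (((∑ p ∈ A, w p) - 2 * k) ^ j * es w U j) := by ring
        _ ≤ ((∑ p ∈ A, w p) - 2 * k) * (∑ p ∈ U, w p) *
              ((∑ p ∈ U, w p) ^ j * es w A j) :=
            mul_le_mul_of_nonneg_left ihj (by positivity)
        _ = (∑ p ∈ U, w p) ^ (j + 1) * (((∑ p ∈ A, w p) - 2 * k) * es w A j) := by ring
        _ ≤ (∑ p ∈ U, w p) ^ (j + 1) * ((j + 1 : ℝ) * es w A (j + 1)) :=
            mul_le_mul_of_nonneg_left h3 (by positivity)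
        _ = (j + 1 : ℝ) * ((∑ p ∈ U, w p) ^ (j + 1) * es w A (j + 1)) := by ring
  exact key k le_rfl

end Pool.Agent.Q299.TPC
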