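import Pool.Agent.Q299.TPC.GA
import Pool.Agent.Q299.TPC.Esym

/-!
# Elementary symmetric sums in the group algebra, powers, and products of tuples
-/

set_option autoImplicit false

namespace Pool.Agent.Q299.TPC

open Finset MonoidAlgebra
open scoped Classical

section

variable {R : Type} [CommRing R]

/-- elementary symmetric sum -/
noncomputable def er (x : ℕ → R) (U : Finset ℕ) (k : ℕ) : R :=
  ∑ s ∈ U.powersetCard k, ∏ p ∈ s, x p

lemma er_zero (x : ℕ → R) (U : Finset ℕ) : er x U 0 = 1 := by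
  unfold er
  rw [powersetCard_zero, sum_singleton, prod_empty]

lemma er_sum_erase (w : ℕ → R) (U : Finset ℕ) (k : ℕ) :
    ∑ p ∈ U, w p * er w (U.erase p) k = (k + 1 : R) * er w U (k + 1) := by
  have h1 : (k + 1 : R) * er w U (k + 1) =
      ∑ s ∈ U.powersetCard (k + 1), ∑ _p ∈ s, ∏ q ∈ s, w q := by
    unfold er
    rw [mul_sum]
    refine sum_congr rfl fun s hs => ?_
    rw [sum_const, (mem_powersetCard.1 hs).2, nsmul_eq_mul]
    push_cast
    ring
  rw [h1]
  have h2 : ∑ s ∈ U.powersetCard (k + 1), ∑ _p ∈ s, ∏ q ∈ s, w q =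
      ∑ p ∈ U, ∑ s ∈ (U.powersetCard (k + 1)).filter (fun s => p ∈ s), ∏ q ∈ s, w q := by
    refine sum_comm' ?_
    intro s p
    rw [mem_filter, mem_powersetCard]
    constructor
    · rintro ⟨⟨h1, h2⟩, h3⟩
      exact ⟨⟨⟨h1, h2⟩, h3⟩, h1 h3⟩
    · rintro ⟨⟨⟨h1, h2⟩, h3⟩, h4⟩
      exact ⟨⟨h1, h2⟩, h3⟩
  rw [h2]
  refine sum_congr rfl fun p hp => ?_
  unfold er
  rw [mul_sum]
  refine sum_bij (fun s _ => insert p s) ?_ ?_ ?_ ?_
  · intro s hs
    rw [mem_powersetCard] at hs
    rw [mem_filter, mem_powersetCard]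
    have hps : p ∉ s := fun h => (notMem_erase p U) (hs.1 h)
    refine ⟨⟨?_, ?_⟩, mem_insert_self _ _⟩
    · intro q hq
      rcases mem_insert.1 hq with rfl | hq
      · exact hp
      · exact mem_of_mem_erase (hs.1 hq)
    · rw [card_insert_of_notMem hps, hs.2]
  · intro s hs t ht hst
    rw [mem_powersetCard] at hs ht
    have hps : p ∉ s := fun h => (notMem_erase p U) (hs.1 h)
    have hpt : p ∉ t := fun h => (notMem_erase p U) (ht.1 h)
    rw [← erase_insert hps, ← erase_insert hpt, hst]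
  · intro s hs
    rw [mem_filter, mem_powersetCard] at hs
    refine ⟨s.erase p, ?_, insert_erase hs.2⟩
    rw [mem_powersetCard]
    refine ⟨erase_subset_erase p hs.1.1, ?_⟩
    rw [card_erase_of_mem hs.2, hs.1.2]
    omega
  · intro s hs
    rw [mem_powersetCard] at hs
    have hps : p ∉ s := fun h => (notMem_erase p U) (hs.1 h)
    rw [prod_insert hps]

lemma er_erase (w : ℕ → R) (U : Finset ℕ) {p : ℕ} (hp : p ∈ U) (k : ℕ) :
    er w U (k + 1) = er w (U.erase p) (k + 1) + w p * er w (U.erase p) k := by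
  unfold er
  have hU : U = insert p (U.erase p) := (insert_erase hp).symm
  conv_lhs => rw [hU]
  rw [powersetCard_succ_insert (notMem_erase p U), sum_union]
  · congr 1
    rw [sum_image, mul_sum]
    · refine sum_congr rfl fun s hs => ?_
      rw [mem_powersetCard] at hs
      have hps : p ∉ s := fun h => (notMem_erase p U) (hs.1 h)
      rw [prod_insert hps]
    · intro s hs t ht hst
      rw [mem_coe, mem_powersetCard] at hs ht
      have hps : p ∉ s := fun h => (notMem_erase p U) (hs.1 h)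
      have hpt : p ∉ t := fun h => (notMem_erase p U) (ht.1 h)
      rw [← erase_insert hps, ← erase_insert hpt]
      exact congrArg (fun u => u.erase p) hst
  · rw [disjoint_left]
    intro s hs hs'
    rw [mem_powersetCard] at hs
    obtain ⟨t, _, rfl⟩ := mem_image.1 hs'
    exact (notMem_erase p U) (hs.1 (mem_insert_self _ _))

/-- the defect of the product of the sum with an elementary symmetric sum -/
lemma er_step (x : ℕ → R) (U : Finset ℕ) (k : ℕ) :
    (∑ p ∈ U, x p) * er x U (k + 1) - ((k + 1 : ℕ) + 1 : R) * er x U (k + 1 + 1) =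
      ∑ p ∈ U, x p * (x p * er x (U.erase p) k) := by
  rw [← er_sum_erase, sum_mul, ← sum_sub_distrib]
  refine sum_congr rfl fun p hp => ?_
  rw [er_erase x U hp k]
  ring

end

section

variable {G : Type} [CommGroup G] [Fintype G]

lemma l1_prod_le (x : ℕ → MonoidAlgebra ℝ G) (w : ℕ → ℝ) (s : Finset ℕ)
    (h : ∀ p ∈ s, l1 (x p) ≤ w p) : l1 (∏ p ∈ s, x p) ≤ ∏ p ∈ s, w p := by
  induction s using Finset.induction_on with
  | empty =>
    rw [prod_empty, prod_empty, l1_of_nonneg one_coeff_nonneg, tot_one]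
  | insert p s hp ih =>
    rw [prod_insert hp, prod_insert hp]
    refine (l1_mul _ _).trans ?_
    apply mul_le_mul (h p (mem_insert_self _ _)) (ih fun q hq => h q (mem_insert_of_mem hq))
      (l1_nonneg _)
    exact (l1_nonneg _).trans (h p (mem_insert_self _ _))

lemma l1_er_le (x : ℕ → MonoidAlgebra ℝ G) (w : ℕ → ℝ) (U : Finset ℕ) (k : ℕ)
    (h : ∀ p ∈ U, l1 (x p) ≤ w p) : l1 (er x U k) ≤ es w U k := by
  unfold er es
  refine (l1_sum _ _).trans (sum_le_sum fun s hs => ?_)
  exact l1_prod_le x w s fun p hp => h p ((mem_powersetCard.1 hs).1 hp)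

lemma fact_es_le {w : ℕ → ℝ} {U : Finset ℕ} (hw : ∀ p ∈ U, 0 ≤ w p) (k : ℕ) :
    (k.factorial : ℝ) * es w U k ≤ (∑ p ∈ U, w p) ^ k := by
  have hW : 0 ≤ ∑ p ∈ U, w p := sum_nonneg hw
  induction k with
  | zero => simp [es_zero]
  | succ j ih =>
    have h2 := es_succ_le hw j
    rw [Nat.factorial_succ]
    push_cast
    calc ((j : ℝ) + 1) * (j.factorial : ℝ) * es w U (j + 1)
        = (j.factorial : ℝ) * (((j : ℝ) + 1) * es w U (j + 1)) := by ring
      _ ≤ (j.factorial : ℝ) * ((∑ p ∈ U, w p) * es w U j) := by gcongr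
      _ = (∑ p ∈ U, w p) * ((j.factorial : ℝ) * es w U j) := by ring
      _ ≤ (∑ p ∈ U, w p) * (∑ p ∈ U, w p) ^ j := by gcongr
      _ = (∑ p ∈ U, w p) ^ (j + 1) := by ring

/-- **powers of a sum against elementary symmetric sums** -/
theorem l1_pow_sub (x : ℕ → MonoidAlgebra ℝ G) (w : ℕ → ℝ) (U : Finset ℕ)
    (h : ∀ p ∈ U, l1 (x p) ≤ w p) (hw : ∀ p ∈ U, 0 ≤ w p ∧ w p ≤ 2) (k : ℕ) :
    l1 ((∑ p ∈ U, x p) ^ k - (k.factorial : ℝ) • er x U k) * (∑ p ∈ U, w p) ≤
      (k : ℝ) * (k - 1) * (∑ p ∈ U, w p) ^ k := by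
  set W := ∑ p ∈ U, w p with hWdef
  have hW : 0 ≤ W := sum_nonneg fun p hp => (hw p hp).1
  set S := ∑ p ∈ U, x p with hS
  have hSl : l1 S ≤ W := (l1_sum _ _).trans (sum_le_sum h)
  induction k with
  | zero =>
    have : S ^ 0 - ((Nat.factorial 0 : ℕ) : ℝ) • er x U 0 = 0 := by
      rw [er_zero, pow_zero, Nat.factorial_zero, Nat.cast_one, one_smul, sub_self]
    rw [this, l1_zero]
    simp
  | succ k ih =>
    have hdec : S ^ (k + 1) - (((k + 1).factorial : ℕ) : ℝ) • er x U (k + 1) =
        S * (S ^ k - (k.factorial : ℝ) • er x U k) +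
          (k.factorial : ℝ) • (S * er x U k - ((k : MonoidAlgebra ℝ G) + 1) * er x U (k + 1)) := by
      rw [Nat.factorial_succ]
      have e1 : (((k + 1) * k.factorial : ℕ) : ℝ) • er x U (k + 1) =
          (k.factorial : ℝ) • (((k : MonoidAlgebra ℝ G) + 1) * er x U (k + 1)) := by
        have e2 : ((k : MonoidAlgebra ℝ G) + 1) * er x U (k + 1) =
            ((k + 1 : ℕ) : ℝ) • er x U (k + 1) := by
          rw [Nat.cast_smul_eq_nsmul, nsmul_eq_mul]
          push_cast
          ring
        rw [e2, smul_smul]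
        push_cast
        congr 1
        ring
      rw [e1, mul_sub, smul_sub, mul_smul_comm, ← pow_succ']
      abel
    rw [hdec]
    have hdef : l1 (S * er x U k - ((k : MonoidAlgebra ℝ G) + 1) * er x U (k + 1)) ≤
        2 * (k * es w U k) := by
      rcases k with _ | k
      · have : S * er x U 0 - (((0 : ℕ) : MonoidAlgebra ℝ G) + 1) * er x U (0 + 1) = 0 := by
          rw [← er_sum_erase]
          simp only [er_zero, mul_one]
          rw [hS, sub_self]
        rw [this, l1_zero]
        simp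
      · rw [er_step x U k]
        refine (l1_sum _ _).trans ?_
        have h2 : ∑ p ∈ U, w p * (w p * es w (U.erase p) k) ≤
            2 * (((k + 1 : ℕ) : ℝ) * es w U (k + 1)) := by
          push_cast
          rw [← sum_erase, mul_sum]
          refine sum_le_sum fun p hp => ?_
          have h3 : 0 ≤ w p * es w (U.erase p) k :=
            mul_nonneg (hw p hp).1 (es_nonneg (fun q hq => (hw q (mem_of_mem_erase hq)).1) k)
          exact mul_le_mul_of_nonneg_right (hw p hp).2 h3
        refine le_trans (sum_le_sum fun p hp => ?_) h2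
        refine (l1_mul _ _).trans ?_
        apply mul_le_mul (h p hp) _ (l1_nonneg _) (hw p hp).1
        refine (l1_mul _ _).trans ?_
        apply mul_le_mul (h p hp) _ (l1_nonneg _) (hw p hp).1
        exact l1_er_le x w (U.erase p) k fun q hq => h q (mem_of_mem_erase hq)
    have h4 : l1 (S * (S ^ k - (k.factorial : ℝ) • er x U k) +
          (k.factorial : ℝ) • (S * er x U k - ((k : MonoidAlgebra ℝ G) + 1) * er x U (k + 1))) ≤
        W * l1 (S ^ k - (k.factorial : ℝ) • er x U k) + 2 * k * W ^ k := by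
      refine (l1_add _ _).trans (add_le_add ?_ ?_)
      · exact (l1_mul _ _).trans (mul_le_mul_of_nonneg_right hSl (l1_nonneg _))
      · rw [l1_smul, abs_of_nonneg (by positivity)]
        have h5 := fact_es_le (fun p hp => (hw p hp).1) k
        have h6 : (0 : ℝ) ≤ k := Nat.cast_nonneg _
        calc (k.factorial : ℝ) * l1 (S * er x U k - ((k : MonoidAlgebra ℝ G) + 1) * er x U (k + 1))
            ≤ (k.factorial : ℝ) * (2 * (k * es w U k)) := by gcongr
          _ = 2 * k * ((k.factorial : ℝ) * es w U k) := by ring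
          _ ≤ 2 * k * W ^ k := by gcongr
    push_cast
    calc _ ≤ (W * l1 (S ^ k - (k.factorial : ℝ) • er x U k) + 2 * k * W ^ k) * W :=
          mul_le_mul_of_nonneg_right h4 hW
      _ = W * (l1 (S ^ k - (k.factorial : ℝ) • er x U k) * W) + 2 * k * W ^ (k + 1) := by ring
      _ ≤ W * ((k : ℝ) * (k - 1) * W ^ k) + 2 * k * W ^ (k + 1) := by gcongr
      _ = _ := by ring

/-- **extension to a larger set of steps** -/
theorem l1_add_pow (a b : MonoidAlgebra ℝ G) (ha : ∀ x, 0 ≤ a.coeff x) (hb : ∀ x, 0 ≤ b.coeff x)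
    (k m : ℕ) (δ : ℝ) (hδ : 0 ≤ δ) (h : l1 (a ^ k - (tot a ^ k) • uu G) ≤ δ * tot a ^ k) :
    l1 ((a + b) ^ m - ((tot a + tot b) ^ m) • uu G) ≤
      δ * (tot a + tot b) ^ m + 2 * (2 ^ k * (tot a / 2 + tot b) ^ m) := by
  have hA : 0 ≤ tot a := by rw [← l1_of_nonneg ha]; exact l1_nonneg a
  have hB : 0 ≤ tot b := by rw [← l1_of_nonneg hb]; exact l1_nonneg b
  have e1 : (a + b) ^ m - ((tot a + tot b) ^ m) • uu G =
      ∑ j ∈ range (m + 1), ((m.choose j : ℕ) : ℝ) •
        (a ^ j * b ^ (m - j) - (tot a ^ j * tot b ^ (m - j)) • uu G) := by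
    rw [add_pow, add_pow, sum_smul, ← sum_sub_distrib]
    refine sum_congr rfl fun j _ => ?_
    rw [smul_sub, smul_smul]
    congr 1
    · rw [Nat.cast_smul_eq_nsmul, nsmul_eq_mul]
      ring
    · congr 1
      ring
  rw [e1]
  refine (l1_sum _ _).trans ?_
  have hterm : ∀ j ∈ range (m + 1), l1 (((m.choose j : ℕ) : ℝ) •
        (a ^ j * b ^ (m - j) - (tot a ^ j * tot b ^ (m - j)) • uu G)) ≤
      δ * (tot a ^ j * tot b ^ (m - j) * (m.choose j : ℝ)) +
        2 * (2 ^ k * ((tot a / 2) ^ j * tot b ^ (m - j) * (m.choose j : ℝ))) := by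
    intro j _
    rw [l1_smul, abs_of_nonneg (by positivity)]
    have hpj : l1 (a ^ j) = tot a ^ j := by
      rw [l1_of_nonneg (pow_coeff_nonneg ha j), tot_pow]
    have hpb : l1 (b ^ (m - j)) = tot b ^ (m - j) := by
      rw [l1_of_nonneg (pow_coeff_nonneg hb _), tot_pow]
    rcases le_or_gt k j with hkj | hkj
    · have e2 : a ^ j * b ^ (m - j) - (tot a ^ j * tot b ^ (m - j)) • uu G =
          (a ^ k - (tot a ^ k) • uu G) * (a ^ (j - k) * b ^ (m - j)) := by
        have e3 : uu G * (a ^ (j - k) * b ^ (m - j)) =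
            (tot a ^ (j - k) * tot b ^ (m - j)) • uu G := by
          rw [mul_comm, mul_uu, tot_mul, tot_pow, tot_pow]
        have hj : j = k + (j - k) := by omega
        rw [sub_mul, smul_mul_assoc, e3, smul_smul, ← mul_assoc, ← pow_add, ← hj]
        congr 2
        rw [← mul_assoc, ← pow_add, ← hj]
      have h3 : l1 (a ^ j * b ^ (m - j) - (tot a ^ j * tot b ^ (m - j)) • uu G) ≤
          δ * (tot a ^ j * tot b ^ (m - j)) := by
        rw [e2]
        refine (l1_mul _ _).trans ?_
        have h4 : l1 (a ^ (j - k) * b ^ (m - j)) ≤ tot a ^ (j - k) * tot b ^ (m - j) := by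
          rw [l1_of_nonneg (mul_coeff_nonneg (pow_coeff_nonneg ha _) (pow_coeff_nonneg hb _)),
            tot_mul, tot_pow, tot_pow]
        calc l1 (a ^ k - (tot a ^ k) • uu G) * l1 (a ^ (j - k) * b ^ (m - j))
            ≤ (δ * tot a ^ k) * (tot a ^ (j - k) * tot b ^ (m - j)) :=
              mul_le_mul h h4 (l1_nonneg _) (by positivity)
          _ = δ * (tot a ^ (k + (j - k)) * tot b ^ (m - j)) := by rw [pow_add]; ring
          _ = _ := by rw [show k + (j - k) = j by omega]
      have h5 : 0 ≤ 2 * (2 ^ k * ((tot a / 2) ^ j * tot b ^ (m - j) * (m.choose j : ℝ))) := by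
        positivity
      calc (m.choose j : ℝ) * l1 (a ^ j * b ^ (m - j) - (tot a ^ j * tot b ^ (m - j)) • uu G)
          ≤ (m.choose j : ℝ) * (δ * (tot a ^ j * tot b ^ (m - j))) := by gcongr
        _ = δ * (tot a ^ j * tot b ^ (m - j) * (m.choose j : ℝ)) := by ring
        _ ≤ _ := by linarith
    · have h3 : l1 (a ^ j * b ^ (m - j) - (tot a ^ j * tot b ^ (m - j)) • uu G) ≤
          2 * (tot a ^ j * tot b ^ (m - j)) := by
        refine (l1_sub _ _).trans ?_
        rw [l1_smul, l1_uu, abs_of_nonneg (by positivity),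
          l1_of_nonneg (mul_coeff_nonneg (pow_coeff_nonneg ha _) (pow_coeff_nonneg hb _)),
          tot_mul, tot_pow, tot_pow]
        linarith
      have h4 : tot a ^ j ≤ 2 ^ k * (tot a / 2) ^ j := by
        rw [div_pow, mul_div_assoc', le_div_iff₀ (by positivity), mul_comm]
        apply mul_le_mul_of_nonneg_right _ (by positivity)
        exact pow_le_pow_right₀ (by norm_num) hkj.le
      have h5 : 0 ≤ δ * (tot a ^ j * tot b ^ (m - j) * (m.choose j : ℝ)) := by positivity
      calc (m.choose j : ℝ) * l1 (a ^ j * b ^ (m - j) - (tot a ^ j * tot b ^ (m - j)) • uu G)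
          ≤ (m.choose j : ℝ) * (2 * (tot a ^ j * tot b ^ (m - j))) := by gcongr
        _ ≤ (m.choose j : ℝ) * (2 * ((2 ^ k * (tot a / 2) ^ j) * tot b ^ (m - j))) := by gcongr
        _ = 2 * (2 ^ k * ((tot a / 2) ^ j * tot b ^ (m - j) * (m.choose j : ℝ))) := by ring
        _ ≤ _ := by linarith
  refine (sum_le_sum hterm).trans (le_of_eq ?_)
  rw [sum_add_distrib, ← mul_sum, ← mul_sum, ← mul_sum, add_pow, add_pow]

/-- the coefficients of a power of a sum of group elements count tuples -/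
theorem pow_coeff_count {ι : Type} (Q : Finset ι) (c : ι → G) (m : ℕ) (x : G) :
    ((∑ i ∈ Q, single (c i) (1 : ℝ)) ^ m).coeff x =
      (((Fintype.piFinset (fun _ : Fin m => Q)).filter (fun f => ∏ i, c (f i) = x)).card : ℝ) := by
  have h1 : (∑ i ∈ Q, single (c i) (1 : ℝ)) ^ m =
      ∑ f ∈ Fintype.piFinset (fun _ : Fin m => Q), single (∏ i, c (f i)) (1 : ℝ) := by
    rw [← Fin.prod_const, Finset.prod_univ_sum]
    refine sum_congr rfl fun f _ => ?_
    have : ∀ s : Finset (Fin m), ∏ i ∈ s, single (c (f i)) (1 : ℝ) =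
        single (∏ i ∈ s, c (f i)) (1 : ℝ) := by
      intro s
      induction s using Finset.induction_on with
      | empty => rw [prod_empty, prod_empty, one_def]
      | insert i s hi ih => rw [prod_insert hi, prod_insert hi, ih, single_mul_single, mul_one]
    exact this univ
  rw [h1, coeff_sum, Finsupp.finsetSum_apply]
  simp only [coeff_single, Finsupp.single_apply]
  rw [← sum_filter, sum_const, nsmul_eq_mul, mul_one]

end

end Pool.Agent.Q299.TPC
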