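import Pool.Agent.H38R2.CG3.Defs
import Pool.Agent.Q299.TPC.Conv

/-!
# Pairs of ideals whose norms are products of `k` primes of `(y, 2y]`
-/

set_option autoImplicit false

namespace Pool.Agent.Q299.TPC

open Finset Filter NumberField Pool.Agent.H38R2.CG Pool.Agent.H38R2.CG3
open scoped Classical

/-- The ideals whose norm is a product of `k` different primes of `(y, 2y]`. -/
def Fam (K : Type) [Field K] [NumberField K] (y k : ℕ) : Set (nonZeroDivisors (Ideal (𝓞 K))) :=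
  {I | ∃ s : Finset ℕ, (∀ p ∈ s, p.Prime ∧ y < p ∧ p ≤ 2 * y) ∧ s.card = k ∧
    Ideal.absNorm (I : Ideal (𝓞 K)) = ∏ p ∈ s, p}

/-- The number of ordered pairs `(I, J)` of such ideals for which `I J` has the class `C`. -/
noncomputable def pairs (K : Type) [Field K] [NumberField K] (y k : ℕ)
    (C : ClassGroup (𝓞 K)) : ℕ :=
  Nat.card {q : nonZeroDivisors (Ideal (𝓞 K)) × nonZeroDivisors (Ideal (𝓞 K)) //
    q.1 ∈ Fam K y k ∧ q.2 ∈ Fam K y k ∧ ClassGroup.mk0 (q.1 * q.2) = C}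

/-- The number of all ordered pairs of such ideals. -/
noncomputable def allPairs (K : Type) [Field K] [NumberField K] (y k : ℕ) : ℕ :=
  Nat.card {q : nonZeroDivisors (Ideal (𝓞 K)) × nonZeroDivisors (Ideal (𝓞 K)) //
    q.1 ∈ Fam K y k ∧ q.2 ∈ Fam K y k}

variable (K : Type) [Field K] [NumberField K] (y k : ℕ)

lemma mem_PP_iff {p : ℕ} : p ∈ PP y ↔ (p.Prime ∧ y < p ∧ p ≤ 2 * y) := by
  unfold PP
  rw [mem_filter, mem_Ioc]
  tauto

lemma finite_norm (n : ℕ) (Q : nonZeroDivisors (Ideal (𝓞 K)) → Prop) :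
    Finite {I : nonZeroDivisors (Ideal (𝓞 K)) //
      Ideal.absNorm (I : Ideal (𝓞 K)) = n ∧ Q I} := by
  refine Set.Finite.to_subtype ?_
  exact (Ideal.finite_setOfPred_absNorm_le₀ (S := 𝓞 K) n).subset fun I hI => hI.1.le

/-- members of the family with a given class -/
abbrev FamC (C : ClassGroup (𝓞 K)) : Type :=
  {I : nonZeroDivisors (Ideal (𝓞 K)) // I ∈ Fam K y k ∧ ClassGroup.mk0 I = C}

/-- the family, split by the set of primes -/
noncomputable def famEquiv (C : ClassGroup (𝓞 K)) :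
    (Σ s : {s // s ∈ (PP y).powersetCard k}, {I : nonZeroDivisors (Ideal (𝓞 K)) //
      Ideal.absNorm (I : Ideal (𝓞 K)) = prodS s.1 ∧ ClassGroup.mk0 I = C}) ≃ FamC K y k C := by
  refine Equiv.ofBijective (fun x => ⟨x.2.1, ?_⟩) ⟨?_, ?_⟩
  · obtain ⟨⟨s, hs⟩, I, hI1, hI2⟩ := x
    rw [mem_powersetCard] at hs
    exact ⟨⟨s, fun p hp => (mem_PP_iff y).1 (hs.1 hp), hs.2, hI1⟩, hI2⟩
  · rintro ⟨⟨s, hs⟩, I, hI1, hI2⟩ ⟨⟨t, ht⟩, J, hJ1, hJ2⟩ hIJ
    have e : I = J := congrArg Subtype.val hIJ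
    subst e
    rw [mem_powersetCard] at hs ht
    have hst : s = t := by
      have h1 : prodS s = prodS t := hI1.symm.trans hJ1
      unfold prodS at h1
      rw [← Nat.primeFactors_prod (s := s) fun p hp => ((mem_PP_iff y).1 (hs.1 hp)).1,
        ← Nat.primeFactors_prod (s := t) fun p hp => ((mem_PP_iff y).1 (ht.1 hp)).1, h1]
    subst hst
    rfl
  · rintro ⟨I, ⟨s, hs1, hs2, hs3⟩, hI⟩
    refine ⟨⟨⟨s, ?_⟩, I, hs3, hI⟩, rfl⟩
    rw [mem_powersetCard]
    exact ⟨fun p hp => (mem_PP_iff y).2 (hs1 p hp), hs2⟩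

instance (s : Finset ℕ) (C : ClassGroup (𝓞 K)) :
    Finite {I : nonZeroDivisors (Ideal (𝓞 K)) //
      Ideal.absNorm (I : Ideal (𝓞 K)) = prodS s ∧ ClassGroup.mk0 I = C} :=
  finite_norm K _ _

instance finite_FamC (C : ClassGroup (𝓞 K)) : Finite (FamC K y k C) :=
  Finite.of_equiv _ (famEquiv K y k C)

lemma cnt_eq_card (C : ClassGroup (𝓞 K)) : cnt K y k C = Nat.card (FamC K y k C) := by
  rw [← Nat.card_congr (famEquiv K y k C), Nat.card_sigma]
  unfold cnt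
  rw [← Finset.sum_coe_sort]

/-- pairs, split by the class of the first member -/
noncomputable def pairEquiv (C : ClassGroup (𝓞 K)) :
    (Σ C' : ClassGroup (𝓞 K), FamC K y k C' × FamC K y k (C'⁻¹ * C)) ≃
    {q : nonZeroDivisors (Ideal (𝓞 K)) × nonZeroDivisors (Ideal (𝓞 K)) //
      q.1 ∈ Fam K y k ∧ q.2 ∈ Fam K y k ∧ ClassGroup.mk0 (q.1 * q.2) = C} := by
  refine Equiv.ofBijective (fun x => ⟨(x.2.1.1, x.2.2.1), x.2.1.2.1, x.2.2.2.1, ?_⟩) ⟨?_, ?_⟩
  · rw [map_mul, x.2.1.2.2, x.2.2.2.2]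
    group
  · rintro ⟨C1, ⟨I, hI⟩, ⟨J, hJ⟩⟩ ⟨C2, ⟨I', hI'⟩, ⟨J', hJ'⟩⟩ h
    have e : (I, J) = (I', J') := congrArg Subtype.val h
    rw [Prod.mk.injEq] at e
    obtain ⟨rfl, rfl⟩ := e
    obtain rfl : C1 = C2 := hI.2.symm.trans hI'.2
    rfl
  · rintro ⟨⟨I, J⟩, hI, hJ, hC⟩
    refine ⟨⟨ClassGroup.mk0 I, ⟨I, hI, rfl⟩, ⟨J, hJ, ?_⟩⟩, rfl⟩
    rw [← hC, map_mul]
    group

lemma pairs_eq (C : ClassGroup (𝓞 K)) :
    pairs K y k C = ∑ C' : ClassGroup (𝓞 K), cnt K y k C' * cnt K y k (C'⁻¹ * C) := by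
  unfold pairs
  rw [← Nat.card_congr (pairEquiv K y k C), Nat.card_sigma]
  refine Finset.sum_congr rfl fun C' _ => ?_
  rw [Nat.card_prod, cnt_eq_card, cnt_eq_card]

instance finite_pairs (C : ClassGroup (𝓞 K)) :
    Finite {q : nonZeroDivisors (Ideal (𝓞 K)) × nonZeroDivisors (Ideal (𝓞 K)) //
      q.1 ∈ Fam K y k ∧ q.2 ∈ Fam K y k ∧ ClassGroup.mk0 (q.1 * q.2) = C} :=
  Finite.of_equiv _ (pairEquiv K y k C)

lemma allPairs_eq_sum : allPairs K y k = ∑ C : ClassGroup (𝓞 K), pairs K y k C := by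
  unfold allPairs pairs
  rw [← Nat.card_sigma]
  refine Nat.card_congr ?_
  refine Equiv.ofBijective (fun q => ⟨ClassGroup.mk0 (q.1.1 * q.1.2), q.1, q.2.1, q.2.2, rfl⟩)
    ⟨?_, ?_⟩
  · rintro ⟨q, hq⟩ ⟨r, hr⟩ h
    rw [Sigma.mk.injEq] at h
    obtain ⟨h1, h2⟩ := h
    have : q = r := by
      have key : ∀ (C1 C2 : ClassGroup (𝓞 K)) (_ : C1 = C2)
          (u : {q : nonZeroDivisors (Ideal (𝓞 K)) × nonZeroDivisors (Ideal (𝓞 K)) //
            q.1 ∈ Fam K y k ∧ q.2 ∈ Fam K y k ∧ ClassGroup.mk0 (q.1 * q.2) = C1})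
          (v : {q : nonZeroDivisors (Ideal (𝓞 K)) × nonZeroDivisors (Ideal (𝓞 K)) //
            q.1 ∈ Fam K y k ∧ q.2 ∈ Fam K y k ∧ ClassGroup.mk0 (q.1 * q.2) = C2}),
          HEq u v → u.1 = v.1 := by
        rintro C1 C2 rfl u v huv
        rw [eq_of_heq huv]
      exact key _ _ h1 _ _ h2
    subst this
    rfl
  · rintro ⟨C, q, h1, h2, rfl⟩
    exact ⟨⟨q, h1, h2⟩, rfl⟩

lemma allPairs_eq : allPairs K y k = (∑ C : ClassGroup (𝓞 K), cnt K y k C) ^ 2 := by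
  rw [allPairs_eq_sum]
  simp only [pairs_eq]
  rw [Finset.sum_comm, sq, Finset.sum_mul]
  refine Finset.sum_congr rfl fun C' _ => ?_
  rw [← Finset.mul_sum]
  congr 1
  exact Fintype.sum_equiv (Equiv.mulLeft C'⁻¹) _ _ fun C => rfl

/-- **Pointwise equidistribution of the products.** -/
theorem pairs_uniform (ε : ℝ) (h : Equi K y k ε) (C : ClassGroup (𝓞 K)) :
    |(Nat.card (ClassGroup (𝓞 K)) : ℝ) * pairs K y k C - allPairs K y k| ≤
      ε * allPairs K y k := by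
  obtain ⟨h0, h1⟩ := h
  set T : ℕ := ∑ C : ClassGroup (𝓞 K), cnt K y k C with hT
  have hTr : (0 : ℝ) < T := by exact_mod_cast h0
  have hc : (Nat.card (ClassGroup (𝓞 K)) : ℝ) = (Fintype.card (ClassGroup (𝓞 K)) : ℝ) := by
    rw [Nat.card_eq_fintype_card]
  rw [hc] at h1 ⊢
  set H : ℝ := (Fintype.card (ClassGroup (𝓞 K)) : ℝ) with hH
  have hH0 : 0 < H := by rw [hH]; exact_mod_cast Fintype.card_pos
  rw [div_le_iff₀ hH0] at h1
  have e1 : ε * (1 / H) ^ 2 * H = ε / H := by field_simp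
  rw [e1] at h1
  have hs : ∑ C : ClassGroup (𝓞 K), (cnt K y k C : ℝ) / (T : ℝ) = 1 := by
    rw [← Finset.sum_div, hT]
    push_cast
    rw [div_self]
    have : ((∑ C : ClassGroup (𝓞 K), cnt K y k C : ℕ) : ℝ) ≠ 0 := hTr.ne'
    push_cast at this
    exact this
  have key := conv_uniform (fun C : ClassGroup (𝓞 K) => (cnt K y k C : ℝ) / (T : ℝ)) (ε / H) hs h1 C
  have e2 : ∑ g : ClassGroup (𝓞 K), (cnt K y k g : ℝ) / (T : ℝ) *
      ((cnt K y k (g⁻¹ * C) : ℝ) / (T : ℝ)) = (pairs K y k C : ℝ) / (T : ℝ) ^ 2 := by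
    rw [pairs_eq]
    push_cast
    rw [Finset.sum_div]
    refine Finset.sum_congr rfl fun g _ => ?_
    rw [div_mul_div_comm, sq]
  rw [e2] at key
  have e3 : (allPairs K y k : ℝ) = (T : ℝ) ^ 2 := by
    rw [allPairs_eq, ← hT]
    push_cast
    rfl
  rw [e3]
  have e4 : H * (pairs K y k C : ℝ) - (T : ℝ) ^ 2 =
      ((pairs K y k C : ℝ) / (T : ℝ) ^ 2 - 1 / H) * (H * (T : ℝ) ^ 2) := by
    field_simp
  rw [e4, abs_mul, abs_of_pos (show (0 : ℝ) < H * (T : ℝ) ^ 2 by positivity)]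
  calc |(pairs K y k C : ℝ) / (T : ℝ) ^ 2 - 1 / H| * (H * (T : ℝ) ^ 2)
      ≤ ε / H * (H * (T : ℝ) ^ 2) := mul_le_mul_of_nonneg_right key (by positivity)
    _ = ε * (T : ℝ) ^ 2 := by field_simp

lemma allPairs_pos (ε : ℝ) (h : Equi K y k ε) : 0 < allPairs K y k := by
  rw [allPairs_eq]
  exact pow_pos h.1 2

/-- unique factorisation in terms of the proportion of principal products -/
theorem ufd_iff (ε : ℝ) (hε : ε ≤ 1 / 3) (h : Equi K y k ε) :
    UniqueFactorizationMonoid (𝓞 K) ↔ 2 * allPairs K y k < 3 * pairs K y k 1 := by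
  have hpos := allPairs_pos K y k ε h
  have hposr : (0 : ℝ) < allPairs K y k := by exact_mod_cast hpos
  constructor
  · intro hU
    have : IsPrincipalIdealRing (𝓞 K) :=
      IsPrincipalIdealRing.of_isDedekindDomain_of_uniqueFactorizationMonoid (𝓞 K)
    have hcard : Fintype.card (ClassGroup (𝓞 K)) = 1 := card_classGroup_eq_one_iff.2 this
    have hall : allPairs K y k = pairs K y k 1 := by
      rw [allPairs_eq_sum]
      obtain ⟨c, hc⟩ := Fintype.card_eq_one_iff.1 hcard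
      rw [Finset.sum_eq_single 1]
      · intro b _ hb
        exact absurd ((hc b).trans (hc 1).symm) hb
      · intro h1
        exact absurd (Finset.mem_univ _) h1
    omega
  · intro hlt
    by_contra hU
    have hne : Fintype.card (ClassGroup (𝓞 K)) ≠ 1 := by
      intro hcard
      apply hU
      have : IsPrincipalIdealRing (𝓞 K) := card_classGroup_eq_one_iff.1 hcard
      infer_instance
    have h2 : 2 ≤ Nat.card (ClassGroup (𝓞 K)) := by
      rw [Nat.card_eq_fintype_card]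
      have := Fintype.card_pos (α := ClassGroup (𝓞 K))
      omega
    have h2r : (2 : ℝ) ≤ Nat.card (ClassGroup (𝓞 K)) := by exact_mod_cast h2
    have key := (abs_le.1 (pairs_uniform K y k ε h 1)).2
    have hlt' : (2 : ℝ) * allPairs K y k < 3 * pairs K y k 1 := by exact_mod_cast hlt
    have h3 : (2 : ℝ) * pairs K y k 1 ≤ Nat.card (ClassGroup (𝓞 K)) * pairs K y k 1 :=
      mul_le_mul_of_nonneg_right h2r (by positivity)
    have h4 : ε * (allPairs K y k : ℝ) ≤ 1 / 3 * allPairs K y k :=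
      mul_le_mul_of_nonneg_right hε hposr.le
    linarith

end Pool.Agent.Q299.TPC
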