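import Pool.Agent.Q299.TPC.Out
import Pool.Agent.Q299.TPC.Up2
import Pool.Agent.Q299.TPC.Sh1
import Pool.Agent.Y892.UF.W8

/-!
# The limits for the robust statements
-/

set_option autoImplicit false

namespace Pool.Agent.Q299.TPC

open Finset Filter NumberField Pool.Agent.H38R2.CG Pool.Agent.H38R2.CG2 Pool.Agent.H38R2.CG3
open Pool.Agent.H38R2.CG.FINh
open Pool.Agent.Y892.UF
open scoped Classical

/-- The robust statements for the field of the square root of `d`. -/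
def RobG (a : ℝ) (d : ℕ) : Prop :=
  ∀ (K : Type) [Field K] [NumberField K], Module.finrank ℚ K = 2 →
    (∃ x : K, x ^ 2 = (d : K)) → RobK K a (Real.log d) (Real.log (Real.log d))

theorem PAS_true : P_AS := by
  have h_P_PV : P_PV := T_PV
  have h_P_NB : P_NB := T_NB
  have h_P2_NB : P2_NB := T2_NB h_P_NB
  have h_P2_WT : P2_WT := T2_WT
  have h_P2_V0 : P2_V0 := T2_V0 h_P2_WT
  have h_P2_V1 : P2_V1 := T2_V1 h_P_PV h_P2_WT
  have h_P2_SZ : P2_SZ := T2_SZ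
  have h_P2_COMB : P2_COMB := T2_COMB
  have h_P2_PAIR : P2_PAIR := T2_PAIR
  have h_P2_MLOW : P2_MLOW := T2_MLOW h_P2_SZ h_P2_NB h_P2_COMB h_P2_PAIR h_P2_WT h_P2_V0 h_P2_V1
  exact P_AS_of AS0_true h_P2_MLOW h_P2_WT

/-- exceptional `d` have exceptional discriminants -/
theorem excBd_true (a : ℝ) (ha : 2 < a) : ExcBd a (1 / 4) (fun d => ¬ RobG a d) := by
  obtain ⟨X1, hX1⟩ := nums T_NB (T2_NB T_NB) a ha
  refine ⟨X1, fun X hX d hd1 hds hg hXD hDX => ?_⟩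
  have hfund := isFund_Dof hd1 hds
  refine ⟨hfund, ?_⟩
  have hd4 : (X : ℝ) / 4 ≤ d := by
    have h1 : X < 4 * d := lt_of_lt_of_le hXD (Dof_le d)
    have h2 : (X : ℝ) < 4 * d := by exact_mod_cast h1
    linarith
  have hd2 : (d : ℝ) ≤ 2 * X := by
    have h1 : d ≤ 2 * X := (le_Dof d).trans hDX
    exact_mod_cast h1
  have hn := hX1 X hX d hd4 hd2
  unfold RobG at hg
  push Not at hg
  obtain ⟨K, iF, iN, hrank, hx, hng⟩ := hg
  have hdisc : NumberField.discr K = ((Dof d : ℕ) : ℤ) := by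
    rw [T_N0d K d hd1 hds hrank hx]
    unfold Dof
    split_ifs <;> simp
  by_contra hbx
  exact hng (robK_of (T_SPL T_N0) T_N0 (T_N1 (T_SPL T_N0)) N3_true N4_true T_KF
    (T_N5b T_KF N4_true) (T_N6 T_KF) a ha X (Dof d) d hn hfund K hrank hdisc hbx)

/-- 100% of the squarefree integers -/
theorem rob_all (a : ℝ) (ha : 2 < a) : Tendsto (fun X : ℕ =>
    (((Finset.Icc 2 X).filter (fun d => Squarefree d ∧ ¬ RobG a d)).card : ℝ) / X)
    atTop (nhds 0) := by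
  suffices hs : ∀ δ : ℝ, 0 < δ → ∃ η : ℝ, 0 < η ∧ η ≤ 1 ∧ ∃ X0 : ℕ, ∀ X ≥ X0,
      (((Finset.Ioc X ⌊(1 + η) * (X : ℝ)⌋₊).filter
        (fun D => ∃ d : ℕ, 1 < d ∧ Squarefree d ∧ ¬ RobG a d ∧ D = Dof d)).card : ℝ) ≤
        δ * η * X by
    have key := fin_all (fun d => ¬ RobG a d) hs
    convert key
  intro δ hδ
  obtain ⟨η, hη, hη1, X0, hX0⟩ := Pool.Agent.Q299.TPC.short_all T2_TRIV PAS_true a ha (1 / 4) (by norm_num) δ hδ
  obtain ⟨X1, hX1⟩ := excBd_true a ha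
  refine ⟨η, hη, hη1, max X0 X1, fun X hX => ?_⟩
  refine le_trans ?_ (hX0 X (le_trans (le_max_left _ _) hX))
  have hsub : ((Finset.Ioc X ⌊(1 + η) * (X : ℝ)⌋₊).filter
        (fun D => ∃ d : ℕ, 1 < d ∧ Squarefree d ∧ ¬ RobG a d ∧ D = Dof d)) ⊆
      (Finset.Ioc X ⌊(1 + η) * (X : ℝ)⌋₊).filter
        (fun D => IsFund D ∧ Bx a (1 / 4) X D) := by
    intro D hD
    rw [Finset.mem_filter] at hD ⊢
    obtain ⟨hD1, d, hd1, hds, hg, rfl⟩ := hD
    refine ⟨hD1, ?_⟩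
    refine hX1 X (le_trans (le_max_right _ _) hX) d hd1 hds hg (Finset.mem_Ioc.1 hD1).1 ?_
    have h1 := (Finset.mem_Ioc.1 hD1).2
    have h2 : ((⌊(1 + η) * (X : ℝ)⌋₊ : ℕ) : ℝ) ≤ (1 + η) * (X : ℝ) :=
      Nat.floor_le (by positivity)
    have h3 : (Dof d : ℝ) ≤ (⌊(1 + η) * (X : ℝ)⌋₊ : ℝ) := by exact_mod_cast h1
    have h5 : (Dof d : ℝ) ≤ 2 * (X : ℝ) := by
      have : (0 : ℝ) ≤ X := by positivity
      nlinarith
    exact_mod_cast h5
  exact_mod_cast Finset.card_le_card hsub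

/-- 100% of the primes -/
theorem rob_primes (a : ℝ) (ha : 2 < a) : Tendsto (fun X : ℕ =>
    (((Finset.Ioc 0 X).filter (fun d => d.Prime ∧ ¬ RobG a d)).card : ℝ) /
      (((Finset.Ioc 0 X).filter Nat.Prime).card : ℝ))
    atTop (nhds 0) := by
  have main : Tendsto (fun X : ℕ =>
      (((Finset.Icc 2 X).filter (fun p => p.Prime ∧ ¬ RobG a p)).card : ℝ) /
        (((Finset.Icc 2 X).filter Nat.Prime).card : ℝ)) atTop (nhds 0) := by
    suffices hs : ∀ δ : ℝ, 0 < δ → ∃ η : ℝ, 0 < η ∧ η ≤ 1 ∧ ∃ X0 : ℕ, ∀ X ≥ X0,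
        (((Finset.Ioc X ⌊(1 + η) * (X : ℝ)⌋₊).filter
          (fun D => ∃ p : ℕ, p.Prime ∧ ¬ RobG a p ∧ D = Dof p)).card : ℝ) ≤
          δ * η * X / Real.log X by
      have key := fin_primes T_NB (fun d => ¬ RobG a d) hs
      convert key
    intro δ hδ
    obtain ⟨η, hη, hη1, X0, hX0⟩ := Pool.Agent.Q299.TPC.short_primes PAS_true BH_true T2_RC a ha (1 / 4)
      (by norm_num) δ hδ
    obtain ⟨X1, hX1⟩ := excBd_true a ha
    refine ⟨η, hη, hη1, max X0 X1, fun X hX => ?_⟩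
    refine le_trans ?_ (hX0 X (le_trans (le_max_left _ _) hX))
    have hsub : ((Finset.Ioc X ⌊(1 + η) * (X : ℝ)⌋₊).filter
          (fun D => ∃ p : ℕ, p.Prime ∧ ¬ RobG a p ∧ D = Dof p)) ⊆
        (Finset.Ioc X ⌊(1 + η) * (X : ℝ)⌋₊).filter
          (fun D => (∃ p : ℕ, p.Prime ∧ (D = p ∨ D = 4 * p)) ∧
            IsFund D ∧ Bx a (1 / 4) X D) := by
      intro D hD
      rw [Finset.mem_filter] at hD ⊢
      obtain ⟨hD1, p, hp, hg, rfl⟩ := hD
      refine ⟨hD1, ⟨p, hp, ?_⟩, ?_⟩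
      · unfold Dof
        split_ifs <;> simp
      refine hX1 X (le_trans (le_max_right _ _) hX) p hp.one_lt hp.squarefree hg
        (Finset.mem_Ioc.1 hD1).1 ?_
      have h1 := (Finset.mem_Ioc.1 hD1).2
      have h2 : ((⌊(1 + η) * (X : ℝ)⌋₊ : ℕ) : ℝ) ≤ (1 + η) * (X : ℝ) :=
        Nat.floor_le (by positivity)
      have h3 : (Dof p : ℝ) ≤ (⌊(1 + η) * (X : ℝ)⌋₊ : ℝ) := by exact_mod_cast h1
      have h5 : (Dof p : ℝ) ≤ 2 * (X : ℝ) := by
        have : (0 : ℝ) ≤ X := by positivity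
        nlinarith
      exact_mod_cast h5
    exact_mod_cast Finset.card_le_card hsub
  refine main.congr (fun X => ?_)
  have e : ∀ f : ℕ → Prop, (∀ d, f d → 2 ≤ d) →
      ((Finset.Icc 2 X).filter f) = ((Finset.Ioc 0 X).filter f) := by
    intro f hf
    ext d
    rw [mem_filter, mem_filter, mem_Icc, mem_Ioc]
    constructor
    · rintro ⟨⟨h1, h2⟩, h3⟩
      exact ⟨⟨by omega, h2⟩, h3⟩
    · rintro ⟨⟨h1, h2⟩, h3⟩
      exact ⟨⟨hf d h3, h2⟩, h3⟩
  congr 2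
  · have := e (fun p => p.Prime ∧ ¬ RobG a p) (fun d hd => hd.1.two_le)
    convert congrArg Finset.card this
  · have := e (fun p => p.Prime) (fun d hd => hd.two_le)
    convert congrArg Finset.card this

/-- 100% of the numbers `2 p` -/
theorem rob_two (a : ℝ) (ha : 2 < a) : Tendsto (fun X : ℕ =>
    (((Finset.Ioc 0 X).filter (fun D => Two D ∧ ¬ RobG a D)).card : ℝ) /
      (((Finset.Ioc 0 X).filter Two).card : ℝ)) atTop (nhds 0) := by
  have key := Pool.Agent.Q299.TPC.two_tendsto BH_true T2_RC PAS_true a ha (1 / 4) (by norm_num)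
    (fun d => ¬ RobG a d) (excBd_true a ha)
  convert key

/-- 100% of the numbers `p q` -/
theorem rob_semi (a : ℝ) (ha : 2 < a) : Tendsto (fun X : ℕ =>
    (((Finset.Ioc 0 X).filter (fun D => Semi D ∧ ¬ RobG a D)).card : ℝ) /
      (((Finset.Ioc 0 X).filter Semi).card : ℝ)) atTop (nhds 0) := by
  have key := Pool.Agent.Q299.TPC.semi_tendsto BH_true T2_RC PAS_true a ha (1 / 4) (by norm_num)
    (fun d => ¬ RobG a d) (excBd_true a ha)
  convert key

/-- 100% of the radicands that can have unique factorisation -/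
theorem rob_cand (a : ℝ) (ha : 2 < a) : Tendsto (fun X : ℕ =>
    (((Finset.Ioc 0 X).filter (fun D => (Nat.Prime D ∨ Two D ∨ Semi D) ∧ ¬ RobG a D)).card : ℝ) /
      (((Finset.Ioc 0 X).filter (fun D => Nat.Prime D ∨ Two D ∨ Semi D)).card : ℝ))
    atTop (nhds 0) := by
  have key := union_lim Nat.Prime Two Semi (fun D => ¬ RobG a D)
    (by convert rob_primes a ha) (by convert rob_two a ha) (by convert rob_semi a ha)
  convert key

end Pool.Agent.Q299.TPC
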