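import Pool.Agent.Q299.TPC.Gen

/-!
# The inequality for the small primes lying in a subgroup, and robust generation
-/

set_option autoImplicit false

namespace Pool.Agent.Q299.TPC

open Finset Filter NumberField Pool.Agent.H38R2.CG Pool.Agent.H38R2.CG2 Pool.Agent.H38R2.CG3
open scoped Classical

section

variable (K : Type) [Field K] [NumberField K]

/-- the prime ideals of degree one with norm in `(y, 2y]` -/
def PI (y : ℕ) : Set (nonZeroDivisors (Ideal (𝓞 K))) :=
  {P | Ideal.absNorm (P : Ideal (𝓞 K)) ∈ PP y}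

/-- the prime ideals of norm in the finite set `A` -/
def PIA (A : Finset ℕ) : Set (nonZeroDivisors (Ideal (𝓞 K))) :=
  {P | Ideal.absNorm (P : Ideal (𝓞 K)) ∈ A}

lemma finite_PIA (A : Finset ℕ) : (PIA K A).Finite := by
  refine (Ideal.finite_setOfPred_absNorm_le₀ (S := 𝓞 K) (A.sup id)).subset fun I hI => ?_
  exact Finset.le_sup (f := id) hI

/-- ideals of norm `p`, as nonzero ideals -/
noncomputable def normEquiv {p : ℕ} (hp : 0 < p) :
    {I : Ideal (𝓞 K) // Ideal.absNorm I = p} ≃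
    {I : nonZeroDivisors (Ideal (𝓞 K)) // Ideal.absNorm (I : Ideal (𝓞 K)) = p} where
  toFun I := ⟨⟨I.1, by
    rw [← Ideal.absNorm_ne_zero_iff_mem_nonZeroDivisors, I.2]
    exact hp.ne'⟩, I.2⟩
  invFun I := ⟨I.1.1, I.2⟩
  left_inv _ := rfl
  right_inv _ := rfl

/-- the number of the prime ideals with norm in `A` -/
lemma ncard_PIA (A : Finset ℕ) (hA : ∀ p ∈ A, 0 < p) :
    ((PIA K A).ncard : ℝ) = ∑ p ∈ A, wK K p := by
  have hfin := finite_PIA K A
  rw [Set.ncard_eq_toFinset_card _ hfin]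
  have h1 : (hfin.toFinset.card : ℕ) = ∑ p ∈ A, (hfin.toFinset.filter
      (fun I : nonZeroDivisors (Ideal (𝓞 K)) => Ideal.absNorm (I : Ideal (𝓞 K)) = p)).card := by
    apply card_eq_sum_card_fiberwise
    intro I hI
    exact (Set.Finite.mem_toFinset hfin).1 hI
  rw [h1]
  push_cast
  refine sum_congr rfl fun p hp => ?_
  unfold wK
  rw [Nat.card_congr (normEquiv K (hA p hp))]
  congr 1
  symm
  apply Nat.subtype_card
  intro I
  rw [mem_filter, Set.Finite.mem_toFinset]
  constructor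
  · intro h; exact h.2
  · intro h
    refine ⟨?_, h⟩
    show Ideal.absNorm (I : Ideal (𝓞 K)) ∈ A
    rw [h]
    exact hp

/-- two prime ideals of the same prime norm are equal or have principal product -/
lemma conj_prime (hSPL : P_SPL) (D : ℕ) (hD : IsFund D) (h2 : Module.finrank ℚ K = 2)
    (hK : NumberField.discr K = (D : ℤ)) {p : ℕ} (hp : p.Prime)
    (P Q : nonZeroDivisors (Ideal (𝓞 K))) (hP : Ideal.absNorm (P : Ideal (𝓞 K)) = p)
    (hQ : Ideal.absNorm (Q : Ideal (𝓞 K)) = p) :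
    ClassGroup.mk0 Q = ClassGroup.mk0 P ∨ ClassGroup.mk0 P * ClassGroup.mk0 Q = 1 := by
  obtain ⟨s1, s0, sm⟩ := hSPL K D hD h2 hK p hp
  have hprime : ∀ R : nonZeroDivisors (Ideal (𝓞 K)), Ideal.absNorm (R : Ideal (𝓞 K)) = p →
      (R : Ideal (𝓞 K)).IsPrime ∧ (R : Ideal (𝓞 K)) ∣ Ideal.span {(p : 𝓞 K)} := by
    intro R hR
    constructor
    · apply Ideal.isPrime_of_irreducible_absNorm
      rw [hR]
      exact hp
    · rw [Ideal.dvd_span_singleton]
      have := Ideal.absNorm_mem (R : Ideal (𝓞 K))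
      rw [hR] at this
      exact this
  have hpp : ∀ R : nonZeroDivisors (Ideal (𝓞 K)), Ideal.absNorm (R : Ideal (𝓞 K)) = p →
      Prime (R : Ideal (𝓞 K)) := fun R hR =>
    Ideal.prime_of_isPrime (nonZeroDivisors.coe_ne_zero R) (hprime R hR).1
  have hchi : chi D p = 1 ∨ chi D p = 0 ∨ chi D p = -1 := by
    unfold chi
    have hj := jacobiSym.trichotomy (D : ℤ) (p / 2 ^ padicValNat 2 p)
    have hc : chi2 D = 1 ∨ chi2 D = -1 ∨ chi2 D = 0 := by
      unfold chi2
      split_ifs <;> simp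
    have hpow : chi2 D ^ (padicValNat 2 p) = 1 ∨ chi2 D ^ (padicValNat 2 p) = -1 ∨
        chi2 D ^ (padicValNat 2 p) = 0 := by
      rcases hc with h | h | h <;> rw [h]
      · left; exact one_pow _
      · rcases neg_one_pow_eq_or ℤ (padicValNat 2 p) with h' | h' <;> rw [h'] <;> simp
      · rcases Nat.eq_zero_or_pos (padicValNat 2 p) with h' | h'
        · rw [h']; simp
        · rw [zero_pow h'.ne']; simp
    rcases hpow with h | h | h <;> rcases hj with h' | h' | h' <;> rw [h, h'] <;> simp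
  have hdvd : ∀ R P1 : Ideal (𝓞 K), Prime R → P1.IsPrime → P1 ≠ ⊥ → R ∣ P1 → R = P1 := by
    intro R P1 hR hP1 hP10 hdiv
    have hle : P1 ≤ R := Ideal.le_of_dvd hdiv
    have hmax : P1.IsMaximal := hP1.isMaximal hP10
    have hRt : R ≠ ⊤ := by
      intro h
      apply hR.not_isUnit
      rw [Ideal.isUnit_iff]
      exact h
    exact (hmax.eq_of_le hRt hle).symm
  have hspan0 : Ideal.span {(p : 𝓞 K)} ≠ ⊥ := by
    rw [Ne, Ideal.span_singleton_eq_bot]
    exact_mod_cast hp.ne_zero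
  rcases hchi with h | h | h
  · obtain ⟨P1, P2, _, hP1, hP2, hn1, hn2, hprod⟩ := s1 h
    have hne1 : P1 ≠ ⊥ := by
      rintro rfl
      rw [← hprod] at hspan0
      simp at hspan0
    have hne2 : P2 ≠ ⊥ := by
      rintro rfl
      rw [← hprod] at hspan0
      simp at hspan0
    have hcase : ∀ R : nonZeroDivisors (Ideal (𝓞 K)), Ideal.absNorm (R : Ideal (𝓞 K)) = p →
        (R : Ideal (𝓞 K)) = P1 ∨ (R : Ideal (𝓞 K)) = P2 := by
      intro R hR
      have hd := (hprime R hR).2
      rw [← hprod] at hd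
      rcases (hpp R hR).dvd_or_dvd hd with h' | h'
      · exact Or.inl (hdvd _ _ (hpp R hR) hP1 hne1 h')
      · exact Or.inr (hdvd _ _ (hpp R hR) hP2 hne2 h')
    have hprin : ∀ R S : nonZeroDivisors (Ideal (𝓞 K)), (R : Ideal (𝓞 K)) * (S : Ideal (𝓞 K)) =
        Ideal.span {(p : 𝓞 K)} → ClassGroup.mk0 R * ClassGroup.mk0 S = 1 := by
      intro R S hRS
      rw [← map_mul, ClassGroup.mk0_eq_one_iff]
      refine ⟨(p : 𝓞 K), ?_⟩
      show (R : Ideal (𝓞 K)) * (S : Ideal (𝓞 K)) = _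
      rw [hRS]
    rcases hcase P hP with h1 | h1 <;> rcases hcase Q hQ with h3 | h3
    · left
      congr 1
      apply Subtype.ext
      rw [h1, h3]
    · right
      apply hprin
      rw [h1, h3, hprod]
    · right
      apply hprin
      rw [h1, h3, mul_comm, hprod]
    · left
      congr 1
      apply Subtype.ext
      rw [h1, h3]
  · obtain ⟨P1, hP1, hn1, hprod⟩ := s0 h
    have hne1 : P1 ≠ ⊥ := by
      rintro rfl
      rw [← hprod] at hspan0
      simp at hspan0
    have hcase : ∀ R : nonZeroDivisors (Ideal (𝓞 K)), Ideal.absNorm (R : Ideal (𝓞 K)) = p →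
        (R : Ideal (𝓞 K)) = P1 := by
      intro R hR
      have hd := (hprime R hR).2
      rw [← hprod, sq] at hd
      rcases (hpp R hR).dvd_or_dvd hd with h' | h'
      · exact hdvd _ _ (hpp R hR) hP1 hne1 h'
      · exact hdvd _ _ (hpp R hR) hP1 hne1 h'
    left
    congr 1
    apply Subtype.ext
    rw [hcase P hP, hcase Q hQ]
  · have h3 := sm h
    left
    congr 1
    apply Subtype.ext
    rw [hdvd _ _ (hpp P hP) h3 hspan0 (hprime P hP).2, hdvd _ _ (hpp Q hQ) h3 hspan0 (hprime Q hQ).2]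

end

end Pool.Agent.Q299.TPC
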