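import Pool.Agent.Q299.TPC.Par2
import Pool.Agent.Q299.TPC.Sub
import Mathlib.NumberTheory.Chebyshev

/-!
# Size of the parameters, third version, and the number of small prime ideals
-/

set_option autoImplicit false

namespace Pool.Agent.Q299.TPC

open Finset Filter NumberField Pool.Agent.H38R2.CG Pool.Agent.H38R2.CG2 Pool.Agent.H38R2.CG3
open scoped Classical

/-- the additional sizes -/
structure Nums3 (a δ : ℝ) (k n : ℕ) (d : ℝ) : Prop where
  hkn : (k : ℝ) ^ 2 ≤ δ * n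
  hpi : (Nat.primeCounting ⌊(Real.log d) ^ a⌋₊ : ℝ) ≤
    3 / 2 * ((Real.log d) ^ a / (a * Real.log (Real.log d)))
  hbig : 1 / δ ≤ Real.log d / Real.log (Real.log d)

lemma nums3 (hNB : P_NB) (h2NB : P2_NB) (a : ℝ) (ha : 2 < a) (δ : ℝ) (hδ : 0 < δ) :
    ∃ X1 : ℕ, ∀ X : ℕ, X1 ≤ X → ∀ d : ℝ, (X : ℝ) / 4 ≤ d → d ≤ 2 * X →
      Nums a (yA a X) (kA a X) (PP (yA a X)).card d ∧
      Nums3 a δ (kA a X) (PP (yA a X)).card d := by
  obtain ⟨X1, hX1⟩ := nums hNB h2NB a ha
  obtain ⟨X2, hX2⟩ := h2NB a ha 1 one_pos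
  have ha0 : 0 < a := by linarith
  have ht : Tendsto (fun X : ℕ => Real.log (X : ℝ)) atTop atTop :=
    Real.tendsto_log_atTop.comp tendsto_natCast_atTop_atTop
  -- small factor
  have e6 : ∀ᶠ L : ℝ in atTop, L ^ (-((a - 2) / 2)) ≤ δ :=
    (tendsto_rpow_neg_atTop (by linarith : 0 < (a - 2) / 2)).eventually (ge_mem_nhds hδ)
  obtain ⟨X3, hX3⟩ := Filter.eventually_atTop.1 (ht.eventually e6)
  -- Chebyshev
  have e7 : ∀ᶠ x : ℝ in atTop, (Nat.primeCounting ⌊x⌋₊ : ℝ) ≤ (Real.log 4 + 1 / 10) * x /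
      Real.log x := Chebyshev.eventually_primeCounting_le (by norm_num)
  obtain ⟨x0, hx0⟩ := Filter.eventually_atTop.1 e7
  have e8 : ∀ᶠ d : ℝ in atTop, x0 ≤ (Real.log d) ^ a :=
    ((tendsto_rpow_atTop ha0).comp Real.tendsto_log_atTop).eventually_ge_atTop x0
  -- the ratio
  have e9 : ∀ᶠ l : ℝ in atTop, ‖Real.log l‖ ≤ δ * ‖l‖ :=
    Real.isLittleO_log_id_atTop.bound hδ
  have e10 : ∀ᶠ d : ℝ in atTop, ‖Real.log (Real.log d)‖ ≤ δ * ‖Real.log d‖ :=
    Real.tendsto_log_atTop.eventually e9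
  obtain ⟨d0, hd0⟩ := Filter.eventually_atTop.1 (e8.and e10)
  refine ⟨max (max X1 X2) (max X3 ⌈4 * d0⌉₊), ?_⟩
  intro X hX d hd hd2
  have hn := hX1 X ((le_max_left _ _).trans ((le_max_left _ _).trans hX)) d hd hd2
  obtain ⟨q1, -⟩ := hX2 X ((le_max_right _ _).trans ((le_max_left _ _).trans hX))
  have h3 := hX3 X ((le_max_left _ _).trans ((le_max_right _ _).trans hX))
  have hXd : ⌈4 * d0⌉₊ ≤ X := (le_max_right _ _).trans ((le_max_right _ _).trans hX)
  have hdd : d0 ≤ d := by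
    have h4 : 4 * d0 ≤ X := (Nat.le_ceil _).trans (by exact_mod_cast hXd)
    linarith
  obtain ⟨h8, h10⟩ := hd0 d hdd
  refine ⟨hn, ⟨?_, ?_, ?_⟩⟩
  · refine q1.trans ?_
    exact mul_le_mul_of_nonneg_right h3 (Nat.cast_nonneg _)
  · have h11 := hx0 _ h8
    refine h11.trans ?_
    have hl : 1 ≤ Real.log d := hn.hl
    have hll : 1 ≤ Real.log (Real.log d) := hn.hll
    rw [Real.log_rpow (by linarith)]
    have h4' : Real.log 4 ≤ 14 / 10 := by
      rw [show (4 : ℝ) = 2 ^ 2 by norm_num, Real.log_pow]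
      have := Real.log_two_lt_d9
      push_cast
      linarith
    have h12 : 0 ≤ (Real.log d) ^ a / (a * Real.log (Real.log d)) := by positivity
    calc (Real.log 4 + 1 / 10) * (Real.log d) ^ a / (a * Real.log (Real.log d)) =
          (Real.log 4 + 1 / 10) * ((Real.log d) ^ a / (a * Real.log (Real.log d))) := by ring
      _ ≤ 3 / 2 * ((Real.log d) ^ a / (a * Real.log (Real.log d))) := by
          apply mul_le_mul_of_nonneg_right _ h12
          linarith
  · have hl : 1 ≤ Real.log d := hn.hl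
    have hll : 1 ≤ Real.log (Real.log d) := hn.hll
    rw [Real.norm_eq_abs, Real.norm_eq_abs, abs_of_nonneg (by linarith),
      abs_of_nonneg (by linarith)] at h10
    rw [div_le_div_iff₀ hδ (by linarith)]
    linarith

section

variable (K : Type) [Field K] [NumberField K]

/-- at most two prime ideals contain a given prime number -/
lemma over_le_two (hSPL : P_SPL) (D : ℕ) (hD : IsFund D) (h2 : Module.finrank ℚ K = 2)
    (hK : NumberField.discr K = (D : ℤ)) {p : ℕ} (hp : p.Prime) :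
    ∃ P1 P2 : Ideal (𝓞 K), ∀ P : Ideal (𝓞 K), P.IsPrime → P ≠ ⊥ → (p : 𝓞 K) ∈ P →
      P = P1 ∨ P = P2 := by
  obtain ⟨s1, s0, sm⟩ := hSPL K D hD h2 hK p hp
  have hchi : chi D p = 1 ∨ chi D p = 0 ∨ chi D p = -1 := by
    unfold chi
    have hj := jacobiSym.trichotomy (D : ℤ) (p / 2 ^ padicValNat 2 p)
    have hc : chi2 D = 1 ∨ chi2 D = -1 ∨ chi2 D = 0 := by
      unfold chi2
      split_ifs <;> simp
    have hpow : chi2 D ^ (padicValNat 2 p) = 1 ∨ chi2 D ^ (padicValNat 2 p) = -1 ∨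
        chi2 D ^ (padicValNat 2 p) = 0 := by
      rcases hc with h | h | h <;> rw [h]
      · left; exact one_pow _
      · rcases neg_one_pow_eq_or ℤ (padicValNat 2 p) with h' | h' <;> rw [h'] <;> simp
      · rcases Nat.eq_zero_or_pos (padicValNat 2 p) with h' | h'
        · rw [h']; simp
        · rw [zero_pow h'.ne']; simp
    rcases hpow with h | h | h <;> rcases hj with h' | h' | h' <;> rw [h, h'] <;> simp
  have hspan0 : Ideal.span {(p : 𝓞 K)} ≠ ⊥ := by
    rw [Ne, Ideal.span_singleton_eq_bot]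
    exact_mod_cast hp.ne_zero
  have hdvd : ∀ R P1 : Ideal (𝓞 K), Prime R → P1.IsPrime → P1 ≠ ⊥ → R ∣ P1 → R = P1 := by
    intro R P1 hR hP1 hP10 hdiv
    have hle : P1 ≤ R := Ideal.le_of_dvd hdiv
    have hmax : P1.IsMaximal := hP1.isMaximal hP10
    have hRt : R ≠ ⊤ := by
      intro h
      apply hR.not_isUnit
      rw [Ideal.isUnit_iff]
      exact h
    exact (hmax.eq_of_le hRt hle).symm
  have hd : ∀ P : Ideal (𝓞 K), P.IsPrime → P ≠ ⊥ → (p : 𝓞 K) ∈ P →
      Prime P ∧ P ∣ Ideal.span {(p : 𝓞 K)} := by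
    intro P hP hP0 hpP
    refine ⟨Ideal.prime_of_isPrime hP0 hP, ?_⟩
    rw [Ideal.dvd_span_singleton]
    exact hpP
  rcases hchi with h | h | h
  · obtain ⟨P1, P2, _, hP1, hP2, hn1, hn2, hprod⟩ := s1 h
    have hne1 : P1 ≠ ⊥ := by
      rintro rfl
      rw [← hprod] at hspan0
      simp at hspan0
    have hne2 : P2 ≠ ⊥ := by
      rintro rfl
      rw [← hprod] at hspan0
      simp at hspan0
    refine ⟨P1, P2, fun P hP hP0 hpP => ?_⟩
    obtain ⟨hpr, hdv⟩ := hd P hP hP0 hpP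
    rw [← hprod] at hdv
    rcases hpr.dvd_or_dvd hdv with h' | h'
    · exact Or.inl (hdvd _ _ hpr hP1 hne1 h')
    · exact Or.inr (hdvd _ _ hpr hP2 hne2 h')
  · obtain ⟨P1, hP1, hn1, hprod⟩ := s0 h
    have hne1 : P1 ≠ ⊥ := by
      rintro rfl
      rw [← hprod] at hspan0
      simp at hspan0
    refine ⟨P1, P1, fun P hP hP0 hpP => ?_⟩
    obtain ⟨hpr, hdv⟩ := hd P hP hP0 hpP
    rw [← hprod, sq] at hdv
    rcases hpr.dvd_or_dvd hdv with h' | h'
    · exact Or.inl (hdvd _ _ hpr hP1 hne1 h')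
    · exact Or.inr (hdvd _ _ hpr hP1 hne1 h')
  · have h3 := sm h
    refine ⟨Ideal.span {(p : 𝓞 K)}, Ideal.span {(p : 𝓞 K)}, fun P hP hP0 hpP => ?_⟩
    obtain ⟨hpr, hdv⟩ := hd P hP hP0 hpP
    exact Or.inl (hdvd _ _ hpr h3 hspan0 hdv)

/-- the number of the prime ideals of norm at most `B` -/
lemma card_small (hSPL : P_SPL) (D : ℕ) (hD : IsFund D) (h2 : Module.finrank ℚ K = 2)
    (hK : NumberField.discr K = (D : ℤ)) (B : ℕ) (Q : Finset (nonZeroDivisors (Ideal (𝓞 K))))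
    (hQ : ∀ P ∈ Q, (P : Ideal (𝓞 K)).IsPrime ∧ Ideal.absNorm (P : Ideal (𝓞 K)) ≤ B) :
    Q.card ≤ 2 * Nat.primeCounting B := by
  -- every prime ideal contains a prime number of size at most its norm
  have hprime : ∀ P ∈ Q, ∃ p : ℕ, p.Prime ∧ p ≤ B ∧ (p : 𝓞 K) ∈ (P : Ideal (𝓞 K)) := by
    intro P hP
    obtain ⟨hP1, hP2⟩ := hQ P hP
    have hmem := Ideal.absNorm_mem (P : Ideal (𝓞 K))
    have hpos : 0 < Ideal.absNorm (P : Ideal (𝓞 K)) := by
      apply Nat.pos_of_ne_zero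
      rw [Ideal.absNorm_ne_zero_iff_mem_nonZeroDivisors]
      exact P.2
    have key : ∀ n : ℕ, 0 < n → n ≤ B → (n : 𝓞 K) ∈ (P : Ideal (𝓞 K)) →
        ∃ p : ℕ, p.Prime ∧ p ≤ B ∧ (p : 𝓞 K) ∈ (P : Ideal (𝓞 K)) := by
      intro n
      induction n using Nat.strong_induction_on with
      | _ n ih =>
        intro hn hnB hnP
        by_cases h1 : n = 1
        · exfalso
          rw [h1, Nat.cast_one] at hnP
          exact hP1.ne_top ((Ideal.eq_top_iff_one _).2 hnP)
        · obtain ⟨p, hp, m, rfl⟩ := Nat.exists_prime_and_dvd h1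
          have hm : 0 < m := Nat.pos_of_mul_pos_left hn
          rw [Nat.cast_mul] at hnP
          rcases hP1.mem_or_mem hnP with h3 | h3
          · refine ⟨p, hp, ?_, h3⟩
            exact (Nat.le_mul_of_pos_right p hm).trans hnB
          · refine ih m ?_ hm ?_ h3
            · exact lt_mul_of_one_lt_left hm hp.one_lt
            · exact (Nat.le_mul_of_pos_left m hp.pos).trans hnB
    exact key _ hpos hP2 hmem
  choose! f hf using hprime
  have hmaps : ∀ P ∈ Q, f P ∈ (Finset.range (B + 1)).filter Nat.Prime := by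
    intro P hP
    rw [mem_filter, mem_range]
    exact ⟨by have := (hf P hP).2.1; omega, (hf P hP).1⟩
  have hcard : Q.card ≤ 2 * ((Finset.range (B + 1)).filter Nat.Prime).card := by
    apply Finset.card_le_mul_card_image_of_maps_to hmaps
    intro p hp
    rw [mem_filter] at hp
    obtain ⟨P1, P2, h12⟩ := over_le_two K hSPL D hD h2 hK hp.2
    have hinj : ((Q.filter (fun P => f P = p)).image
        (fun P : nonZeroDivisors (Ideal (𝓞 K)) => (P : Ideal (𝓞 K)))).card =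
        (Q.filter (fun P => f P = p)).card := by
      apply card_image_of_injective
      exact Subtype.val_injective
    rw [← hinj]
    refine (card_le_card (t := {P1, P2}) ?_).trans card_le_two
    intro I hI
    obtain ⟨P, hP, rfl⟩ := Finset.mem_image.1 hI
    rw [mem_filter] at hP
    rw [mem_insert, mem_singleton]
    refine h12 _ (hQ P hP.1).1 (nonZeroDivisors.coe_ne_zero P) ?_
    rw [← hP.2]
    exact (hf P hP.1).2.2
  unfold Nat.primeCounting Nat.primeCounting'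
  rw [Nat.count_eq_card_filter_range]
  exact hcard

end

end Pool.Agent.Q299.TPC
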