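import Pool.Agent.Q299.TPC.Walk
import Pool.Agent.Q299.TPC.Num3
import Pool.Agent.Q299.TPC.Fin2

/-!
# The limits for the random walk statements
-/

set_option autoImplicit false

namespace Pool.Agent.Q299.TPC

open Finset Filter NumberField Pool.Agent.H38R2.CG Pool.Agent.H38R2.CG2 Pool.Agent.H38R2.CG3
open Pool.Agent.H38R2.CG.FINh MonoidAlgebra
open Pool.Agent.Y892.UF
open scoped Classical

/-- The mixing statement for one field. -/
def WalkK (K : Type) [Field K] [NumberField K] (a ε l : ℝ) : Prop :=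
  ∀ Q : Finset (nonZeroDivisors (Ideal (𝓞 K))),
    (∀ P, P ∈ Q ↔ (P : Ideal (𝓞 K)).IsPrime ∧ (Ideal.absNorm (P : Ideal (𝓞 K)) : ℝ) ≤ l ^ a) →
    0 < Q.card ∧ ∀ m : ℕ, 200 * (l / Real.log l) ≤ m →
      l1 ((∑ P ∈ Q, single (ClassGroup.mk0 P) (1 : ℝ)) ^ m -
        ((Q.card : ℝ) ^ m) • uu (ClassGroup (𝓞 K))) ≤ ε * (Q.card : ℝ) ^ m

/-- The mixing statement for the field of the square root of `d`. -/
def WalkG (a ε : ℝ) (d : ℕ) : Prop :=
  ∀ (K : Type) [Field K] [NumberField K], Module.finrank ℚ K = 2 →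
    (∃ x : K, x ^ 2 = (d : K)) → WalkK K a ε (Real.log d)

/-- the elementary inequality for the tail -/
lemma tail_ineq {q W r ε : ℝ} {k m : ℕ} (hε : 0 < ε) (hq : 0 < q)
    (hWq : W ≤ q) (hρ : q ≤ 60 * W) (hk : 2 * (k : ℝ) ≤ r) (hm : 200 * r ≤ m)
    (hr : 4 / ε ≤ r) :
    2 * (2 ^ k * (q - W / 2) ^ m) ≤ ε / 2 * q ^ m := by
  have h1 : q - W / 2 ≤ q * (1 - 1 / 120) := by linarith
  have h0 : 0 ≤ q - W / 2 := by linarith
  have h2 : (q - W / 2) ^ m ≤ q ^ m * Real.exp (-(m / 120)) := by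
    calc (q - W / 2) ^ m ≤ (q * (1 - 1 / 120)) ^ m := pow_le_pow_left₀ h0 h1 m
      _ = q ^ m * (1 - 1 / 120) ^ m := mul_pow _ _ _
      _ ≤ q ^ m * Real.exp (-(m / 120)) := by
          apply mul_le_mul_of_nonneg_left _ (by positivity)
          calc (1 - 1 / 120 : ℝ) ^ m ≤ (Real.exp (-(1 / 120))) ^ m := by
                apply pow_le_pow_left₀ (by norm_num)
                exact Real.one_sub_le_exp_neg _
            _ = Real.exp (-(m / 120)) := by
                rw [← Real.exp_nat_mul]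
                congr 1
                ring
  have h3 : (2 : ℝ) ^ k ≤ Real.exp k := by
    calc (2 : ℝ) ^ k ≤ (Real.exp 1) ^ k := by
          apply pow_le_pow_left₀ (by norm_num)
          have := Real.exp_one_gt_d9
          linarith
      _ = Real.exp k := by
          rw [← Real.exp_nat_mul, mul_one]
  have hr0 : 0 < r := lt_of_lt_of_le (by positivity) hr
  have h4 : Real.exp k * Real.exp (-(m / 120)) ≤ Real.exp (-r) := by
    rw [← Real.exp_add]
    apply Real.exp_le_exp.2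
    linarith
  have h5 : Real.exp (-r) ≤ ε / 4 := by
    rw [Real.exp_neg]
    have h6 : r ≤ Real.exp r := by
      have := Real.add_one_le_exp r
      linarith
    have h7 : 4 / ε ≤ Real.exp r := hr.trans h6
    rw [div_le_iff₀ hε] at h7
    rw [inv_le_comm₀ (Real.exp_pos r) (by positivity)]
    rw [inv_div]
    rw [div_le_iff₀ hε]
    exact h7
  calc 2 * (2 ^ k * (q - W / 2) ^ m) ≤ 2 * (Real.exp k * (q ^ m * Real.exp (-(m / 120)))) := by
        gcongr
    _ = 2 * q ^ m * (Real.exp k * Real.exp (-(m / 120))) := by ring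
    _ ≤ 2 * q ^ m * (ε / 4) := by
        apply mul_le_mul_of_nonneg_left (h4.trans h5) (by positivity)
    _ = ε / 2 * q ^ m := by ring

theorem walkK_of (hSPL : P_SPL) (hN0 : P_N0) (hN1 : P_N1) (hN3 : P_N3) (h4 : P_N4) (hKF : P_KF)
    (h5b : P_N5b) (hN6 : P_N6) (a : ℝ) (ha : 2 < a) (ε : ℝ) (hε : 0 < ε) (hε1 : ε ≤ 1)
    (X D : ℕ) (d : ℝ)
    (hn : Nums a (yA a X) (kA a X) (PP (yA a X)).card d)
    (hn3 : Nums3 a (ε / 64) (kA a X) (PP (yA a X)).card d) (hD : IsFund D)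
    (K : Type) [Field K] [NumberField K] (h2 : Module.finrank ℚ K = 2)
    (hK : NumberField.discr K = (D : ℤ)) (hne : ¬ Bx a ((ε / 4) ^ 2) X D) :
    WalkK K a ε (Real.log d) := by
  obtain ⟨hB, hM⟩ := base2_of K hN0 hN1 hN3 h4 hKF h5b hN6 a _ X D hn.hy2 hD h2 hK hne
  obtain ⟨n1, n2, n3, n4, n5, n6, n7, n8, n9, n10, n11⟩ := hn
  obtain ⟨m1, m2, m3⟩ := hn3
  have hW := many2 K hB.bd n4 hM n5
  set y := yA a X with hy
  set k := kA a X with hk
  set l := Real.log d with hl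
  have hWeq : ((PI K y).ncard : ℝ) = ∑ p ∈ PP y, wK K p :=
    ncard_PIA K (PP y) fun p hp => PP_pos hp
  rw [hWeq] at hW
  set W := ∑ p ∈ PP y, wK K p with hWdef
  have ha0 : 0 < a := by linarith
  have hk1 : (1 : ℝ) ≤ k := by exact_mod_cast n4
  have hl0 : 0 < l := by linarith
  have hll0 : 0 < Real.log l := by linarith
  have hWk : 40 * (k : ℝ) ^ 2 ≤ W := n6.trans hW
  have hW0 : 0 < W := by nlinarith
  have hWl : l ^ a / (20 * a * Real.log l) ≤ W := n7.trans hW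
  intro Q hQ
  have hPI : ∀ P ∈ PI K y, P ∈ Q := by
    intro P hP
    have hP' : Ideal.absNorm (P : Ideal (𝓞 K)) ∈ PP y := hP
    simp only [PP, mem_filter, mem_Ioc] at hP'
    rw [hQ]
    constructor
    · exact Ideal.isPrime_of_irreducible_absNorm hP'.2
    · have h5 : ((Ideal.absNorm (P : Ideal (𝓞 K)) : ℕ) : ℝ) ≤ ((2 * y : ℕ) : ℝ) := by
        exact_mod_cast hP'.1.2
      push_cast at h5
      exact h5.trans n1
  have hWQ : W ≤ Q.card := by
    rw [← hWeq]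
    have h5 : (PI K y) ⊆ (Q : Set (nonZeroDivisors (Ideal (𝓞 K)))) := fun P hP => hPI P hP
    have h6 := Set.ncard_le_ncard h5 (Finset.finite_toSet Q)
    rw [Set.ncard_coe_finset] at h6
    exact_mod_cast h6
  have hQ0 : (0 : ℝ) < Q.card := by linarith
  have hQup : (Q.card : ℝ) ≤ 60 * W := by
    have h5 := card_small K hSPL D hD h2 hK ⌊l ^ a⌋₊ Q (by
      intro P hP
      have h6 := (hQ P).1 hP
      exact ⟨h6.1, Nat.le_floor h6.2⟩)
    have h6 : (Q.card : ℝ) ≤ 2 * (Nat.primeCounting ⌊l ^ a⌋₊ : ℝ) := by exact_mod_cast h5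
    have h7 : (l ^ a / (a * Real.log l)) = 20 * (l ^ a / (20 * a * Real.log l)) := by
      field_simp
    rw [h7] at m2
    linarith
  refine ⟨by exact_mod_cast hQ0, fun m hm => ?_⟩
  refine mix_all hB hW0 Q hPI m ε ?_ ?_
  · rw [← hWdef, Real.sqrt_sq (by positivity)]
    have h8 : 2 * (k : ℝ) ^ 2 / W ≤ ε / 4 := by
      rw [div_le_iff₀ hW0]
      -- W ≥ n/4
      have h9 : (PP y).card / 4 ≤ W := by
        have h10 : (k : ℝ) ≤ ε / 64 * (PP y).card := by nlinarith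
        have h11 : (0 : ℝ) ≤ (PP y).card := Nat.cast_nonneg _
        nlinarith
      nlinarith
    linarith
  · rw [← hWdef]
    refine tail_ineq (r := l / Real.log l) hε hQ0 hWQ hQup n2 hm ?_
    refine le_trans ?_ m3
    rw [div_le_div_iff₀ hε (by positivity)]
    linarith

/-- exceptional `d` have exceptional discriminants -/
theorem excWalk (a : ℝ) (ha : 2 < a) (ε : ℝ) (hε : 0 < ε) (hε1 : ε ≤ 1) :
    ExcBd a ((ε / 4) ^ 2) (fun d => ¬ WalkG a ε d) := by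
  obtain ⟨X1, hX1⟩ := nums3 T_NB (T2_NB T_NB) a ha (ε / 64) (by positivity)
  refine ⟨X1, fun X hX d hd1 hds hg hXD hDX => ?_⟩
  have hfund := isFund_Dof hd1 hds
  refine ⟨hfund, ?_⟩
  have hd4 : (X : ℝ) / 4 ≤ d := by
    have h1 : X < 4 * d := lt_of_lt_of_le hXD (Dof_le d)
    have h2 : (X : ℝ) < 4 * d := by exact_mod_cast h1
    linarith
  have hd2 : (d : ℝ) ≤ 2 * X := by
    have h1 : d ≤ 2 * X := (le_Dof d).trans hDX
    exact_mod_cast h1
  obtain ⟨hn, hn3⟩ := hX1 X hX d hd4 hd2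
  unfold WalkG at hg
  push Not at hg
  obtain ⟨K, iF, iN, hrank, hx, hng⟩ := hg
  have hdisc : NumberField.discr K = ((Dof d : ℕ) : ℤ) := by
    rw [T_N0d K d hd1 hds hrank hx]
    unfold Dof
    split_ifs <;> simp
  by_contra hbx
  exact hng (walkK_of (T_SPL T_N0) T_N0 (T_N1 (T_SPL T_N0)) N3_true N4_true T_KF
    (T_N5b T_KF N4_true) (T_N6 T_KF) a ha ε hε hε1 X (Dof d) d hn hn3 hfund K hrank hdisc hbx)

/-- 100% of the squarefree integers, any exceptional property -/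
theorem gen_all (a t0 : ℝ) (ha : 2 < a) (ht0 : 0 < t0) (Exc : ℕ → Prop)
    (hE : ExcBd a t0 Exc) : Tendsto (fun X : ℕ =>
    (((Finset.Icc 2 X).filter (fun d => Squarefree d ∧ Exc d)).card : ℝ) / X)
    atTop (nhds 0) := by
  apply fin_all
  intro δ hδ
  obtain ⟨η, hη, hη1, X0, hX0⟩ := Pool.Agent.Q299.TPC.short_all T2_TRIV PAS_true a ha t0 ht0 δ hδ
  obtain ⟨X1, hX1⟩ := hE
  refine ⟨η, hη, hη1, max X0 X1, fun X hX => ?_⟩
  refine le_trans ?_ (hX0 X (le_trans (le_max_left _ _) hX))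
  have hsub : ((Finset.Ioc X ⌊(1 + η) * (X : ℝ)⌋₊).filter
        (fun D => ∃ d : ℕ, 1 < d ∧ Squarefree d ∧ Exc d ∧ D = Dof d)) ⊆
      (Finset.Ioc X ⌊(1 + η) * (X : ℝ)⌋₊).filter
        (fun D => IsFund D ∧ Bx a t0 X D) := by
    intro D hD
    rw [Finset.mem_filter] at hD ⊢
    obtain ⟨hD1, d, hd1, hds, hg, rfl⟩ := hD
    refine ⟨hD1, ?_⟩
    refine hX1 X (le_trans (le_max_right _ _) hX) d hd1 hds hg (Finset.mem_Ioc.1 hD1).1 ?_
    have h1 := (Finset.mem_Ioc.1 hD1).2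
    have h2 : ((⌊(1 + η) * (X : ℝ)⌋₊ : ℕ) : ℝ) ≤ (1 + η) * (X : ℝ) :=
      Nat.floor_le (by positivity)
    have h3 : (Dof d : ℝ) ≤ (⌊(1 + η) * (X : ℝ)⌋₊ : ℝ) := by exact_mod_cast h1
    have h5 : (Dof d : ℝ) ≤ 2 * (X : ℝ) := by
      have : (0 : ℝ) ≤ X := by positivity
      nlinarith
    exact_mod_cast h5
  exact_mod_cast Finset.card_le_card hsub

/-- 100% of the primes, any exceptional property -/
theorem gen_primes (a t0 : ℝ) (ha : 2 < a) (ht0 : 0 < t0) (Exc : ℕ → Prop)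
    (hE : ExcBd a t0 Exc) : Tendsto (fun X : ℕ =>
    (((Finset.Ioc 0 X).filter (fun d => Nat.Prime d ∧ Exc d)).card : ℝ) /
      (((Finset.Ioc 0 X).filter Nat.Prime).card : ℝ))
    atTop (nhds 0) := by
  have main : Tendsto (fun X : ℕ =>
      (((Finset.Icc 2 X).filter (fun p => p.Prime ∧ Exc p)).card : ℝ) /
        (((Finset.Icc 2 X).filter Nat.Prime).card : ℝ)) atTop (nhds 0) := by
    apply fin_primes T_NB
    intro δ hδ
    obtain ⟨η, hη, hη1, X0, hX0⟩ := Pool.Agent.Q299.TPC.short_primes PAS_true BH_true T2_RC a ha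
      t0 ht0 δ hδ
    obtain ⟨X1, hX1⟩ := hE
    refine ⟨η, hη, hη1, max X0 X1, fun X hX => ?_⟩
    refine le_trans ?_ (hX0 X (le_trans (le_max_left _ _) hX))
    have hsub : ((Finset.Ioc X ⌊(1 + η) * (X : ℝ)⌋₊).filter
          (fun D => ∃ p : ℕ, p.Prime ∧ Exc p ∧ D = Dof p)) ⊆
        (Finset.Ioc X ⌊(1 + η) * (X : ℝ)⌋₊).filter
          (fun D => (∃ p : ℕ, p.Prime ∧ (D = p ∨ D = 4 * p)) ∧
            IsFund D ∧ Bx a t0 X D) := by
      intro D hD
      rw [Finset.mem_filter] at hD ⊢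
      obtain ⟨hD1, p, hp, hg, rfl⟩ := hD
      refine ⟨hD1, ⟨p, hp, ?_⟩, ?_⟩
      · unfold Dof
        split_ifs <;> simp
      refine hX1 X (le_trans (le_max_right _ _) hX) p hp.one_lt hp.squarefree hg
        (Finset.mem_Ioc.1 hD1).1 ?_
      have h1 := (Finset.mem_Ioc.1 hD1).2
      have h2 : ((⌊(1 + η) * (X : ℝ)⌋₊ : ℕ) : ℝ) ≤ (1 + η) * (X : ℝ) :=
        Nat.floor_le (by positivity)
      have h3 : (Dof p : ℝ) ≤ (⌊(1 + η) * (X : ℝ)⌋₊ : ℝ) := by exact_mod_cast h1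
      have h5 : (Dof p : ℝ) ≤ 2 * (X : ℝ) := by
        have : (0 : ℝ) ≤ X := by positivity
        nlinarith
      exact_mod_cast h5
    exact_mod_cast Finset.card_le_card hsub
  refine main.congr (fun X => ?_)
  have e : ∀ f : ℕ → Prop, (∀ d, f d → 2 ≤ d) →
      ((Finset.Icc 2 X).filter f) = ((Finset.Ioc 0 X).filter f) := by
    intro f hf
    ext d
    rw [mem_filter, mem_filter, mem_Icc, mem_Ioc]
    constructor
    · rintro ⟨⟨h1, h2⟩, h3⟩
      exact ⟨⟨by omega, h2⟩, h3⟩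
    · rintro ⟨⟨h1, h2⟩, h3⟩
      exact ⟨⟨hf d h3, h2⟩, h3⟩
  congr 2
  · have := e (fun p => p.Prime ∧ Exc p) (fun d hd => hd.1.two_le)
    convert congrArg Finset.card this
  · have := e (fun p => p.Prime) (fun d hd => hd.two_le)
    convert congrArg Finset.card this

/-- 100% of the numbers `2 p` -/
theorem gen_two (a t0 : ℝ) (ha : 2 < a) (ht0 : 0 < t0) (Exc : ℕ → Prop)
    (hE : ExcBd a t0 Exc) : Tendsto (fun X : ℕ =>
    (((Finset.Ioc 0 X).filter (fun D => Two D ∧ Exc D)).card : ℝ) /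
      (((Finset.Ioc 0 X).filter Two).card : ℝ)) atTop (nhds 0) :=
  Pool.Agent.Q299.TPC.two_tendsto BH_true T2_RC PAS_true a ha t0 ht0 Exc hE

/-- 100% of the numbers `p q` -/
theorem gen_semi (a t0 : ℝ) (ha : 2 < a) (ht0 : 0 < t0) (Exc : ℕ → Prop)
    (hE : ExcBd a t0 Exc) : Tendsto (fun X : ℕ =>
    (((Finset.Ioc 0 X).filter (fun D => Semi D ∧ Exc D)).card : ℝ) /
      (((Finset.Ioc 0 X).filter Semi).card : ℝ)) atTop (nhds 0) :=
  Pool.Agent.Q299.TPC.semi_tendsto BH_true T2_RC PAS_true a ha t0 ht0 Exc hE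

/-- 100% of the radicands that can have unique factorisation -/
theorem gen_cand (a t0 : ℝ) (ha : 2 < a) (ht0 : 0 < t0) (Exc : ℕ → Prop)
    (hE : ExcBd a t0 Exc) : Tendsto (fun X : ℕ =>
    (((Finset.Ioc 0 X).filter (fun D => (Nat.Prime D ∨ Two D ∨ Semi D) ∧ Exc D)).card : ℝ) /
      (((Finset.Ioc 0 X).filter (fun D => Nat.Prime D ∨ Two D ∨ Semi D)).card : ℝ))
    atTop (nhds 0) := by
  have key := union_lim Nat.Prime Two Semi Exc
    (by convert gen_primes a t0 ha ht0 Exc hE) (by convert gen_two a t0 ha ht0 Exc hE)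
    (by convert gen_semi a t0 ha ht0 Exc hE)
  convert key

end Pool.Agent.Q299.TPC
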