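import Mathlib

/-!
# The group algebra of a finite abelian group with the `l1` norm
-/

set_option autoImplicit false

namespace Pool.Agent.Q299.TPC

open Finset MonoidAlgebra
open scoped Classical

section

variable {G : Type} [CommGroup G] [Fintype G]

/-- the `l1` norm -/
noncomputable def l1 (f : MonoidAlgebra ℝ G) : ℝ := ∑ g : G, |f.coeff g|

/-- the total mass -/
noncomputable def tot (f : MonoidAlgebra ℝ G) : ℝ := ∑ g : G, f.coeff g

/-- the uniform distribution -/
noncomputable def uu (G : Type) [CommGroup G] [Fintype G] : MonoidAlgebra ℝ G :=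
  ∑ g : G, single g (1 / (Fintype.card G : ℝ))

lemma uu_coeff (c : G) : (uu G).coeff c = 1 / (Fintype.card G : ℝ) := by
  unfold uu
  rw [coeff_sum, Finsupp.finsetSum_apply]
  simp only [coeff_single, Finsupp.single_apply]
  rw [sum_ite_eq' univ c]
  simp

lemma card_pos' : (0 : ℝ) < Fintype.card G := by exact_mod_cast Fintype.card_pos

lemma cm (f g : MonoidAlgebra ℝ G) (x : G) :
    (f * g).coeff x = ∑ a : G, ∑ b : G, if a * b = x then f.coeff a * g.coeff b else 0 := by
  rw [coeff_mul, Finsupp.sum_fintype]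
  · refine sum_congr rfl fun a _ => ?_
    rw [Finsupp.sum_fintype]
    intro b
    simp
  · intro a
    simp

lemma cm' (f g : MonoidAlgebra ℝ G) (x : G) :
    (f * g).coeff x = ∑ a : G, f.coeff a * g.coeff (a⁻¹ * x) := by
  rw [cm]
  refine sum_congr rfl fun a _ => ?_
  have : ∀ b : G, (if a * b = x then f.coeff a * g.coeff b else 0) =
      if b = a⁻¹ * x then f.coeff a * g.coeff b else 0 := by
    intro b
    congr 1
    rw [eq_inv_mul_iff_mul_eq]
  simp only [this]
  rw [sum_ite_eq' univ (a⁻¹ * x)]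
  simp

lemma l1_nonneg (f : MonoidAlgebra ℝ G) : 0 ≤ l1 f := sum_nonneg fun _ _ => abs_nonneg _

lemma l1_add (f g : MonoidAlgebra ℝ G) : l1 (f + g) ≤ l1 f + l1 g := by
  unfold l1
  rw [← sum_add_distrib]
  refine sum_le_sum fun x _ => ?_
  rw [coeff_add, Finsupp.add_apply]
  exact abs_add_le _ _

lemma l1_smul (c : ℝ) (f : MonoidAlgebra ℝ G) : l1 (c • f) = |c| * l1 f := by
  unfold l1
  rw [mul_sum]
  refine sum_congr rfl fun x _ => ?_
  rw [coeff_smul, Finsupp.smul_apply, smul_eq_mul, abs_mul]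

lemma l1_zero : l1 (0 : MonoidAlgebra ℝ G) = 0 := by
  unfold l1
  simp

lemma l1_sum {ι : Type} (s : Finset ι) (f : ι → MonoidAlgebra ℝ G) :
    l1 (∑ i ∈ s, f i) ≤ ∑ i ∈ s, l1 (f i) := by
  induction s using Finset.induction_on with
  | empty => simp [l1_zero]
  | insert i s hi ih =>
    rw [sum_insert hi, sum_insert hi]
    exact (l1_add _ _).trans (by linarith)

lemma l1_neg (f : MonoidAlgebra ℝ G) : l1 (-f) = l1 f := by
  unfold l1
  refine sum_congr rfl fun x _ => ?_
  rw [coeff_neg, Finsupp.neg_apply, abs_neg]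

lemma l1_sub (f g : MonoidAlgebra ℝ G) : l1 (f - g) ≤ l1 f + l1 g := by
  rw [sub_eq_add_neg, ← l1_neg g]
  exact l1_add _ _

lemma l1_mul (f g : MonoidAlgebra ℝ G) : l1 (f * g) ≤ l1 f * l1 g := by
  unfold l1
  calc ∑ x : G, |(f * g).coeff x| ≤ ∑ x : G, ∑ a : G, |f.coeff a| * |g.coeff (a⁻¹ * x)| := by
        refine sum_le_sum fun x _ => ?_
        rw [cm']
        refine (abs_sum_le_sum_abs _ _).trans (le_of_eq ?_)
        refine sum_congr rfl fun a _ => ?_
        rw [abs_mul]
    _ = ∑ a : G, |f.coeff a| * ∑ x : G, |g.coeff (a⁻¹ * x)| := by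
        rw [sum_comm]
        refine sum_congr rfl fun a _ => ?_
        rw [mul_sum]
    _ = ∑ a : G, |f.coeff a| * ∑ x : G, |g.coeff x| := by
        refine sum_congr rfl fun a _ => ?_
        congr 1
        exact Fintype.sum_equiv (Equiv.mulLeft a⁻¹) _ _ fun x => rfl
    _ = _ := by rw [sum_mul]

lemma tot_add (f g : MonoidAlgebra ℝ G) : tot (f + g) = tot f + tot g := by
  unfold tot
  rw [← sum_add_distrib]
  refine sum_congr rfl fun x _ => ?_
  rw [coeff_add, Finsupp.add_apply]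

lemma tot_sub (f g : MonoidAlgebra ℝ G) : tot (f - g) = tot f - tot g := by
  unfold tot
  rw [← sum_sub_distrib]
  refine sum_congr rfl fun x _ => ?_
  rw [coeff_sub, Finsupp.sub_apply]

lemma tot_smul (c : ℝ) (f : MonoidAlgebra ℝ G) : tot (c • f) = c * tot f := by
  unfold tot
  rw [mul_sum]
  refine sum_congr rfl fun x _ => ?_
  rw [coeff_smul, Finsupp.smul_apply, smul_eq_mul]

lemma tot_mul (f g : MonoidAlgebra ℝ G) : tot (f * g) = tot f * tot g := by
  unfold tot
  calc ∑ x : G, (f * g).coeff x = ∑ x : G, ∑ a : G, f.coeff a * g.coeff (a⁻¹ * x) := by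
        refine sum_congr rfl fun x _ => ?_
        rw [cm']
    _ = ∑ a : G, f.coeff a * ∑ x : G, g.coeff (a⁻¹ * x) := by
        rw [sum_comm]
        refine sum_congr rfl fun a _ => ?_
        rw [mul_sum]
    _ = ∑ a : G, f.coeff a * ∑ x : G, g.coeff x := by
        refine sum_congr rfl fun a _ => ?_
        congr 1
        exact Fintype.sum_equiv (Equiv.mulLeft a⁻¹) _ _ fun x => rfl
    _ = _ := by rw [sum_mul]

lemma tot_single (g : G) (r : ℝ) : tot (single g r) = r := by
  unfold tot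
  simp only [coeff_single, Finsupp.single_apply]
  rw [sum_ite_eq univ g]
  simp

lemma tot_one : tot (1 : MonoidAlgebra ℝ G) = 1 := by
  rw [one_def]
  exact tot_single _ _

lemma tot_pow (f : MonoidAlgebra ℝ G) (n : ℕ) : tot (f ^ n) = tot f ^ n := by
  induction n with
  | zero => rw [pow_zero, pow_zero, tot_one]
  | succ n ih => rw [pow_succ, pow_succ, tot_mul, ih]

lemma tot_uu : tot (uu G) = 1 := by
  unfold tot
  rw [sum_congr rfl fun x _ => uu_coeff x, sum_const, Finset.card_univ, nsmul_eq_mul]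
  have := card_pos' (G := G)
  field_simp

lemma l1_uu : l1 (uu G) = 1 := by
  have h := tot_uu (G := G)
  unfold l1
  unfold tot at h
  rw [← h]
  refine sum_congr rfl fun x _ => ?_
  rw [uu_coeff, abs_of_nonneg (by positivity)]

lemma l1_of_nonneg {f : MonoidAlgebra ℝ G} (hf : ∀ g, 0 ≤ f.coeff g) : l1 f = tot f := by
  unfold l1 tot
  exact sum_congr rfl fun x _ => abs_of_nonneg (hf x)

lemma abs_tot_le (f : MonoidAlgebra ℝ G) : |tot f| ≤ l1 f := abs_sum_le_sum_abs _ _

lemma ext' {f g : MonoidAlgebra ℝ G} (h : ∀ x, f.coeff x = g.coeff x) : f = g := by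
  apply coeff_injective
  ext x
  exact h x

lemma mul_uu (f : MonoidAlgebra ℝ G) : f * uu G = tot f • uu G := by
  apply ext'
  intro x
  rw [cm', coeff_smul, Finsupp.smul_apply, smul_eq_mul, uu_coeff]
  unfold tot
  rw [sum_mul]
  refine sum_congr rfl fun a _ => ?_
  rw [uu_coeff]

lemma one_coeff_nonneg (x : G) : 0 ≤ (1 : MonoidAlgebra ℝ G).coeff x := by
  rw [one_def, coeff_single, Finsupp.single_apply]
  split_ifs <;> norm_num

lemma mul_coeff_nonneg {f g : MonoidAlgebra ℝ G} (hf : ∀ x, 0 ≤ f.coeff x)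
    (hg : ∀ x, 0 ≤ g.coeff x) (x : G) : 0 ≤ (f * g).coeff x := by
  rw [cm']
  exact sum_nonneg fun a _ => mul_nonneg (hf a) (hg _)

lemma pow_coeff_nonneg {f : MonoidAlgebra ℝ G} (hf : ∀ x, 0 ≤ f.coeff x) (n : ℕ) (x : G) :
    0 ≤ (f ^ n).coeff x := by
  induction n generalizing x with
  | zero => rw [pow_zero]; exact one_coeff_nonneg x
  | succ n ih => rw [pow_succ]; exact mul_coeff_nonneg ih hf x

lemma l1_pow_le (f : MonoidAlgebra ℝ G) (n : ℕ) : l1 (f ^ n) ≤ l1 f ^ n := by
  induction n with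
  | zero =>
    rw [pow_zero, pow_zero, l1_of_nonneg one_coeff_nonneg, tot_one]
  | succ n ih =>
    rw [pow_succ, pow_succ]
    exact (l1_mul _ _).trans (mul_le_mul_of_nonneg_right ih (l1_nonneg f))

/-- pointwise lower bound for a product of two nearly uniform distributions -/
theorem lower_mul {f g : MonoidAlgebra ℝ G} (hf : ∀ x, 0 ≤ f.coeff x) (hg : ∀ x, 0 ≤ g.coeff x)
    (hf1 : tot f = 1) (hg1 : tot g = 1) {ε : ℝ} (h1 : l1 (f - uu G) ≤ ε)
    (h2 : l1 (g - uu G) ≤ ε) (c : G) :
    (1 - ε) / (Fintype.card G : ℝ) ≤ (f * g).coeff c := by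
  set u : ℝ := 1 / (Fintype.card G : ℝ) with hu
  have hcp := card_pos' (G := G)
  have hu0 : 0 < u := by positivity
  have hmin : ∀ φ : MonoidAlgebra ℝ G, tot φ = 1 → l1 (φ - uu G) ≤ ε →
      1 - ε / 2 ≤ ∑ x : G, min (φ.coeff x) u := by
    intro φ hφ hl
    have e : ∀ x : G, min (φ.coeff x) u = (φ.coeff x + u - |(φ - uu G).coeff x|) / 2 := by
      intro x
      rw [coeff_sub, Finsupp.sub_apply, uu_coeff, ← hu]
      rcases le_total (φ.coeff x) u with h | h
      · rw [min_eq_left h, abs_of_nonpos (by linarith)]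
        ring
      · rw [min_eq_right h, abs_of_nonneg (by linarith)]
        ring
    rw [sum_congr rfl fun x _ => e x, ← sum_div, sum_sub_distrib, sum_add_distrib, sum_const,
      Finset.card_univ, nsmul_eq_mul]
    have e2 : (Fintype.card G : ℝ) * u = 1 := by rw [hu]; field_simp
    unfold l1 at hl
    unfold tot at hφ
    rw [hφ, e2]
    linarith
  have m1 := hmin f hf1 h1
  have m2 := hmin g hg1 h2
  have key : ∑ x : G, (u * min (f.coeff x) u + u * min (g.coeff (x⁻¹ * c)) u - u * u) ≤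
      (f * g).coeff c := by
    rw [cm']
    refine sum_le_sum fun x _ => ?_
    have a1 := min_le_left (f.coeff x) u
    have a2 := min_le_right (f.coeff x) u
    have b1 := min_le_left (g.coeff (x⁻¹ * c)) u
    have b2 := min_le_right (g.coeff (x⁻¹ * c)) u
    have a3 : 0 ≤ min (f.coeff x) u := le_min (hf x) hu0.le
    have b3 : 0 ≤ min (g.coeff (x⁻¹ * c)) u := le_min (hg _) hu0.le
    have c1 : min (f.coeff x) u * min (g.coeff (x⁻¹ * c)) u ≤ f.coeff x * g.coeff (x⁻¹ * c) :=
      mul_le_mul a1 b1 b3 (hf x)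
    nlinarith [mul_nonneg (sub_nonneg.2 a2) (sub_nonneg.2 b2)]
  refine le_trans ?_ key
  rw [sum_sub_distrib, sum_add_distrib, ← mul_sum, ← mul_sum, sum_const, Finset.card_univ,
    nsmul_eq_mul]
  have e3 : ∑ x : G, min (g.coeff (x⁻¹ * c)) u = ∑ x : G, min (g.coeff x) u :=
    Fintype.sum_equiv ((Equiv.inv G).trans (Equiv.mulRight c)) _ _ fun x => rfl
  rw [e3]
  have e2 : (Fintype.card G : ℝ) * (u * u) = u := by rw [hu]; field_simp
  rw [e2]
  have e4 : (1 - ε) / (Fintype.card G : ℝ) = u * (1 - ε) := by rw [hu]; ring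
  rw [e4]
  nlinarith

end

end Pool.Agent.Q299.TPC
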