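import Pool.Agent.H38R2.CG3.Link
import Pool.Agent.Q299.TPC.Esym

/-!
# Classes of the products of `k` primes from a subset of the primes of `(y, 2y]`
-/

set_option autoImplicit false

namespace Pool.Agent.Q299.TPC

open Finset Filter NumberField Pool.Agent.H38R2.CG Pool.Agent.H38R2.CG2 Pool.Agent.H38R2.CG3
open scoped Classical

section

variable (K : Type) [Field K] [NumberField K]

/-- number of ideals of norm `p` -/
noncomputable def wK (p : ℕ) : ℝ :=
  (Nat.card {I : Ideal (𝓞 K) // Ideal.absNorm I = p} : ℝ)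

/-- number of products with given class -/
noncomputable def MA (k : ℕ) (A : Finset ℕ) (C : ClassGroup (𝓞 K)) : ℝ :=
  MC K (A.powersetCard k) (fun _ => 1) C

lemma MA_nonneg (k : ℕ) (A : Finset ℕ) (C : ClassGroup (𝓞 K)) : 0 ≤ MA K k A C := by
  unfold MA MC
  positivity

lemma MA_mono (k : ℕ) {A B : Finset ℕ} (h : A ⊆ B) (C : ClassGroup (𝓞 K)) :
    MA K k A C ≤ MA K k B C := by
  unfold MA MC
  refine sum_le_sum_of_subset_of_nonneg (powersetCard_mono h) fun s _ _ => by positivity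

/-- the second moment -/
lemma equi_sq {y k : ℕ} {t : ℝ} (hE : Equi K y k t) :
    (Nat.card (ClassGroup (𝓞 K)) : ℝ) * ∑ C : ClassGroup (𝓞 K), MA K k (PP y) C ^ 2 ≤
      (1 + t) * (∑ C : ClassGroup (𝓞 K), MA K k (PP y) C) ^ 2 := by
  obtain ⟨h0, h1⟩ := hE
  set h : ℝ := (Nat.card (ClassGroup (𝓞 K)) : ℝ) with hh
  have hpos : 0 < h := by rw [hh]; exact_mod_cast Nat.card_pos
  set T : ℕ := ∑ C : ClassGroup (𝓞 K), cnt K y k C with hT
  have hTr : (0 : ℝ) < T := by exact_mod_cast h0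
  have hcnt : ∀ C : ClassGroup (𝓞 K), MA K k (PP y) C = (cnt K y k C : ℝ) := fun C =>
    (cnt_eq K y k C).symm
  have hsumT : ∑ C : ClassGroup (𝓞 K), (cnt K y k C : ℝ) = T := by
    rw [hT]; push_cast; rfl
  simp only [hcnt]
  rw [hsumT]
  have e1 : ∑ C : ClassGroup (𝓞 K), ((cnt K y k C : ℝ) / (T : ℝ) - 1 / h) ^ 2 =
      (∑ C : ClassGroup (𝓞 K), (cnt K y k C : ℝ) ^ 2) / (T : ℝ) ^ 2 - 1 / h := by
    have e2 : ∀ C : ClassGroup (𝓞 K), ((cnt K y k C : ℝ) / (T : ℝ) - 1 / h) ^ 2 =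
        (cnt K y k C : ℝ) ^ 2 / (T : ℝ) ^ 2 -
          (cnt K y k C : ℝ) * (2 / ((T : ℝ) * h)) + 1 / h ^ 2 := by
      intro C
      field_simp
      ring
    rw [Finset.sum_congr rfl fun C _ => e2 C, Finset.sum_add_distrib, Finset.sum_sub_distrib,
      ← Finset.sum_div, ← Finset.sum_mul, Finset.sum_const, nsmul_eq_mul, Finset.card_univ, hsumT]
    have e4 : (Fintype.card (ClassGroup (𝓞 K)) : ℝ) = h := by
      rw [hh, Nat.card_eq_fintype_card]
    rw [e4]
    field_simp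
    ring
  rw [e1, div_le_iff₀ hpos] at h1
  have h2 : t * (1 / h) ^ 2 * h = t / h := by field_simp
  rw [h2] at h1
  have h3 : (∑ C : ClassGroup (𝓞 K), (cnt K y k C : ℝ) ^ 2) / (T : ℝ) ^ 2 ≤ (1 + t) / h := by
    have : (1 + t) / h = 1 / h + t / h := by ring
    rw [this]
    linarith
  rw [div_le_div_iff₀ (by positivity) hpos] at h3
  linarith

/-- **spreading**: products of `k` primes from `A` lying in few classes are few -/
theorem spread {y k : ℕ} {t : ℝ} (ht : 0 ≤ t) (hE : Equi K y k t) {A : Finset ℕ} (hA : A ⊆ PP y)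
    (Cs : Finset (ClassGroup (𝓞 K))) (hC : ∀ C ∉ Cs, MA K k A C = 0) :
    (Nat.card (ClassGroup (𝓞 K)) : ℝ) * (∑ C : ClassGroup (𝓞 K), MA K k A C) ^ 2 ≤
      (1 + t) * Cs.card * (∑ C : ClassGroup (𝓞 K), MA K k (PP y) C) ^ 2 := by
  have h1 : ∑ C : ClassGroup (𝓞 K), MA K k A C = ∑ C ∈ Cs, MA K k A C := by
    symm
    apply sum_subset (subset_univ _)
    intro C _ hCs
    exact hC C hCs
  have h2 : (∑ C ∈ Cs, MA K k A C) ^ 2 ≤ Cs.card * ∑ C ∈ Cs, MA K k A C ^ 2 :=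
    sq_sum_le_card_mul_sum_sq
  have h3 : ∑ C ∈ Cs, MA K k A C ^ 2 ≤ ∑ C : ClassGroup (𝓞 K), MA K k (PP y) C ^ 2 := by
    refine (sum_le_sum_of_subset_of_nonneg (subset_univ _) fun C _ _ => sq_nonneg _).trans ?_
    refine sum_le_sum fun C _ => ?_
    exact pow_le_pow_left₀ (MA_nonneg K k A C) (MA_mono K k hA C) 2
  have h4 := equi_sq K hE
  have hh : (0 : ℝ) ≤ (Nat.card (ClassGroup (𝓞 K)) : ℝ) := Nat.cast_nonneg _
  calc (Nat.card (ClassGroup (𝓞 K)) : ℝ) * (∑ C : ClassGroup (𝓞 K), MA K k A C) ^ 2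
      ≤ (Nat.card (ClassGroup (𝓞 K)) : ℝ) *
          (Cs.card * ∑ C : ClassGroup (𝓞 K), MA K k (PP y) C ^ 2) := by
        rw [h1]
        refine mul_le_mul_of_nonneg_left (h2.trans ?_) hh
        exact mul_le_mul_of_nonneg_left h3 (Nat.cast_nonneg _)
    _ = Cs.card * ((Nat.card (ClassGroup (𝓞 K)) : ℝ) *
          ∑ C : ClassGroup (𝓞 K), MA K k (PP y) C ^ 2) := by ring
    _ ≤ Cs.card * ((1 + t) * (∑ C : ClassGroup (𝓞 K), MA K k (PP y) C) ^ 2) :=
        mul_le_mul_of_nonneg_left h4 (Nat.cast_nonneg _)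
    _ = _ := by ring

/-- the total number of products is the elementary symmetric sum -/
lemma sum_MA (hN1 : P_N1) (D : ℕ) (hD : IsFund D) (h2 : Module.finrank ℚ K = 2)
    (hK : NumberField.discr K = (D : ℤ)) (k : ℕ) (A : Finset ℕ)
    (hA : ∀ p ∈ A, p.Prime ∧ p ≠ 2)
    (hsum : ∑ C : ClassGroup (𝓞 K), MC K (A.powersetCard k) (fun _ => 1) C =
      MD D (A.powersetCard k) (fun _ => 1)) :
    ∑ C : ClassGroup (𝓞 K), MA K k A C = es (wK K) A k := by
  unfold MA
  rw [hsum]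
  unfold MD es
  refine sum_congr rfl fun s hs => ?_
  rw [one_mul]
  refine prod_congr rfl fun p hp => ?_
  have hpA := hA p ((mem_powersetCard.1 hs).1 hp)
  have h3 := hN1 K D hD h2 hK {p} (by
    intro q hq
    rw [mem_singleton] at hq
    rw [hq]
    exact hpA)
  rw [prod_singleton] at h3
  have e : prodS {p} = p := by
    unfold prodS
    rw [prod_singleton]
  rw [e] at h3
  unfold wK
  have h4 : ((Nat.card {I : Ideal (𝓞 K) // Ideal.absNorm I = p} : ℤ) : ℝ) =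
      ((1 + chi D p : ℤ) : ℝ) := by rw [h3]
  push_cast at h4
  rw [← h4]

lemma wK_bd (hN1 : P_N1) (D : ℕ) (hD : IsFund D) (h2 : Module.finrank ℚ K = 2)
    (hK : NumberField.discr K = (D : ℤ)) {p : ℕ} (hp : p.Prime ∧ p ≠ 2) :
    0 ≤ wK K p ∧ wK K p ≤ 2 := by
  have h3 := hN1 K D hD h2 hK {p} (by
    intro q hq
    rw [mem_singleton] at hq
    rw [hq]
    exact hp)
  rw [prod_singleton] at h3
  have e : prodS {p} = p := by
    unfold prodS
    rw [prod_singleton]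
  rw [e] at h3
  constructor
  · unfold wK; positivity
  · have h4 : chi D p ≤ 1 := by
      unfold chi
      have h5 : padicValNat 2 p = 0 := by
        apply padicValNat.eq_zero_of_not_dvd
        intro h6
        exact hp.2 ((Nat.prime_dvd_prime_iff_eq Nat.prime_two hp.1).1 h6).symm
      rw [h5, pow_zero, pow_zero, one_mul]
      rcases jacobiSym.trichotomy (D : ℤ) (p / 1) with h | h | h <;> rw [h] <;> norm_num
    unfold wK
    have h5 : (Nat.card {I : Ideal (𝓞 K) // Ideal.absNorm I = p} : ℤ) ≤ 2 := by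
      rw [h3]; linarith
    exact_mod_cast h5

end

end Pool.Agent.Q299.TPC
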