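import Pool.Agent.H38R2.CG3.Par

/-!
# Size of the parameters, second version
-/

set_option autoImplicit false

namespace Pool.Agent.Q299.TPC

open Finset Filter NumberField Pool.Agent.H38R2.CG Pool.Agent.H38R2.CG2 Pool.Agent.H38R2.CG3
open scoped Classical

lemma ev_L2 (a : ℝ) (ha : 2 < a) : ∀ᶠ L : ℝ in atTop,
    100 ≤ L ∧ 6 * a ≤ L ∧ 22 ≤ Real.log L ∧ a * Real.log L ≤ L / 10 ∧ 20 ≤ L ^ a ∧
    L ^ (-((a - 2) / 2)) ≤ 1 / 320 := by
  have e1 : ∀ᶠ L : ℝ in atTop, 100 ≤ L := eventually_ge_atTop 100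
  have e2 : ∀ᶠ L : ℝ in atTop, 6 * a ≤ L := eventually_ge_atTop _
  have e3 : ∀ᶠ L : ℝ in atTop, 22 ≤ Real.log L :=
    Real.tendsto_log_atTop.eventually_ge_atTop _
  have e4 : ∀ᶠ L : ℝ in atTop, ‖Real.log L‖ ≤ (1 / (10 * a)) * ‖L‖ :=
    Real.isLittleO_log_id_atTop.bound (by positivity)
  have e5 : ∀ᶠ L : ℝ in atTop, 20 ≤ L ^ a :=
    (tendsto_rpow_atTop (by linarith)).eventually_ge_atTop _
  have e6 : ∀ᶠ L : ℝ in atTop, L ^ (-((a - 2) / 2)) ≤ 1 / 320 :=
    (tendsto_rpow_neg_atTop (by linarith : 0 < (a - 2) / 2)).eventually (ge_mem_nhds (by norm_num))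
  filter_upwards [e1, e2, e3, e4, e5, e6] with L h1 h2 h3 h4 h5 h6
  refine ⟨h1, h2, h3, ?_, h5, h6⟩
  rw [Real.norm_eq_abs, Real.norm_eq_abs, abs_of_nonneg (by linarith), abs_of_pos (by linarith)] at h4
  have ha0 : 0 < a := by linarith
  calc a * Real.log L ≤ a * (1 / (10 * a) * L) := mul_le_mul_of_nonneg_left h4 ha0.le
    _ = L / 10 := by field_simp

/-- the sizes of the parameters -/
structure Nums (a : ℝ) (y k n : ℕ) (d : ℝ) : Prop where
  hy : 2 * (y : ℝ) ≤ (Real.log d) ^ a
  hk : 2 * (k : ℝ) ≤ Real.log d / Real.log (Real.log d)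
  hy2 : 2 ≤ y
  hk1 : 1 ≤ k
  hkn : k ≤ n + 1
  hkk : 40 * (k : ℝ) ^ 2 ≤ ((n : ℝ) + 1 - k) / 2
  hW : (Real.log d) ^ a / (20 * a * Real.log (Real.log d)) ≤ ((n : ℝ) + 1 - k) / 2
  hka : a * k * Real.log (Real.log d) ≤ 2 * Real.log d
  hll : 1 ≤ Real.log (Real.log d)
  hl : 1 ≤ Real.log d
  hlle : Real.log (Real.log d) ≤ Real.log d

lemma nums (hNB : P_NB) (h2NB : P2_NB) (a : ℝ) (ha : 2 < a) :
    ∃ X1 : ℕ, ∀ X : ℕ, X1 ≤ X → ∀ d : ℝ, (X : ℝ) / 4 ≤ d → d ≤ 2 * X →
      Nums a (yA a X) (kA a X) (PP (yA a X)).card d := by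
  obtain ⟨X1, hX1⟩ := params a ha
  obtain ⟨-, y0, hy0⟩ := hNB
  obtain ⟨X2, hX2⟩ := h2NB a ha 1 one_pos
  have ht : Tendsto (fun X : ℕ => Real.log (X : ℝ)) atTop atTop :=
    Real.tendsto_log_atTop.comp tendsto_natCast_atTop_atTop
  obtain ⟨X3, hX3⟩ := Filter.eventually_atTop.1 (ht.eventually (ev_L2 a ha))
  have hty : Tendsto (fun X : ℕ => yA a X) atTop atTop := by
    unfold yA
    apply tendsto_nat_floor_atTop.comp
    apply Filter.Tendsto.atTop_div_const (by norm_num)
    exact (tendsto_rpow_atTop (by linarith)).comp ht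
  obtain ⟨X4, hX4⟩ := Filter.eventually_atTop.1 (hty.eventually_ge_atTop y0)
  refine ⟨max (max X1 X2) (max X3 (max X4 4)), ?_⟩
  intro X hX d hd hd2
  obtain ⟨p1, p2, p3⟩ := hX1 X ((le_max_left _ _).trans ((le_max_left _ _).trans hX)) d hd hd2
  obtain ⟨q1, -, -, -, q5, -, q7, -⟩ := hX2 X ((le_max_right _ _).trans ((le_max_left _ _).trans hX))
  obtain ⟨r1, r2, r3, r4, r5, r6⟩ := hX3 X ((le_max_left _ _).trans ((le_max_right _ _).trans hX))
  have hyy := hX4 X ((le_max_left _ _).trans ((le_max_right _ _).trans ((le_max_right _ _).trans hX)))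
  have hX5 : 4 ≤ X := (le_max_right _ _).trans ((le_max_right _ _).trans
    ((le_max_right _ _).trans hX))
  obtain ⟨s1, -⟩ := hy0 _ hyy
  have hX4 : (4 : ℝ) ≤ X := by exact_mod_cast hX5
  set L := Real.log (X : ℝ) with hL
  have hL0 : 0 < L := by linarith
  have ha0 : 0 < a := by linarith
  set n := (PP (yA a X)).card with hn
  have hPA : ((PA a X).card : ℝ) = n := rfl
  set k := kA a X with hkdef
  set y := yA a X with hydef
  have hy : (y : ℝ) ≤ L ^ a / 4 := Nat.floor_le (by positivity)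
  have hy1 : L ^ a / 4 - 1 < (y : ℝ) := by
    have := Nat.lt_floor_add_one (L ^ a / 4)
    rw [hydef]
    unfold yA
    linarith
  have hy5 : L ^ a / 5 ≤ (y : ℝ) := by linarith
  have hypos : (0 : ℝ) < y := by positivity
  have hlogL : 0 < Real.log L := by linarith
  have hlogy_lo : a * Real.log L - 2 ≤ Real.log y := by
    have h5 : Real.log (L ^ a / 5) ≤ Real.log y := Real.log_le_log (by positivity) hy5
    rw [Real.log_div (by positivity) (by norm_num), Real.log_rpow hL0] at h5
    have h8 : Real.log 5 ≤ 2 := by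
      rw [Real.log_le_iff_le_exp (by norm_num)]
      have := Real.exp_one_gt_d9
      have h9 : Real.exp 2 = Real.exp 1 * Real.exp 1 := by rw [← Real.exp_add]; norm_num
      rw [h9]
      nlinarith
    linarith
  have hlogy_hi : Real.log y ≤ a * Real.log L := by
    have h5 : Real.log y ≤ Real.log (L ^ a) := by
      apply Real.log_le_log hypos
      have : 0 < L ^ a := by positivity
      linarith
    rwa [Real.log_rpow hL0] at h5
  have halog : 44 ≤ a * Real.log L := by nlinarith
  have hlogy0 : 0 < Real.log y := by linarith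
  have hdlow : L - 2 ≤ Real.log d := by
    have h1 : Real.log ((X : ℝ) / 4) ≤ Real.log d := Real.log_le_log (by positivity) hd
    rw [Real.log_div (by positivity) (by norm_num)] at h1
    have h4' : Real.log 4 ≤ 2 := by
      rw [show (4 : ℝ) = 2 ^ 2 by norm_num, Real.log_pow]
      have := Real.log_two_lt_d9
      push_cast
      linarith
    linarith
  have hdup : Real.log d ≤ L + 1 := by
    have h1 : Real.log d ≤ Real.log (2 * X) := Real.log_le_log (by linarith) hd2
    rw [Real.log_mul (by norm_num) (by positivity)] at h1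
    have := Real.log_two_lt_d9
    linarith
  have hlog2 := Real.log_two_lt_d9
  have hll_lo : 5 / 6 * Real.log L ≤ Real.log (Real.log d) := by
    have h1 : Real.log (L / 2) ≤ Real.log (Real.log d) :=
      Real.log_le_log (by positivity) (by linarith)
    rw [Real.log_div hL0.ne' (by norm_num)] at h1
    linarith
  have hll_hi : Real.log (Real.log d) ≤ 11 / 10 * Real.log L := by
    have h1 : Real.log (Real.log d) ≤ Real.log (2 * L) :=
      Real.log_le_log (by linarith) (by linarith)
    rw [Real.log_mul (by norm_num) hL0.ne'] at h1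
    linarith
  have hk1 : 1 ≤ k := by
    rw [hkdef]
    unfold kA
    omega
  have hk1r : (1 : ℝ) ≤ k := by exact_mod_cast hk1
  rw [hPA] at q1
  have hn0 : (0 : ℝ) ≤ n := Nat.cast_nonneg _
  have hkn : 320 * (k : ℝ) ^ 2 ≤ n := by
    have h1 : (k : ℝ) ^ 2 ≤ 1 / 320 * n := q1.trans (mul_le_mul_of_nonneg_right r6 hn0)
    linarith
  have hkk : (k : ℝ) ≤ (k : ℝ) ^ 2 := by nlinarith
  have hW0 : 49 / 100 * (n : ℝ) ≤ ((n : ℝ) + 1 - k) / 2 := by linarith
  -- upper bound for k
  have hkup : (k : ℝ) ≤ 6 / 5 * (L / (a * Real.log L)) := by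
    have hk2 : (k : ℝ) ≤ L / Real.log y + 1 := by
      rw [hkdef]
      unfold kA
      push_cast
      have hth := th_lt_one a ha
      have h7 : (⌊th a * Real.log X / Real.log (yA a X)⌋₊ : ℝ) ≤
          th a * L / Real.log (yA a X) := by
        apply Nat.floor_le
        apply div_nonneg (mul_nonneg hth.2 hL0.le)
        exact hlogy0.le
      have h8 : th a * L / Real.log (yA a X) ≤ L / Real.log (yA a X) := by
        apply div_le_div_of_nonneg_right _ hlogy0.le
        nlinarith [hth.1]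
      linarith
    have h9 : L / Real.log y ≤ 11 / 10 * (L / (a * Real.log L)) := by
      rw [mul_div_assoc', div_le_div_iff₀ hlogy0 (by positivity)]
      nlinarith
    have h10 : 1 ≤ 1 / 10 * (L / (a * Real.log L)) := by
      rw [mul_div_assoc', le_div_iff₀ (by positivity)]
      linarith
    linarith
  have hn_lo : 18 / 100 * (L ^ a / (a * Real.log L)) ≤ n := by
    refine le_trans ?_ s1
    rw [mul_div_assoc', div_le_div_iff₀ (by positivity) hlogy0]
    have hLa : 0 < L ^ a := by positivity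
    have h1 : 18 / 100 * L ^ a ≤ 9 / 10 * y := by linarith
    exact mul_le_mul h1 hlogy_hi hlogy0.le (by positivity)
  have hLa_up : (Real.log d) ^ a ≤ 6 / 5 * L ^ a := by
    have h1 : (Real.log d) ^ a ≤ (L + 1) ^ a :=
      Real.rpow_le_rpow (by linarith) hdup (by linarith)
    refine h1.trans ?_
    have h2 : L + 1 = L * (1 + 1 / L) := by field_simp
    rw [h2, Real.mul_rpow hL0.le (by positivity), mul_comm]
    apply mul_le_mul_of_nonneg_right _ (by positivity)
    have h3 : 1 + 1 / L ≤ Real.exp (1 / L) := by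
      have := Real.add_one_le_exp (1 / L)
      linarith
    have h4 : (1 + 1 / L) ^ a ≤ Real.exp (a / L) := by
      calc (1 + 1 / L) ^ a ≤ (Real.exp (1 / L)) ^ a :=
            Real.rpow_le_rpow (by positivity) h3 (by linarith)
        _ = Real.exp (a / L) := by
            rw [← Real.exp_mul]
            congr 1
            field_simp
    refine h4.trans ?_
    have h5 : a / L ≤ 1 / 6 := by
      rw [div_le_div_iff₀ hL0 (by norm_num)]
      linarith
    have h6 : Real.exp (a / L) ≤ Real.exp (1 / 6) := Real.exp_le_exp.2 h5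
    have h7 : 1 - 1 / 6 ≤ Real.exp (-(1 / 6 : ℝ)) := Real.one_sub_le_exp_neg _
    have h8 : Real.exp (1 / 6) * Real.exp (-(1 / 6 : ℝ)) = 1 := by
      rw [← Real.exp_add]; norm_num
    have h9 : 0 < Real.exp (1 / 6) := Real.exp_pos _
    nlinarith
  refine ⟨p1, p2, p3, hk1, ?_, ?_, ?_, ?_, ?_, ?_, ?_⟩
  · have : (k : ℝ) ≤ (n : ℝ) + 1 := by linarith
    exact_mod_cast this
  · linarith
  · refine le_trans ?_ hW0
    have hll0 : 0 < Real.log (Real.log d) := by linarith
    rw [div_le_iff₀ (by positivity)]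
    have h1 : 18 / 100 * L ^ a ≤ n * (a * Real.log L) := by
      have := hn_lo
      rw [mul_div_assoc', div_le_iff₀ (by positivity)] at this
      exact this
    have h2 : (n : ℝ) * (a * Real.log L) ≤ n * (a * (6 / 5 * Real.log (Real.log d))) := by
      apply mul_le_mul_of_nonneg_left _ hn0
      apply mul_le_mul_of_nonneg_left _ ha0.le
      linarith
    have hLa : 0 < L ^ a := by positivity
    have h3 : (n : ℝ) * (a * (6 / 5 * Real.log (Real.log d))) =
        6 / 5 * (n * a * Real.log (Real.log d)) := by ring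
    have h4 : 49 / 100 * (n : ℝ) * (20 * a * Real.log (Real.log d)) =
        98 / 10 * (n * a * Real.log (Real.log d)) := by ring
    rw [h4]
    rw [h3] at h2
    linarith
  · have h1 : a * k * Real.log (Real.log d) ≤
        a * (6 / 5 * (L / (a * Real.log L))) * (11 / 10 * Real.log L) := by
      apply mul_le_mul _ hll_hi (by linarith) (by positivity)
      exact mul_le_mul_of_nonneg_left hkup ha0.le
    have h2 : a * (6 / 5 * (L / (a * Real.log L))) * (11 / 10 * Real.log L) = 66 / 50 * L := by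
      field_simp
      ring
    rw [h2] at h1
    linarith
  · linarith
  · linarith
  · have := Real.log_le_sub_one_of_pos (show 0 < Real.log d by linarith)
    linarith

end Pool.Agent.Q299.TPC
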