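import Pool.Agent.Q299.TPC.Rob
import Pool.Agent.Q299.TPC.Par2
import Pool.Agent.Q299.TPC.Bx

/-!
# The field statements for the non-exceptional discriminants
-/

set_option autoImplicit false

namespace Pool.Agent.Q299.TPC

open Finset Filter NumberField Pool.Agent.H38R2.CG Pool.Agent.H38R2.CG2 Pool.Agent.H38R2.CG3
open scoped Classical

lemma out_real {m : ℝ} (hm : 2 ≤ m) {w W : ℝ} {k : ℕ} (hk : 1 ≤ k) (hw : w ≤ W)
    (hW : 40 * (k : ℝ) ^ 2 ≤ W)
    (h : 2 * (k : ℝ) ≤ w → m * ((w - 2 * k) ^ k) ^ 2 ≤ 5 / 4 * (W ^ k) ^ 2) :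
    W * min (Real.log m / (8 * k)) (1 / 4) ≤ W - w := by
  have hk1 : (1 : ℝ) ≤ k := by exact_mod_cast hk
  have hk2 : (k : ℝ) ≤ (k : ℝ) ^ 2 := by nlinarith
  have hW0 : 0 < W := by nlinarith
  by_cases hw34 : w ≤ 3 / 4 * W
  · calc W * min (Real.log m / (8 * k)) (1 / 4) ≤ W * (1 / 4) :=
          mul_le_mul_of_nonneg_left (min_le_right _ _) hW0.le
      _ ≤ W - w := by linarith
  · push Not at hw34
    have h2k : 2 * (k : ℝ) ≤ w := by nlinarith
    have h1 := h h2k
    have hlm : 69 / 100 ≤ Real.log m := by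
      have h2 : Real.log 2 ≤ Real.log m := Real.log_le_log (by norm_num) hm
      have := Real.log_two_gt_d9
      linarith
    set q : ℝ := (w - 2 * k) / W with hq
    have hq7 : 7 / 10 ≤ q := by
      rw [hq, le_div_iff₀ hW0]
      nlinarith
    have hq0 : 0 < q := by linarith
    have hqW : w - 2 * k = q * W := by rw [hq]; field_simp
    have h3 : m * q ^ (2 * k) ≤ 5 / 4 := by
      rw [hqW] at h1
      have h4 : m * ((q * W) ^ k) ^ 2 = (m * q ^ (2 * k)) * (W ^ k) ^ 2 := by
        rw [mul_pow]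
        ring
      rw [h4] at h1
      exact le_of_mul_le_mul_right h1 (by positivity)
    have h4 : Real.log m + (2 * k) * Real.log q ≤ Real.log (5 / 4) := by
      have h5 := Real.log_le_log (by positivity) h3
      rw [Real.log_mul (by positivity) (by positivity), Real.log_pow] at h5
      push_cast at h5
      exact h5
    have h54 : Real.log (5 / 4) ≤ 23 / 100 := by
      rw [Real.log_le_iff_le_exp (by norm_num)]
      have h6 : 1 + 23 / 200 ≤ Real.exp (23 / 200 : ℝ) := by
        have := Real.add_one_le_exp (23 / 200 : ℝ)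
        linarith
      have h7 : Real.exp (23 / 100 : ℝ) = Real.exp (23 / 200) * Real.exp (23 / 200) := by
        rw [← Real.exp_add]; norm_num
      rw [h7]
      have h8 : 1 + 23 / 200 + (23 / 200) ^ 2 / 2 ≤ Real.exp (23 / 200 : ℝ) :=
        Real.quadratic_le_exp_of_nonneg (by norm_num)
      nlinarith
    have h6 : 1 - 1 / q ≤ Real.log q := by
      have := Real.one_sub_inv_le_log_of_pos hq0
      rw [one_div]
      exact this
    -- (1 - q) * (2 k) ≥ q (log m - log (5/4))
    have h7 : Real.log m * (2 / 3) ≤ (2 * k) * ((1 - q) / q) := by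
      have e : (1 - q) / q = 1 / q - 1 := by field_simp
      rw [e]
      have h8 : (2 * (k : ℝ)) * (-Real.log q) ≤ (2 * k) * (1 / q - 1) := by
        apply mul_le_mul_of_nonneg_left _ (by positivity)
        linarith
      linarith
    have h8 : Real.log m * (7 / 30) ≤ k * (1 - q) := by
      rw [← mul_div_assoc (2 * (k : ℝ)), le_div_iff₀ hq0] at h7
      have hlm0 : 0 ≤ Real.log m := by linarith
      nlinarith [mul_le_mul_of_nonneg_left hq7 hlm0]
    have h9 : W - w = W * (1 - q) - 2 * k := by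
      have : W * (1 - q) = W - (w - 2 * k) := by rw [hqW]; ring
      linarith
    have hkpos : (0 : ℝ) < k := by linarith
    have h10 : W * (Real.log m / (8 * k)) ≤ W - w := by
      rw [h9]
      have h11 : Real.log m / (8 * k) ≤ (1 - q) - 2 * k / W := by
        rw [div_le_iff₀ (by positivity)]
        have h12 : 2 * (k : ℝ) / W * (8 * k) ≤ 16 / 40 := by
          have e : 2 * (k : ℝ) / W * (8 * k) = 16 * (k : ℝ) ^ 2 / W := by ring
          rw [e, div_le_div_iff₀ hW0 (by norm_num)]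
          linarith
        have e2 : (1 - q - 2 * (k : ℝ) / W) * (8 * k) =
            8 * (k * (1 - q)) - 2 * (k : ℝ) / W * (8 * k) := by ring
        rw [e2]
        linarith
      calc W * (Real.log m / (8 * k)) ≤ W * ((1 - q) - 2 * k / W) :=
            mul_le_mul_of_nonneg_left h11 hW0.le
        _ = W * (1 - q) - 2 * k := by field_simp
    exact (mul_le_mul_of_nonneg_left (min_le_left _ _) hW0.le).trans h10

/-- base facts for non-exceptional discriminants -/
theorem base_of (hSPL : P_SPL) (hN0 : P_N0) (hN1 : P_N1) (hN3 : P_N3) (h4 : P_N4) (hKF : P_KF)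
    (h5b : P_N5b) (hN6 : P_N6) (a : ℝ) (X D : ℕ) (hy : 2 ≤ yA a X) (hD : IsFund D)
    (K : Type) [Field K] [NumberField K] (h2 : Module.finrank ℚ K = 2)
    (hK : NumberField.discr K = (D : ℤ)) (hne : ¬ Bx a (1 / 4) X D) :
    Base K (yA a X) (kA a X) ∧
      1 / 2 * ((PP (yA a X)).card.choose (kA a X) : ℝ) ≤ es (wK K) (PP (yA a X)) (kA a X) := by
  unfold Bx at hne
  push Not at hne
  obtain ⟨hne1, hne2⟩ := hne
  have hPP : ∀ p ∈ PP (yA a X), p.Prime ∧ p ≠ 2 := by
    intro p hp
    simp only [PP, mem_filter, mem_Ioc] at hp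
    exact ⟨hp.2, by omega⟩
  have hsum : ∀ A : Finset ℕ, A ⊆ PP (yA a X) →
      ∑ C : ClassGroup (𝓞 K), MC K (A.powersetCard (kA a X)) (fun _ => 1) C =
        MD D (A.powersetCard (kA a X)) (fun _ => 1) := by
    intro A hA
    refine (nf_classes hN0 hN1 hN3 h4 hKF h5b hN6 K D hD h2 hK (A.powersetCard (kA a X))
      (fun _ => 1) ?_).2
    intro s hs
    refine ⟨zero_le_one, fun p hp => ?_⟩
    exact hPP p (hA ((mem_powersetCard.1 hs).1 hp))
  have htot : ∀ A : Finset ℕ, A ⊆ PP (yA a X) →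
      ∑ C : ClassGroup (𝓞 K), MA K (kA a X) A C = es (wK K) A (kA a X) := fun A hA =>
    sum_MA K hN1 D hD h2 hK (kA a X) A (fun p hp => hPP p (hA hp)) (hsum A hA)
  refine ⟨⟨?_, htot, ?_, ?_⟩, ?_⟩
  · by_contra hcon
    exact hne1 (bd_of_not_equi hN0 hN1 hN3 h4 hKF h5b hN6 a _ X D hy hD K h2 hK hcon)
  · intro p hp
    exact wK_bd K hN1 D hD h2 hK (hPP p hp)
  · intro p hp P Q hP hQ
    exact conj_prime K hSPL D hD h2 hK (hPP p hp).1 P Q hP hQ
  · rw [← htot _ subset_rfl]
    unfold MA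
    rw [hsum _ subset_rfl]
    exact hne2

/-- The primes generate robustly: the statements for one field. -/
def RobK (K : Type) [Field K] [NumberField K] (a l ll : ℝ) : Prop :=
  (∀ H : Subgroup (ClassGroup (𝓞 K)), H ≠ ⊤ →
    1 / (1000 * a) * min (l ^ a / ll) (l ^ (a - 1) * Real.log H.index) ≤
      ({P : nonZeroDivisors (Ideal (𝓞 K)) | (P : Ideal (𝓞 K)).IsPrime ∧
        (Ideal.absNorm (P : Ideal (𝓞 K)) : ℝ) ≤ l ^ a ∧ ClassGroup.mk0 P ∉ H}.ncard : ℝ)) ∧
  ∀ S : Finset (nonZeroDivisors (Ideal (𝓞 K))), (S.card : ℝ) ≤ l ^ (a - 1) / (1000 * a) →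
    ∀ C : ClassGroup (𝓞 K), ∃ L : Multiset (nonZeroDivisors (Ideal (𝓞 K))),
      (∀ P ∈ L, (P : Ideal (𝓞 K)).IsPrime ∧
        (Ideal.absNorm (P : Ideal (𝓞 K)) : ℝ) ≤ l ^ a ∧ P ∉ S) ∧
      (L.card : ℝ) ≤ l / ll ∧ (L.map (fun P => ClassGroup.mk0 P)).prod = C

lemma finite_le (K : Type) [Field K] [NumberField K] (B : ℝ) :
    {P : nonZeroDivisors (Ideal (𝓞 K)) | (Ideal.absNorm (P : Ideal (𝓞 K)) : ℝ) ≤ B}.Finite := by
  refine (Ideal.finite_setOfPred_absNorm_le₀ (S := 𝓞 K) ⌊B⌋₊).subset fun I hI => ?_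
  exact Nat.le_floor hI

theorem robK_of (hSPL : P_SPL) (hN0 : P_N0) (hN1 : P_N1) (hN3 : P_N3) (h4 : P_N4) (hKF : P_KF)
    (h5b : P_N5b) (hN6 : P_N6) (a : ℝ) (ha : 2 < a) (X D : ℕ) (d : ℝ)
    (hn : Nums a (yA a X) (kA a X) (PP (yA a X)).card d) (hD : IsFund D)
    (K : Type) [Field K] [NumberField K] (h2 : Module.finrank ℚ K = 2)
    (hK : NumberField.discr K = (D : ℤ)) (hne : ¬ Bx a (1 / 4) X D) :
    RobK K a (Real.log d) (Real.log (Real.log d)) := by
  obtain ⟨hB, hM⟩ := base_of hSPL hN0 hN1 hN3 h4 hKF h5b hN6 a X D hn.hy2 hD K h2 hK hne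
  obtain ⟨n1, n2, n3, n4, n5, n6, n7, n8, n9, n10, n11⟩ := hn
  have hW := many hB n4 hM n5
  set y := yA a X with hy
  set k := kA a X with hk
  set l := Real.log d with hl
  set ll := Real.log l with hll
  set W : ℝ := ((PI K y).ncard : ℝ) with hWdef
  have ha0 : 0 < a := by linarith
  have hk1 : (1 : ℝ) ≤ k := by exact_mod_cast n4
  have hl0 : 0 < l := by linarith
  have hll0 : 0 < ll := by linarith
  have hWk : 40 * (k : ℝ) ^ 2 ≤ W := n6.trans hW
  have hWl : l ^ a / (20 * a * ll) ≤ W := n7.trans hW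
  have hla : l ^ a = l ^ (a - 1) * l := by
    rw [← Real.rpow_add_one hl0.ne']
    congr 1
    ring
  have hl1 : 0 < l ^ (a - 1) := by positivity
  have hW0 : 0 < W := by nlinarith
  have hPI : ∀ P ∈ PI K y, (P : Ideal (𝓞 K)).IsPrime ∧
      (Ideal.absNorm (P : Ideal (𝓞 K)) : ℝ) ≤ l ^ a := by
    intro P hP
    have hP' : Ideal.absNorm (P : Ideal (𝓞 K)) ∈ PP y := hP
    simp only [PP, mem_filter, mem_Ioc] at hP'
    constructor
    · exact Ideal.isPrime_of_irreducible_absNorm hP'.2
    · have h5 : ((Ideal.absNorm (P : Ideal (𝓞 K)) : ℕ) : ℝ) ≤ ((2 * y : ℕ) : ℝ) := by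
        exact_mod_cast hP'.1.2
      push_cast at h5
      exact h5.trans n1
  refine ⟨?_, ?_⟩
  · intro H hH
    have hidx : 2 ≤ H.index := by
      have h5 : H.index ≠ 1 := fun h => hH (Subgroup.index_eq_one.1 h)
      have h6 : H.index ≠ 0 := Subgroup.index_ne_zero_of_finite
      omega
    have hidx2 : (2 : ℝ) ≤ (H.index : ℝ) := by exact_mod_cast hidx
    have hlogm : 0 < Real.log H.index := Real.log_pos (by linarith)
    set w : ℝ := ({P ∈ PI K y | ClassGroup.mk0 P ∈ H}.ncard : ℝ) with hw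
    have hfin : (PI K y).Finite := finite_PIA K (PP y)
    have hwW : w ≤ W := by
      rw [hw, hWdef]
      have h50 : {P ∈ PI K y | ClassGroup.mk0 P ∈ H} ⊆ PI K y := fun P hP => hP.1
      exact_mod_cast Set.ncard_le_ncard h50 hfin
    have hout := out_real hidx2 n4 hwW hWk (fun h => sub_ineq hB H h)
    have hdiff : W - w ≤ ({P : nonZeroDivisors (Ideal (𝓞 K)) | (P : Ideal (𝓞 K)).IsPrime ∧
        (Ideal.absNorm (P : Ideal (𝓞 K)) : ℝ) ≤ l ^ a ∧ ClassGroup.mk0 P ∉ H}.ncard : ℝ) := by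
      have h5 : (PI K y).ncard ≤ ({P ∈ PI K y | ClassGroup.mk0 P ∈ H}).ncard +
          ({P : nonZeroDivisors (Ideal (𝓞 K)) | (P : Ideal (𝓞 K)).IsPrime ∧
          (Ideal.absNorm (P : Ideal (𝓞 K)) : ℝ) ≤ l ^ a ∧ ClassGroup.mk0 P ∉ H}).ncard := by
        refine (Set.ncard_le_ncard ?_ ?_).trans (Set.ncard_union_le _ _)
        · intro P hP
          by_cases hPH : ClassGroup.mk0 P ∈ H
          · left; exact ⟨hP, hPH⟩
          · right; exact ⟨(hPI P hP).1, (hPI P hP).2, hPH⟩
        · apply Set.Finite.union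
          · exact hfin.subset fun P hP => hP.1
          · exact (finite_le K (l ^ a)).subset fun P hP => hP.2.1
      have h6 : W ≤ w + ({P : nonZeroDivisors (Ideal (𝓞 K)) | (P : Ideal (𝓞 K)).IsPrime ∧
          (Ideal.absNorm (P : Ideal (𝓞 K)) : ℝ) ≤ l ^ a ∧ ClassGroup.mk0 P ∉ H}.ncard : ℝ) := by
        rw [hWdef, hw]
        exact_mod_cast h5
      linarith
    refine le_trans ?_ (hout.trans hdiff)
    -- compare
    rw [mul_min_of_nonneg _ _ (by positivity), mul_min_of_nonneg _ _ hW0.le]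
    rw [min_comm (W * (Real.log H.index / (8 * k))) _]
    apply min_le_min
    · have h5 : 1 / (1000 * a) * (l ^ a / ll) ≤ l ^ a / (20 * a * ll) * (1 / 4) := by
        have e1 : 1 / (1000 * a) * (l ^ a / ll) = (l ^ a / (a * ll)) * (1 / 1000) := by
          field_simp
        have e2 : l ^ a / (20 * a * ll) * (1 / 4) = (l ^ a / (a * ll)) * (1 / 80) := by
          field_simp
          ring
        rw [e1, e2]
        apply mul_le_mul_of_nonneg_left (by norm_num) (by positivity)
      refine h5.trans ?_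
      apply mul_le_mul_of_nonneg_right hWl (by norm_num)
    · have h5 : l ^ a / (20 * a * ll) * (Real.log H.index / (8 * k)) ≤
          W * (Real.log H.index / (8 * k)) :=
        mul_le_mul_of_nonneg_right hWl (by positivity)
      refine le_trans ?_ h5
      rw [div_mul_div_comm, le_div_iff₀ (by positivity), hla]
      have h6 : 1 / (1000 * a) * (l ^ (a - 1) * Real.log H.index) * (20 * a * ll * (8 * k)) =
          (l ^ (a - 1) * Real.log H.index) * (160 / 1000 * (ll * k)) := by
        field_simp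
        ring
      rw [h6]
      have h7 : 160 / 1000 * (ll * k) ≤ l := by
        have h8 : 2 * (ll * k) ≤ a * k * ll := by
          have : 0 ≤ ll * k := by positivity
          nlinarith
        linarith
      calc (l ^ (a - 1) * Real.log H.index) * (160 / 1000 * (ll * k))
          ≤ (l ^ (a - 1) * Real.log H.index) * l :=
            mul_le_mul_of_nonneg_left h7 (by positivity)
        _ = l ^ (a - 1) * l * Real.log H.index := by ring
  · intro S hS C
    have h5 : 10 * (k : ℝ) * (S.card + k) ≤ W := by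
      have h6 : 10 * (k : ℝ) * S.card ≤ l ^ a / (40 * a * ll) := by
        calc 10 * (k : ℝ) * S.card ≤ 10 * (k : ℝ) * (l ^ (a - 1) / (1000 * a)) := by gcongr
          _ ≤ l ^ a / (40 * a * ll) := by
            rw [hla, mul_div_assoc', div_le_div_iff₀ (by positivity) (by positivity)]
            have h7 : a * k * ll ≤ 2 * l := n8
            have h8 : 10 * (k : ℝ) * l ^ (a - 1) * (40 * a * ll) =
                400 * l ^ (a - 1) * (a * k * ll) := by ring
            have h9 : l ^ (a - 1) * l * (1000 * a) = 1000 * l ^ (a - 1) * (l * a) := by ring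
            rw [h8, h9]
            have h10 : 400 * l ^ (a - 1) * (a * k * ll) ≤ 400 * l ^ (a - 1) * (2 * l) :=
              mul_le_mul_of_nonneg_left h7 (by positivity)
            have h11 : 400 * l ^ (a - 1) * (2 * l) ≤ 1000 * l ^ (a - 1) * (l * a) := by
              have : l ^ (a - 1) * l * 2 ≤ l ^ (a - 1) * l * a :=
                mul_le_mul_of_nonneg_left ha.le (by positivity)
              nlinarith
            linarith
      have h12 : l ^ a / (40 * a * ll) = (l ^ a / (20 * a * ll)) / 2 := by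
        field_simp
        ring
      rw [h12] at h6
      nlinarith
    obtain ⟨L, hL1, hL2, hL3⟩ := robust hB S h5 C
    refine ⟨L, fun P hP => ⟨(hPI P (hL1 P hP).1).1, (hPI P (hL1 P hP).1).2, (hL1 P hP).2⟩, ?_, hL3⟩
    rw [hL2]
    push_cast
    exact n2

end Pool.Agent.Q299.TPC
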