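import Pool.Agent.Q299.TPC.Coef
import Pool.Agent.Q299.TPC.Out

/-!
# Products of random small prime ideals in the class group
-/

set_option autoImplicit false

namespace Pool.Agent.Q299.TPC

open Finset Filter NumberField Pool.Agent.H38R2.CG Pool.Agent.H38R2.CG2 Pool.Agent.H38R2.CG3
open MonoidAlgebra
open scoped Classical

section

variable (K : Type) [Field K] [NumberField K]

/-- what is known about the field, second version -/
structure Base2 (y k : ℕ) (t : ℝ) : Prop where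
  equi : Equi K y k t
  tot : ∑ C : ClassGroup (𝓞 K), MA K k (PP y) C = es (wK K) (PP y) k
  bd : ∀ p ∈ PP y, 0 ≤ wK K p ∧ wK K p ≤ 2

/-- base facts for non-exceptional discriminants -/
theorem base2_of (hN0 : P_N0) (hN1 : P_N1) (hN3 : P_N3) (h4 : P_N4) (hKF : P_KF)
    (h5b : P_N5b) (hN6 : P_N6) (a t0 : ℝ) (X D : ℕ) (hy : 2 ≤ yA a X) (hD : IsFund D)
    (h2 : Module.finrank ℚ K = 2)
    (hK : NumberField.discr K = (D : ℤ)) (hne : ¬ Bx a t0 X D) :
    Base2 K (yA a X) (kA a X) t0 ∧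
      1 / 2 * ((PP (yA a X)).card.choose (kA a X) : ℝ) ≤ es (wK K) (PP (yA a X)) (kA a X) := by
  unfold Bx at hne
  push Not at hne
  obtain ⟨hne1, hne2⟩ := hne
  have hPP : ∀ p ∈ PP (yA a X), p.Prime ∧ p ≠ 2 := by
    intro p hp
    simp only [PP, mem_filter, mem_Ioc] at hp
    exact ⟨hp.2, by omega⟩
  have hsum : ∑ C : ClassGroup (𝓞 K), MC K ((PP (yA a X)).powersetCard (kA a X)) (fun _ => 1) C =
        MD D ((PP (yA a X)).powersetCard (kA a X)) (fun _ => 1) := by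
    refine (nf_classes hN0 hN1 hN3 h4 hKF h5b hN6 K D hD h2 hK
      ((PP (yA a X)).powersetCard (kA a X)) (fun _ => 1) ?_).2
    intro s hs
    refine ⟨zero_le_one, fun p hp => ?_⟩
    exact hPP p ((mem_powersetCard.1 hs).1 hp)
  have htot : ∑ C : ClassGroup (𝓞 K), MA K (kA a X) (PP (yA a X)) C =
      es (wK K) (PP (yA a X)) (kA a X) :=
    sum_MA K hN1 D hD h2 hK (kA a X) (PP (yA a X)) hPP hsum
  refine ⟨⟨?_, htot, ?_⟩, ?_⟩
  · by_contra hcon
    exact hne1 (bd_of_not_equi hN0 hN1 hN3 h4 hKF h5b hN6 a _ X D hy hD K h2 hK hcon)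
  · intro p hp
    exact wK_bd K hN1 D hD h2 hK (hPP p hp)
  · rw [← htot]
    unfold MA
    rw [hsum]
    exact hne2

/-- many small primes of degree one -/
theorem many2 {y k : ℕ} (hbd : ∀ p ∈ PP y, 0 ≤ wK K p ∧ wK K p ≤ 2) (hk : 1 ≤ k)
    (hM : 1 / 2 * ((PP y).card.choose k : ℝ) ≤ es (wK K) (PP y) k) (hkn : k ≤ (PP y).card + 1) :
    (((PP y).card : ℝ) + 1 - k) / 2 ≤ ((PI K y).ncard : ℝ) := by
  have hW : ((PI K y).ncard : ℝ) = ∑ p ∈ PP y, wK K p := ncard_PIA K (PP y) fun p hp => PP_pos hp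
  rw [hW]
  set Wt := ∑ p ∈ PP y, wK K p with hWt
  have hWt0 : 0 ≤ Wt := sum_nonneg fun p hp => (hbd p hp).1
  have h1 := fact_es_le (fun p hp => (hbd p hp).1) k
  set n := (PP y).card with hn
  have h3 : (((n + 1 - k : ℕ) : ℝ)) ^ k ≤ (k.factorial : ℝ) * (n.choose k : ℝ) := by
    have h4 := Nat.pow_sub_le_descFactorial n k
    rw [Nat.descFactorial_eq_factorial_mul_choose] at h4
    exact_mod_cast h4
  have h5 : (((n + 1 - k : ℕ) : ℝ)) ^ k ≤ 2 * Wt ^ k := by
    have h7 : (k.factorial : ℝ) * (1 / 2 * (n.choose k : ℝ)) ≤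
        (k.factorial : ℝ) * es (wK K) (PP y) k := by gcongr
    linarith
  have h8 : (((n + 1 - k : ℕ) : ℝ)) ^ k ≤ (2 * Wt) ^ k := by
    refine h5.trans ?_
    rw [mul_pow]
    have h9 : (2 : ℝ) ≤ 2 ^ k := by
      calc (2 : ℝ) = 2 ^ 1 := by norm_num
        _ ≤ 2 ^ k := pow_le_pow_right₀ (by norm_num) hk
    gcongr
  have h10 : ((n + 1 - k : ℕ) : ℝ) ≤ 2 * Wt :=
    le_of_pow_le_pow_left₀ (by omega) (by positivity) h8
  rw [Nat.cast_sub hkn] at h10
  push_cast at h10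
  linarith

variable {K}

/-- the steps: sum of the classes of the primes of norm in `(y, 2 y]` -/
lemma sumAg {y : ℕ} (F : Finset (nonZeroDivisors (Ideal (𝓞 K))))
    (hF : ∀ P, P ∈ F ↔ P ∈ PI K y) :
    ∑ P ∈ F, single (ClassGroup.mk0 P) (1 : ℝ) = ∑ p ∈ PP y, Ag K p := by
  apply ext'
  intro C
  rw [coeff_sum, coeff_sum, Finsupp.finsetSum_apply, Finsupp.finsetSum_apply]
  simp only [coeff_single, Finsupp.single_apply]
  rw [← sum_fiberwise_of_maps_to (t := PP y)
    (g := fun P : nonZeroDivisors (Ideal (𝓞 K)) => Ideal.absNorm (P : Ideal (𝓞 K)))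
    (fun P hP => (hF P).1 hP)]
  refine sum_congr rfl fun p hp => ?_
  rw [Ag_coeff, ← sum_filter, sum_const, nsmul_eq_mul, mul_one]
  congr 1
  symm
  apply Nat.subtype_card
  intro I
  rw [mem_filter, mem_filter, hF]
  constructor
  · rintro ⟨⟨_, h1⟩, h2⟩
    exact ⟨h1, h2⟩
  · rintro ⟨h1, h2⟩
    refine ⟨⟨?_, h1⟩, h2⟩
    show Ideal.absNorm (I : Ideal (𝓞 K)) ∈ PP y
    rw [h1]
    exact hp

/-- **mixing of the walk with steps from `(y, 2 y]`** -/
theorem mix_base {y k : ℕ} {t : ℝ} (hB : Base2 K y k t) (hW : 0 < ∑ p ∈ PP y, wK K p) :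
    l1 ((∑ p ∈ PP y, Ag K p) ^ k -
      ((∑ p ∈ PP y, wK K p) ^ k) • uu (ClassGroup (𝓞 K))) ≤
      (√t + 2 * (k : ℝ) ^ 2 / (∑ p ∈ PP y, wK K p)) * (∑ p ∈ PP y, wK K p) ^ k := by
  set W := ∑ p ∈ PP y, wK K p with hWdef
  set S := ∑ p ∈ PP y, Ag K p with hS
  have hpr : ∀ p ∈ PP y, p.Prime := fun p hp => by
    unfold PP at hp
    exact (mem_filter.1 hp).2
  have hl1 : ∀ p ∈ PP y, l1 (Ag K p) ≤ wK K p := fun p hp => (l1_Ag K (hpr p hp).pos).le
  have h1 := l1_pow_sub (Ag K) (wK K) (PP y) hl1 hB.bd k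
  rw [← hS, ← hWdef] at h1
  have htS : tot S = W := by
    have : ∀ U : Finset ℕ, (∀ p ∈ U, 0 < p) → tot (∑ p ∈ U, Ag K p) = ∑ p ∈ U, wK K p := by
      intro U
      induction U using Finset.induction_on with
      | empty =>
        intro _
        unfold tot
        simp
      | insert p s hp ih =>
        intro hU
        rw [sum_insert hp, sum_insert hp, tot_add, tot_Ag K (hU p (mem_insert_self _ _)),
          ih fun q hq => hU q (mem_insert_of_mem hq)]
    exact this _ fun p hp => (hpr p hp).pos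
  set M := er (Ag K) (PP y) k with hM
  have hMc : ∀ C, M.coeff C = MA K k (PP y) C := fun C => er_coeff K k (PP y) hpr C
  have h2 := l1_of_equi K hB.equi M hMc
  have htM : tot M = es (wK K) (PP y) k := by
    rw [← hB.tot]
    unfold tot
    exact sum_congr rfl fun C _ => hMc C
  have hesle : (k.factorial : ℝ) * tot M ≤ W ^ k := by
    rw [htM]
    exact fact_es_le (fun p hp => (hB.bd p hp).1) k
  set fk : ℝ := (k.factorial : ℝ) with hfk
  have hfk0 : 0 ≤ fk := by positivity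
  have htM0 : 0 ≤ tot M := by
    rw [htM]
    exact es_nonneg (fun p hp => (hB.bd p hp).1) k
  have h3 : l1 (S ^ k - fk • M) ≤ (k : ℝ) ^ 2 / W * W ^ k := by
    rw [div_mul_eq_mul_div, le_div_iff₀ hW]
    refine h1.trans ?_
    apply mul_le_mul_of_nonneg_right _ (by positivity)
    nlinarith [Nat.cast_nonneg (α := ℝ) k]
  have h4 : |W ^ k - fk * tot M| ≤ (k : ℝ) ^ 2 / W * W ^ k := by
    refine le_trans ?_ h3
    have := abs_tot_le (S ^ k - fk • M)
    rw [tot_sub, tot_pow, tot_smul, htS] at this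
    exact this
  have e : S ^ k - (W ^ k) • uu (ClassGroup (𝓞 K)) = (S ^ k - fk • M) +
      (fk • (M - tot M • uu (ClassGroup (𝓞 K))) -
        (W ^ k - fk * tot M) • uu (ClassGroup (𝓞 K))) := by
    rw [smul_sub, smul_smul, sub_smul]
    abel
  rw [e]
  refine (l1_add _ _).trans ?_
  have h5 : l1 (fk • (M - tot M • uu (ClassGroup (𝓞 K))) -
        (W ^ k - fk * tot M) • uu (ClassGroup (𝓞 K))) ≤
      √t * W ^ k + (k : ℝ) ^ 2 / W * W ^ k := by
    refine (l1_sub _ _).trans (add_le_add ?_ ?_)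
    · rw [l1_smul, abs_of_nonneg hfk0]
      calc fk * l1 (M - tot M • uu (ClassGroup (𝓞 K))) ≤ fk * (√t * tot M) := by gcongr
        _ = √t * (fk * tot M) := by ring
        _ ≤ √t * W ^ k := by gcongr
    · rw [l1_smul, l1_uu, mul_one]
      exact h4
  have h6 : (√t + 2 * (k : ℝ) ^ 2 / W) * W ^ k =
      (k : ℝ) ^ 2 / W * W ^ k + (√t * W ^ k + (k : ℝ) ^ 2 / W * W ^ k) := by ring
  rw [h6]
  exact add_le_add h3 h5

/-- **mixing of the walk with steps from a larger set** -/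
theorem mix_all {y k : ℕ} {t : ℝ} (hB : Base2 K y k t) (hW : 0 < ∑ p ∈ PP y, wK K p)
    (Q : Finset (nonZeroDivisors (Ideal (𝓞 K)))) (hQ : ∀ P ∈ PI K y, P ∈ Q) (m : ℕ) (ε : ℝ)
    (h1 : √t + 2 * (k : ℝ) ^ 2 / (∑ p ∈ PP y, wK K p) ≤ ε / 2)
    (h2 : 2 * (2 ^ k * ((Q.card : ℝ) - (∑ p ∈ PP y, wK K p) / 2) ^ m) ≤
      ε / 2 * (Q.card : ℝ) ^ m) :
    l1 ((∑ P ∈ Q, single (ClassGroup.mk0 P) (1 : ℝ)) ^ m -
      ((Q.card : ℝ) ^ m) • uu (ClassGroup (𝓞 K))) ≤ ε * (Q.card : ℝ) ^ m := by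
  set W := ∑ p ∈ PP y, wK K p with hWdef
  set F : Finset (nonZeroDivisors (Ideal (𝓞 K))) := Q.filter (fun P => P ∈ PI K y) with hF
  have hFm : ∀ P, P ∈ F ↔ P ∈ PI K y := by
    intro P
    rw [hF, mem_filter]
    exact ⟨fun h => h.2, fun h => ⟨hQ P h, h⟩⟩
  set R : Finset (nonZeroDivisors (Ideal (𝓞 K))) := Q.filter (fun P => ¬ P ∈ PI K y) with hR
  set a := ∑ P ∈ F, single (ClassGroup.mk0 P) (1 : ℝ) with ha
  set b := ∑ P ∈ R, single (ClassGroup.mk0 P) (1 : ℝ) with hb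
  have hsplit : ∑ P ∈ Q, single (ClassGroup.mk0 P) (1 : ℝ) = a + b :=
    (sum_filter_add_sum_filter_not Q _ _).symm
  have hnn : ∀ (U : Finset (nonZeroDivisors (Ideal (𝓞 K)))) (x : ClassGroup (𝓞 K)),
      0 ≤ (∑ P ∈ U, single (ClassGroup.mk0 P) (1 : ℝ)).coeff x := by
    intro U x
    rw [coeff_sum, Finsupp.finsetSum_apply]
    refine sum_nonneg fun P _ => ?_
    rw [coeff_single, Finsupp.single_apply]
    split_ifs <;> norm_num
  have htt : ∀ U : Finset (nonZeroDivisors (Ideal (𝓞 K))),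
      tot (∑ P ∈ U, single (ClassGroup.mk0 P) (1 : ℝ)) = U.card := by
    intro U
    induction U using Finset.induction_on with
    | empty =>
      unfold tot
      simp
    | insert P s hP ih =>
      rw [sum_insert hP, tot_add, ih, tot_single, card_insert_of_notMem hP]
      push_cast
      ring
  have haW : tot a = W := by
    rw [ha, sumAg F hFm, hWdef]
    have : ∀ U : Finset ℕ, (∀ p ∈ U, 0 < p) → tot (∑ p ∈ U, Ag K p) = ∑ p ∈ U, wK K p := by
      intro U
      induction U using Finset.induction_on with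
      | empty =>
        intro _
        unfold tot
        simp
      | insert p s hp ih =>
        intro hU
        rw [sum_insert hp, sum_insert hp, tot_add, tot_Ag K (hU p (mem_insert_self _ _)),
          ih fun q hq => hU q (mem_insert_of_mem hq)]
    exact this _ fun p hp => PP_pos hp
  have hcard : tot a + tot b = Q.card := by
    rw [← tot_add, ← hsplit, htt]
  have hbase : l1 (a ^ k - (tot a ^ k) • uu (ClassGroup (𝓞 K))) ≤ ε / 2 * tot a ^ k := by
    rw [haW, ha, sumAg F hFm]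
    refine (mix_base hB hW).trans ?_
    exact mul_le_mul_of_nonneg_right h1 (by positivity)
  have hε : 0 ≤ ε / 2 := by
    refine le_trans ?_ h1
    positivity
  have key := l1_add_pow a b (hnn F) (hnn R) k m (ε / 2) hε hbase
  rw [hcard] at key
  rw [hsplit]
  refine key.trans ?_
  have e : tot a / 2 + tot b = (Q.card : ℝ) - W / 2 := by
    rw [← hcard, haW]
    ring
  rw [e]
  linarith

end

end Pool.Agent.Q299.TPC
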